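import Pool.Agent.Lib.UPN.GDefs
import Pool.Agent.Lib.F059.ASweep

/-!
# UPN.GLoc (2.5 h): local lemmas for geometric triangulations

* `no_between`: `p q c` is an empty triangle of `A`, `c` to the left of `p q`, `s(p,r) ∈ A`, `r` to the left of
  `p q`, `r ≠ c`.  Then `ori p c r > 0`.  Otherwise `ori p c r < 0` (`GenPos`; `r ≠ p`, `r ≠ q` too).  `r` is in the
  open angle `q p c`.  If `ori q c r ≥ 0` then `InT p q c r` (`ori c p r = - ori p c r > 0`), contradiction to `Em`.
  If `ori q c r < 0` then `Cr p r q c`: `ori p r q = - ori p q r < 0`, `ori p r c = - ori p c r > 0`,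
  `ori q c p = ori p q c > 0`, `ori q c r < 0`; contradiction to `Plane A`.
* `ET_unique`: `c ≠ d` on the same side of `a b`; after `ET.swap` we may assume the left side; `no_between` for
  `a b c` and `r = d` gives `ori a c d > 0`, for `a b d` and `r = c` gives `ori a d c > 0`, contradiction.
* `exists_edge`: let `p ∈ P`, `p ≠ a`.  If no member of `A` crosses `a p` then `s(a,p) ∈ A` (maximality).  Otherwise
  take the crossing member with the smallest `tau a p` (`Finset.exists_min_image`) and `F059.sweep`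
  (in `F059.ASweep`; name its ends so that `ori a p v > 0`).
* `last_dir`, `first_dir`: a nonempty finite set of points of `P` strictly on one side of the line `v a`: the
  relation `0 < ori v z z'` is a strict total order on it (transitivity by the identity `cramer` in
  `F059.ADefs` or by the quotients `<z - v, a - v> / ori v a z`; see also `aloc_angle` in `F059.ALocal`).
* `last_lx`, `first_lx`: the same for points which are lexicographically larger than `p` (`F059.Lx` of
  `F059.ACard` is not imported here, it is restated): if `ori p q r > 0`, `ori p r s > 0` and `q, r, s` are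
  larger than `p` then `ori p q s > 0` by
  `ori p q s • (r - p) = ori p r s • (q - p) + ori p q r • (s - p)`.
-/

set_option autoImplicit false

namespace UPN

open F059

/-- lexicographic order -/
def Lxx (p q : F059.Pt) : Prop := p.1 < q.1 ∨ (p.1 = q.1 ∧ p.2 < q.2)

theorem Lxx.irrefl {p : F059.Pt} : ¬ Lxx p p := by
  rintro (h | ⟨-, h⟩) <;> exact lt_irrefl _ h

theorem Lxx.trans {p q r : F059.Pt} (h : Lxx p q) (h' : Lxx q r) : Lxx p r := by
  rcases h with h | ⟨h1, h2⟩ <;> rcases h' with h' | ⟨h3, h4⟩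
  · exact Or.inl (h.trans h')
  · exact Or.inl (h3 ▸ h)
  · exact Or.inl (h1 ▸ h')
  · exact Or.inr ⟨h1.trans h3, h2.trans h4⟩

theorem Lxx.total {p q : F059.Pt} (h : p ≠ q) : Lxx p q ∨ Lxx q p := by
  rcases lt_trichotomy p.1 q.1 with h1 | h1 | h1
  · exact Or.inl (Or.inl h1)
  · rcases lt_trichotomy p.2 q.2 with h2 | h2 | h2
    · exact Or.inl (Or.inr ⟨h1, h2⟩)
    · exact absurd (Prod.ext h1 h2) h
    · exact Or.inr (Or.inr ⟨h1.symm, h2⟩)
  · exact Or.inr (Or.inl h1)

theorem no_between {P : Finset F059.Pt} (hP : GenPos P) {A : Finset (Sym2 F059.Pt)} (hA : Tri P A)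
    {p q c r : F059.Pt} (h : ET P A p q c) (hc : 0 < ori p q c) (hr : s(p, r) ∈ A)
    (h1 : 0 < ori p q r) (hne : r ≠ c) : 0 < ori p c r := by
  obtain ⟨-, hrP, hpr⟩ := mem_Seg.1 (hA.1 hr)
  obtain ⟨-, -, hcp⟩ := mem_Seg.1 (hA.1 h.ca)
  have hne0 : ori p c r ≠ 0 := hP p h.ha c h.hc r hrP (Ne.symm hcp) hpr (Ne.symm hne)
  by_contra hcon
  have hneg : ori p c r < 0 := lt_of_le_of_ne (not_lt.1 hcon) hne0
  rcases le_or_gt 0 (ori q c r) with h2 | h2
  · have e1 : ori c p r = - ori p c r := ori_swap p c r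
    have hT : InT p q c r := Or.inl ⟨h1.le, h2, by linarith⟩
    rcases h.em.2 r hrP hT with h3 | h3 | h3
    · exact hpr h3.symm
    · rw [h3, ori_self_right] at h1
      exact lt_irrefl _ h1
    · exact hne h3
  · refine hA.2.1 _ hr _ h.bc (SCr_mk.2 ⟨?_, ?_⟩)
    · have e1 : ori p r q = - ori p q r := ori_swap' p q r
      have e2 : ori p r c = - ori p c r := ori_swap' p c r
      rw [e1, e2]
      nlinarith
    · have e3 : ori q c p = ori p q c := ori_cyc p q c
      rw [e3]
      exact mul_neg_of_pos_of_neg hc h2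

theorem ET_unique {P : Finset F059.Pt} (hP : GenPos P) {A : Finset (Sym2 F059.Pt)} (hA : Tri P A)
    {a b c d : F059.Pt} (h1 : ET P A a b c) (h2 : ET P A a b d)
    (h : 0 < ori a b c * ori a b d) : c = d := by
  by_contra hcd
  have key : ∀ a b : F059.Pt, ET P A a b c → ET P A a b d → 0 < ori a b c → 0 < ori a b d →
      False := by
    intro a b h1 h2 h3 h4
    have h5 := no_between hP hA h1 h3 (r := d) (by rw [Sym2.eq_swap]; exact h2.ca) h4 (Ne.symm hcd)
    have h6 := no_between hP hA h2 h4 (r := c) (by rw [Sym2.eq_swap]; exact h1.ca) h3 hcd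
    have e1 : ori a d c = - ori a c d := ori_swap' a c d
    linarith
  have e1 : ori b a c = - ori a b c := ori_swap a b c
  have e2 : ori b a d = - ori a b d := ori_swap a b d
  rcases pos_and_pos_or_neg_and_neg_of_mul_pos h with ⟨h3, h4⟩ | ⟨h3, h4⟩
  · exact key a b h1 h2 h3 h4
  · exact key b a h1.swap h2.swap (by linarith) (by linarith)

namespace GLocAux

lemma same_sign {s x y : ℝ} (hx : 0 < s * x) (hy : 0 < s * y) : 0 < x * y := by
  have h : 0 < (s * x) * (s * y) := mul_pos hx hy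
  have h2 : (s * x) * (s * y) = s ^ 2 * (x * y) := by ring
  rw [h2] at h
  exact pos_of_mul_pos_right h (sq_nonneg s)

/-- `kappa` decides the order of the directions -/
lemma dir_of_kappa {v a z w : F059.Pt} (hva : v ≠ a) (hzw : 0 < ori v a z * ori v a w)
    (h : ((z.1 - v.1) * (a.1 - v.1) + (z.2 - v.2) * (a.2 - v.2)) / ori v a z ≤
      ((w.1 - v.1) * (a.1 - v.1) + (w.2 - v.2) * (a.2 - v.2)) / ori v a w) :
    0 ≤ ori v w z := by
  have hz : ori v a z ≠ 0 := by
    intro h0
    rw [h0, zero_mul] at hzw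
    exact lt_irrefl _ hzw
  have hw : ori v a w ≠ 0 := by
    intro h0
    rw [h0, mul_zero] at hzw
    exact lt_irrefl _ hzw
  have h1 := mul_le_mul_of_nonneg_right h hzw.le
  have e1 : ((z.1 - v.1) * (a.1 - v.1) + (z.2 - v.2) * (a.2 - v.2)) / ori v a z *
      (ori v a z * ori v a w) =
      ((z.1 - v.1) * (a.1 - v.1) + (z.2 - v.2) * (a.2 - v.2)) * ori v a w := by
    field_simp
  have e2 : ((w.1 - v.1) * (a.1 - v.1) + (w.2 - v.2) * (a.2 - v.2)) / ori v a w *
      (ori v a z * ori v a w) =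
      ((w.1 - v.1) * (a.1 - v.1) + (w.2 - v.2) * (a.2 - v.2)) * ori v a z := by
    field_simp
  rw [e1, e2] at h1
  have h4 : ((w.1 - v.1) * (a.1 - v.1) + (w.2 - v.2) * (a.2 - v.2)) * ori v a z -
      ((z.1 - v.1) * (a.1 - v.1) + (z.2 - v.2) * (a.2 - v.2)) * ori v a w =
      ((a.1 - v.1) ^ 2 + (a.2 - v.2) ^ 2) * ori v w z := by
    unfold ori; ring
  have h5 : 0 < (a.1 - v.1) ^ 2 + (a.2 - v.2) ^ 2 := by
    have h6 : a.1 - v.1 ≠ 0 ∨ a.2 - v.2 ≠ 0 := by
      by_contra hc
      push Not at hc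
      exact hva (Prod.ext (by linarith [hc.1]) (by linarith [hc.2]))
    rcases h6 with h6 | h6
    · have := sq_nonneg (a.2 - v.2)
      positivity
    · have := sq_nonneg (a.1 - v.1)
      positivity
  have h7 : 0 ≤ ((a.1 - v.1) ^ 2 + (a.2 - v.2) ^ 2) * ori v w z := by
    rw [← h4]; linarith
  exact nonneg_of_mul_nonneg_right h7 h5

lemma side_ne {v a z : F059.Pt} {s : ℝ} (h : 0 < s * ori v a z) : v ≠ a ∧ v ≠ z := by
  constructor
  · rintro rfl
    rw [ori_self_same, mul_zero] at h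
    exact lt_irrefl _ h
  · rintro rfl
    rw [ori_self_left, mul_zero] at h
    exact lt_irrefl _ h

lemma exists_first {α : Type*} [DecidableEq α] (r : α → α → Prop) (H : Finset α) :
    H.Nonempty → (∀ x ∈ H, ∀ y ∈ H, x ≠ y → r x y ∨ r y x) →
    (∀ x ∈ H, ∀ y ∈ H, ∀ z ∈ H, r x y → r y z → r x z) →
    ∃ z ∈ H, ∀ z' ∈ H, z' ≠ z → r z z' := by
  induction H using Finset.induction_on with
  | empty => intro h; exact absurd h Finset.not_nonempty_empty
  | insert x s hx ih =>
    intro _ htot htr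
    by_cases hs : s.Nonempty
    · obtain ⟨z, hz, hz'⟩ := ih hs
        (fun x hx y hy => htot x (Finset.mem_insert_of_mem hx) y (Finset.mem_insert_of_mem hy))
        (fun x hx y hy z hz => htr x (Finset.mem_insert_of_mem hx) y (Finset.mem_insert_of_mem hy)
          z (Finset.mem_insert_of_mem hz))
      have hxz : x ≠ z := by
        rintro rfl
        exact hx hz
      rcases htot x (Finset.mem_insert_self _ _) z (Finset.mem_insert_of_mem hz) hxz with h | h
      · refine ⟨x, Finset.mem_insert_self _ _, fun w hw hwx => ?_⟩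
        have hw' : w ∈ s := (Finset.mem_insert.1 hw).resolve_left hwx
        by_cases hwz : w = z
        · rw [hwz]; exact h
        · exact htr x (Finset.mem_insert_self _ _) z (Finset.mem_insert_of_mem hz) w hw h
            (hz' w hw' hwz)
      · refine ⟨z, Finset.mem_insert_of_mem hz, fun w hw hwz => ?_⟩
        rcases Finset.mem_insert.1 hw with hw' | hw'
        · rw [hw']; exact h
        · exact hz' w hw' hwz
    · rw [Finset.not_nonempty_iff_eq_empty] at hs
      subst hs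
      refine ⟨x, Finset.mem_insert_self _ _, fun w hw hwx => ?_⟩
      rw [Finset.mem_insert] at hw
      rcases hw with hw | hw
      · exact absurd hw hwx
      · exact absurd hw (Finset.notMem_empty _)

end GLocAux

open GLocAux

theorem last_dir {P : Finset F059.Pt} (hP : GenPos P) {v a : F059.Pt} (hv : v ∈ P) {s : ℝ}
    {H : Finset F059.Pt} (hH : H ⊆ P) (hne : H.Nonempty) (hs : OneSide v a s H) :
    ∃ z ∈ H, ∀ z' ∈ H, z' ≠ z → 0 < ori v z' z := by
  obtain ⟨z, hz, hmin⟩ := H.exists_min_image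
    (fun z => ((z.1 - v.1) * (a.1 - v.1) + (z.2 - v.2) * (a.2 - v.2)) / ori v a z) hne
  refine ⟨z, hz, fun z' hz' hzz => ?_⟩
  have h0 := dir_of_kappa (side_ne (hs z hz)).1 (same_sign (hs z hz) (hs z' hz')) (hmin z' hz')
  exact lt_of_le_of_ne h0 (Ne.symm (hP v hv z' (hH hz') z (hH hz) (side_ne (hs z' hz')).2
    (side_ne (hs z hz)).2 hzz))

theorem first_dir {P : Finset F059.Pt} (hP : GenPos P) {v a : F059.Pt} (hv : v ∈ P) {s : ℝ}
    {H : Finset F059.Pt} (hH : H ⊆ P) (hne : H.Nonempty) (hs : OneSide v a s H) :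
    ∃ z ∈ H, ∀ z' ∈ H, z' ≠ z → 0 < ori v z z' := by
  obtain ⟨z, hz, hmax⟩ := H.exists_max_image
    (fun z => ((z.1 - v.1) * (a.1 - v.1) + (z.2 - v.2) * (a.2 - v.2)) / ori v a z) hne
  refine ⟨z, hz, fun z' hz' hzz => ?_⟩
  have h0 := dir_of_kappa (side_ne (hs z hz)).1 (same_sign (hs z' hz') (hs z hz)) (hmax z' hz')
  exact lt_of_le_of_ne h0 (Ne.symm (hP v hv z (hH hz) z' (hH hz') (side_ne (hs z hz)).2
    (side_ne (hs z' hz')).2 (Ne.symm hzz)))

theorem lx_trans {p q r s : F059.Pt} (hq : Lxx p q) (hr : Lxx p r) (hs : Lxx p s)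
    (h1 : 0 < ori p q r) (h2 : 0 < ori p r s) : 0 < ori p q s := by
  have key : ori p q s * (r.1 - p.1) = ori p r s * (q.1 - p.1) + ori p q r * (s.1 - p.1) := by
    unfold ori; ring
  have hq1 : 0 ≤ q.1 - p.1 := by
    rcases hq with h | ⟨h, -⟩ <;> linarith
  have hr1 : 0 ≤ r.1 - p.1 := by
    rcases hr with h | ⟨h, -⟩ <;> linarith
  have hs1 : 0 ≤ s.1 - p.1 := by
    rcases hs with h | ⟨h, -⟩ <;> linarith
  by_cases h0 : q.1 - p.1 = 0
  · exfalso
    have hq2 : 0 < q.2 - p.2 := by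
      rcases hq with h | ⟨-, h⟩ <;> linarith
    unfold ori at h1
    rw [h0, zero_mul] at h1
    have := mul_nonneg hq2.le hr1
    linarith
  · have h3 : 0 < q.1 - p.1 := lt_of_le_of_ne hq1 (Ne.symm h0)
    have h4 : 0 < ori p r s * (q.1 - p.1) := mul_pos h2 h3
    have h5 : 0 ≤ ori p q r * (s.1 - p.1) := mul_nonneg h1.le hs1
    by_contra hcon
    have h6 : ori p q s * (r.1 - p.1) ≤ 0 :=
      mul_nonpos_of_nonpos_of_nonneg (not_lt.1 hcon) hr1
    linarith

theorem first_lx {P : Finset F059.Pt} (hP : GenPos P) {p : F059.Pt} (hp : p ∈ P)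
    {H : Finset F059.Pt} (hH : H ⊆ P) (hne : H.Nonempty) (hs : ∀ z ∈ H, Lxx p z) :
    ∃ z ∈ H, ∀ z' ∈ H, z' ≠ z → 0 < ori p z z' := by
  have hpne : ∀ z ∈ H, p ≠ z := by
    rintro z hz rfl
    exact Lxx.irrefl (hs _ hz)
  refine exists_first (fun x y => 0 < ori p x y) H hne ?_ ?_
  · intro x hx y hy hxy
    have h0 := hP p hp x (hH hx) y (hH hy) (hpne x hx) (hpne y hy) hxy
    have e1 : ori p y x = - ori p x y := ori_swap' p x y
    rcases lt_or_gt_of_ne h0 with h | h
    · right
      show 0 < ori p y x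
      linarith
    · left
      exact h
  · intro x hx y hy z hz h1 h2
    exact lx_trans (hs x hx) (hs y hy) (hs z hz) h1 h2

/-- every point of `P` is the end of an edge -/
theorem exists_edge {P : Finset F059.Pt} (hP : GenPos P) {A : Finset (Sym2 F059.Pt)}
    (hA : Tri P A) {a p : F059.Pt} (ha : a ∈ P) (hp : p ∈ P) (hpa : p ≠ a) :
    ∃ w, s(a, w) ∈ A := by
  classical
  by_cases hcr : ∃ g ∈ A, SCr s(a, p) g
  · obtain ⟨g, hgF, hgmin⟩ := (A.filter fun g => SCr s(a, p) g).exists_min_image (tau a p)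
      (by obtain ⟨g, h1, h2⟩ := hcr; exact ⟨g, Finset.mem_filter.2 ⟨h1, h2⟩⟩)
    obtain ⟨hgA, hgc⟩ := Finset.mem_filter.1 hgF
    have hgmin' : ∀ g' ∈ A, SCr s(a, p) g' → tau a p g ≤ tau a p g' := fun g' h1 h2 =>
      hgmin g' (Finset.mem_filter.2 ⟨h1, h2⟩)
    obtain ⟨u, v, rfl, hv⟩ : ∃ u v, g = s(u, v) ∧ 0 < ori a p v := by
      induction g using Sym2.ind with
      | _ u v =>
        have h1 := (SCr_mk.1 hgc).1
        rcases lt_trichotomy 0 (ori a p v) with h | h | h
        · exact ⟨u, v, rfl, h⟩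
        · rw [← h, mul_zero] at h1
          exact absurd h1 (lt_irrefl _)
        · exact ⟨v, u, Sym2.eq_swap, by nlinarith⟩
    obtain ⟨w, -, hw, -, -⟩ := sweep hP hA ha hp hgA (SCr_mk.1 hgc) hgmin' hv
    exact ⟨w, hw⟩
  · push Not at hcr
    exact ⟨p, hA.2.2 _ (mem_Seg.2 ⟨ha, hp, Ne.symm hpa⟩) hcr⟩

/-- the lexicographically smallest point -/
theorem exists_lx_min (H : Finset F059.Pt) (hne : H.Nonempty) :
    ∃ z ∈ H, ∀ z' ∈ H, z' ≠ z → Lxx z z' := by
  classical
  exact exists_first Lxx H hne (fun x _ y _ hxy => Lxx.total hxy)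
    (fun x _ y _ z _ h1 h2 => h1.trans h2)

end UPN
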