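import Pool.Agent.Lib.UPN.Defs
import Pool.Agent.Lib.F059.Basic

/-!
# UPN.Perturb (2.5 h): a planar graph has a straight-line drawing in general position

The set of the drawings of `G` on `Fin k` is open in `Fin k → ℝ × ℝ`: a map is a drawing iff it is injective, no
vertex lies on an edge of which it is not an end, and edges without common ends are disjoint (two edges with a
common end overlap only if an end of one of them is on the other).  The maps with `ori (φ i) (φ j) (φ l) ≠ 0`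
form an open dense set for all distinct `i j l`; Baire.
-/

set_option autoImplicit false

namespace UPN

open F059 Topology Filter Set

namespace PerturbAux

variable {k : ℕ}

lemma isClosed_meet (a b c d : Fin k) :
    IsClosed {φ : Fin k → ℝ × ℝ | ∃ x, x ∈ segment ℝ (φ a) (φ b) ∧ x ∈ segment ℝ (φ c) (φ d)} := by
  have hC : IsClosed {z : (unitInterval × unitInterval) × (Fin k → ℝ × ℝ) |
      AffineMap.lineMap (z.2 a) (z.2 b) (z.1.1 : ℝ) =
        AffineMap.lineMap (z.2 c) (z.2 d) (z.1.2 : ℝ)} := by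
    simp only [AffineMap.lineMap_apply_module]
    refine isClosed_eq ?_ ?_ <;> fun_prop
  have h := (isClosedMap_snd_of_compactSpace (X := unitInterval × unitInterval)
    (Y := Fin k → ℝ × ℝ)) _ hC
  convert h using 1
  ext φ
  constructor
  · rintro ⟨x, h1, h2⟩
    rw [segment_eq_image_lineMap] at h1 h2
    obtain ⟨t, ht, rfl⟩ := h1
    obtain ⟨u, hu, h3⟩ := h2
    exact ⟨((⟨t, ht⟩, ⟨u, hu⟩), φ), h3.symm, rfl⟩
  · rintro ⟨⟨⟨t, u⟩, ψ⟩, h1, rfl⟩
    replace h1 : AffineMap.lineMap (ψ a) (ψ b) (t : ℝ) = AffineMap.lineMap (ψ c) (ψ d) (u : ℝ) := h1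
    refine ⟨AffineMap.lineMap (ψ a) (ψ b) (t : ℝ), ?_, ?_⟩
    · rw [segment_eq_image_lineMap]; exact ⟨t, t.2, rfl⟩
    · rw [h1, segment_eq_image_lineMap]; exact ⟨u, u.2, rfl⟩

/-- two segments with a common end which overlap -/
lemma overlap {p q r x : ℝ × ℝ} (h1 : x ∈ segment ℝ p q) (h2 : x ∈ segment ℝ p r) (hx : x ≠ p) :
    q ∈ segment ℝ p r ∨ r ∈ segment ℝ p q := by
  rw [segment_eq_image_lineMap] at h1 h2
  obtain ⟨t, ht, rfl⟩ := h1
  obtain ⟨u, hu, h3⟩ := h2
  have key : ∀ s : ℝ, ∀ q : ℝ × ℝ, AffineMap.lineMap p q s = p + s • (q - p) := by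
    intro s q
    rw [AffineMap.lineMap_apply_module']
    abel
  rw [key, key] at h3
  rw [key] at hx
  have h4 : u • (r - p) = t • (q - p) := by simpa using h3
  have ht0 : t ≠ 0 := by rintro rfl; simp at hx
  have hu0 : u ≠ 0 := by
    rintro rfl
    rw [zero_smul] at h4
    rw [← h4] at hx
    simp at hx
  have htp : 0 < t := lt_of_le_of_ne ht.1 (Ne.symm ht0)
  have hup : 0 < u := lt_of_le_of_ne hu.1 (Ne.symm hu0)
  rcases le_total t u with h | h
  · -- r = p + (t/u) (q-p)
    right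
    rw [segment_eq_image_lineMap]
    refine ⟨t / u, ⟨by positivity, (div_le_one hup).2 h⟩, ?_⟩
    rw [key]
    have : r - p = (t / u) • (q - p) := by
      rw [div_eq_inv_mul, mul_smul, ← h4, smul_smul, inv_mul_cancel₀ hu0, one_smul]
    rw [← this]; abel
  · left
    rw [segment_eq_image_lineMap]
    refine ⟨u / t, ⟨by positivity, (div_le_one htp).2 h⟩, ?_⟩
    rw [key]
    have : q - p = (u / t) • (r - p) := by
      rw [div_eq_inv_mul, mul_smul, h4, smul_smul, inv_mul_cancel₀ ht0, one_smul]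
    rw [← this]; abel

/-- the open description of drawings -/
def Good (G : SimpleGraph (Fin k)) (φ : Fin k → ℝ × ℝ) : Prop :=
  (∀ i j, i ≠ j → φ i ≠ φ j) ∧
  ∀ a b c d, G.Adj a b → (c = d ∨ G.Adj c d) → c ≠ a → c ≠ b → d ≠ a → d ≠ b →
    ¬ ∃ x, x ∈ segment ℝ (φ a) (φ b) ∧ x ∈ segment ℝ (φ c) (φ d)

lemma good_of_drawing {G : SimpleGraph (Fin k)} {φ : Fin k → ℝ × ℝ} (h : UPS.IsDrawing G φ) :
    Good G φ := by
  refine ⟨fun i j hij he => hij (h.1 he), ?_⟩
  rintro a b c d hab hcd hca hcb hda hdb ⟨x, hx1, hx2⟩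
  rcases hcd with rfl | hcd
  · rw [segment_same] at hx2
    rw [mem_singleton_iff] at hx2
    rcases h.2.2 c a b hab (hx2 ▸ hx1) with h1 | h1
    · exact hca h1
    · exact hcb h1
  · have hne : s(a, b) ≠ s(c, d) := by
      intro he
      rw [Sym2.eq_iff] at he
      rcases he with ⟨h1, _⟩ | ⟨h1, _⟩
      · exact hca h1.symm
      · exact hda h1.symm
    obtain ⟨v, hv1, hv2, _⟩ := h.2.1 a b c d hab hcd hne x hx1 hx2
    rcases hv1 with rfl | rfl <;> rcases hv2 with h2 | h2
    · exact hca h2.symm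
    · exact hda h2.symm
    · exact hcb h2.symm
    · exact hdb h2.symm

lemma drawing_of_good {G : SimpleGraph (Fin k)} {φ : Fin k → ℝ × ℝ} (h : Good G φ) :
    UPS.IsDrawing G φ := by
  have hinj : Function.Injective φ := by
    intro i j hij
    by_contra hne
    exact h.1 i j hne hij
  have h3 : ∀ v a b, G.Adj a b → φ v ∈ segment ℝ (φ a) (φ b) → v = a ∨ v = b := by
    intro v a b hab hv
    by_contra hcon
    push Not at hcon
    exact h.2 a b v v hab (Or.inl rfl) hcon.1 hcon.2 hcon.1 hcon.2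
      ⟨φ v, hv, by rw [segment_same]; rfl⟩
  -- edges with a common end
  have h4 : ∀ a b c, G.Adj a b → G.Adj a c → b ≠ c → ∀ x, x ∈ segment ℝ (φ a) (φ b) →
      x ∈ segment ℝ (φ a) (φ c) → x = φ a := by
    intro a b c hab hac hbc x h1 h2
    by_contra hx
    rcases overlap h1 h2 hx with h5 | h5
    · rcases h3 b a c hac h5 with h6 | h6
      · exact hab.ne h6.symm
      · exact hbc h6
    · rcases h3 c a b hab h5 with h6 | h6
      · exact hac.ne h6.symm
      · exact hbc h6.symm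
  refine ⟨hinj, ?_, h3⟩
  intro a b c d hab hcd hne x hx1 hx2
  by_cases hac : a = c
  · subst hac
    have hbd : b ≠ d := by rintro rfl; exact hne rfl
    exact ⟨a, Or.inl rfl, Or.inl rfl, h4 a b d hab hcd hbd x hx1 hx2⟩
  by_cases had : a = d
  · subst had
    have hbd : b ≠ c := by rintro rfl; exact hne Sym2.eq_swap
    exact ⟨a, Or.inl rfl, Or.inr rfl, h4 a b c hab hcd.symm hbd x hx1 (by rwa [segment_symm])⟩
  by_cases hbc : b = c
  · subst hbc
    have hbd : a ≠ d := had
    exact ⟨b, Or.inr rfl, Or.inl rfl, h4 b a d hab.symm hcd hbd x (by rwa [segment_symm]) hx2⟩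
  by_cases hbd : b = d
  · subst hbd
    exact ⟨b, Or.inr rfl, Or.inr rfl, h4 b a c hab.symm hcd.symm hac x (by rwa [segment_symm])
      (by rwa [segment_symm])⟩
  exact absurd ⟨x, hx1, hx2⟩
    (h.2 a b c d hab (Or.inr hcd) (Ne.symm hac) (Ne.symm hbc) (Ne.symm had) (Ne.symm hbd))

lemma isOpen_good (G : SimpleGraph (Fin k)) : IsOpen {φ | Good G φ} := by
  unfold Good
  simp only [setOf_and, setOf_forall]
  refine IsOpen.inter ?_ ?_
  · refine isOpen_iInter_of_finite fun i => isOpen_iInter_of_finite fun j =>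
      isOpen_iInter_of_finite fun _ => ?_
    exact isOpen_ne_fun (by fun_prop) (by fun_prop)
  · refine isOpen_iInter_of_finite fun a => isOpen_iInter_of_finite fun b =>
      isOpen_iInter_of_finite fun c => isOpen_iInter_of_finite fun d =>
      isOpen_iInter_of_finite fun _ => isOpen_iInter_of_finite fun _ =>
      isOpen_iInter_of_finite fun _ => isOpen_iInter_of_finite fun _ =>
      isOpen_iInter_of_finite fun _ => isOpen_iInter_of_finite fun _ => ?_
    exact (isClosed_meet a b c d).isOpen_compl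

lemma isOpen_ori (i j l : Fin k) :
    IsOpen {φ : Fin k → ℝ × ℝ | ori (φ i) (φ j) (φ l) ≠ 0} := by
  unfold ori
  exact isOpen_ne_fun (by fun_prop) (by fun_prop)

lemma dense_ori (i j l : Fin k) (hij : i ≠ j) (hil : i ≠ l) (hjl : j ≠ l) :
    Dense {φ : Fin k → ℝ × ℝ | ori (φ i) (φ j) (φ l) ≠ 0} := by
  intro φ
  by_contra hφ
  set e : Fin k → ℝ × ℝ := Function.update (Function.update 0 j (1, 0)) l (0, 1) with he
  have hei : e i = (0, 0) := by
    rw [he, Function.update_of_ne hil, Function.update_of_ne hij]; rfl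
  have hej : e j = (1, 0) := by
    rw [he, Function.update_of_ne hjl, Function.update_self]
  have hel : e l = (0, 1) := by
    rw [he, Function.update_self]
  have hcont : Continuous (fun t : ℝ => φ + t • e) := by fun_prop
  have hnb : ∀ᶠ t in 𝓝 (0 : ℝ), φ + t • e ∈ (closure {φ : Fin k → ℝ × ℝ |
      ori (φ i) (φ j) (φ l) ≠ 0})ᶜ := by
    refine hcont.continuousAt.eventually_mem ?_
    simpa using (isClosed_closure.isOpen_compl).mem_nhds hφ
  obtain ⟨δ, hδ, hball⟩ := Metric.eventually_nhds_iff.1 hnb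
  have hz : ∀ t : ℝ, |t| < δ → ori ((φ + t • e) i) ((φ + t • e) j) ((φ + t • e) l) = 0 := by
    intro t ht
    by_contra hne
    exact hball (by simpa [Real.dist_eq] using ht) (subset_closure hne)
  have h0 := hz 0 (by simpa using hδ)
  have h1 := hz (δ / 2) (by rw [abs_of_pos (by positivity)]; linarith)
  have h2 := hz (-(δ / 2)) (by rw [abs_neg, abs_of_pos (by positivity)]; linarith)
  simp only [Pi.add_apply, Pi.smul_apply, hei, hej, hel, ori, Prod.fst_add, Prod.snd_add,
    Prod.smul_fst, Prod.smul_snd, smul_eq_mul] at h0 h1 h2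
  nlinarith

end PerturbAux

open PerturbAux in
theorem exists_genpos {k : ℕ} {G : SimpleGraph (Fin k)} (h : UPS.IsPlanar G) :
    ∃ φ : Fin k → ℝ × ℝ, UPS.IsDrawing G φ ∧
      ∀ i j l, i ≠ j → i ≠ l → j ≠ l → ori (φ i) (φ j) (φ l) ≠ 0 := by
  obtain ⟨φ, hφ⟩ := h
  have hd : Dense (⋂ t : {t : Fin k × Fin k × Fin k // t.1 ≠ t.2.1 ∧ t.1 ≠ t.2.2 ∧ t.2.1 ≠ t.2.2},
      {φ : Fin k → ℝ × ℝ | ori (φ t.1.1) (φ t.1.2.1) (φ t.1.2.2) ≠ 0}) :=
    dense_iInter_of_isOpen (fun t => isOpen_ori _ _ _)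
      (fun t => dense_ori _ _ _ t.2.1 t.2.2.1 t.2.2.2)
  obtain ⟨ψ, hψ1, hψ2⟩ := hd.inter_open_nonempty _ (isOpen_good G) ⟨φ, good_of_drawing hφ⟩
  refine ⟨ψ, drawing_of_good hψ1, fun i j l hij hil hjl => ?_⟩
  exact mem_iInter.1 hψ2 ⟨(i, j, l), hij, hil, hjl⟩

end UPN
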