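import Pool.Agent.Lib.UPN.HostCard

/-!
# UPN.Asym (2 h): the size of the host for the best choice of the parameter

`c = 3q+3`, `N = g q (n+3)`, `M = n + 3`, `ℓ = Nat.log 2 M`; `q = Nat.sqrt ℓ + 1` (`ℓ ≥ 2`), so
`ℓ ≤ q^2` and `q ≤ 1 + √ℓ`.  `(1 + 1/q)^ℓ ≤ exp (ℓ / q) ≤ exp q` (`ℓ ≤ q^2`).
`N ≤ G q M + 1 ≤ 2^(4q+4) M e^q + 1`, `host_card`: the number is at most
`(N+1) (Nat.clog 2 N + 1) (2^(3q+3) + 1)`.  `Nat.clog 2 N + 1 ≤ 2^(C q)`: e.g.
`N ≤ 2^(4q+6) M e^q ≤ 2^(8q+6+ℓ+1)`, so `clog 2 N ≤ 8q + 7 + ℓ ≤ q^2 + 8 q + 7 ≤ 2^(5 q)` (say).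
`M ≤ 4 n`.  All together `≤ n exp (C' q)`, and `q ≤ 1 + √(log M / log 2) ≤ C'' √(log (n+1))` for
`n ≥ 1` (`log (n+3) ≤ 2 log (n+1)`, `√(log (n+1)) ≥ √(log 2)`).
-/

set_option autoImplicit false

namespace UPN

namespace AsymAux

theorem two_pow_le (k : ℕ) : (2 : ℝ) ^ k ≤ Real.exp k := by
  have h : (2 : ℝ) ≤ Real.exp 1 := by
    have := Real.add_one_le_exp (1 : ℝ)
    linarith
  calc (2 : ℝ) ^ k ≤ Real.exp 1 ^ k := pow_le_pow_left₀ (by norm_num) h k
    _ = Real.exp k := by rw [← Real.exp_nat_mul, mul_one]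

theorem exp_le_two_pow (k : ℕ) : Real.exp k ≤ (2 : ℝ) ^ (2 * k) := by
  have h : Real.exp 1 ≤ 4 := by
    have := Real.exp_one_lt_d9
    linarith
  calc Real.exp k = Real.exp 1 ^ k := by rw [← Real.exp_nat_mul, mul_one]
    _ ≤ 4 ^ k := pow_le_pow_left₀ (Real.exp_pos _).le h k
    _ = (2 : ℝ) ^ (2 * k) := by rw [pow_mul]; norm_num

theorem rr_pow_le {q l : ℕ} (hq : 1 ≤ q) (h : l ≤ q * q) : rr q ^ l ≤ Real.exp q := by
  have hq' : (0 : ℝ) < q := by exact_mod_cast hq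
  have h0 : 0 ≤ rr q := by
    unfold rr
    positivity
  calc rr q ^ l ≤ Real.exp (1 / q) ^ l := by
        refine pow_le_pow_left₀ h0 ?_ l
        have := Real.add_one_le_exp ((1 : ℝ) / q)
        unfold rr
        linarith
    _ = Real.exp (l * (1 / q)) := by rw [← Real.exp_nat_mul]
    _ ≤ Real.exp q := by
        apply Real.exp_le_exp.2
        rw [mul_one_div, div_le_iff₀ hq']
        exact_mod_cast h

theorem quad_le {q : ℕ} (hq : 1 ≤ q) : (q * q + 6 * q + 7 : ℝ) ≤ Real.exp (6 * q) := by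
  have hq' : (1 : ℝ) ≤ q := by exact_mod_cast hq
  have h1 : (q : ℝ) ≤ Real.exp q := by
    have := Real.add_one_le_exp (q : ℝ)
    linarith
  have h2 : (4 : ℝ) ≤ Real.exp 2 := by
    have := two_pow_le 2
    norm_num at this
    exact this
  have h3 : (q + 3 : ℝ) ≤ Real.exp (3 * q) := by
    calc (q + 3 : ℝ) ≤ 4 * q := by linarith
      _ ≤ Real.exp 2 * Real.exp q := mul_le_mul h2 h1 (by linarith) (Real.exp_pos _).le
      _ = Real.exp (2 + q) := by rw [Real.exp_add]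
      _ ≤ Real.exp (3 * q) := Real.exp_le_exp.2 (by linarith)
  calc (q * q + 6 * q + 7 : ℝ) ≤ (q + 3) * (q + 3) := by nlinarith
    _ ≤ Real.exp (3 * q) * Real.exp (3 * q) :=
      mul_le_mul h3 h3 (by linarith) (Real.exp_pos _).le
    _ = Real.exp (6 * q) := by
      rw [← Real.exp_add]
      congr 1
      ring

theorem q_le {n : ℕ} (hn : 1 ≤ n) :
    ((Nat.sqrt (Nat.log 2 (n + 3)) + 1 : ℕ) : ℝ) ≤ 4 * √(Real.log (n + 1)) := by
  set l := Nat.log 2 (n + 3) with hl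
  have hn' : (1 : ℝ) ≤ n := by exact_mod_cast hn
  have h1 : 2 ^ l ≤ n + 3 := Nat.pow_log_le_self 2 (by omega)
  have h1' : (2 : ℝ) ^ l ≤ n + 3 := by exact_mod_cast h1
  have h2 : (l : ℝ) * Real.log 2 ≤ Real.log (n + 3) := by
    rw [← Real.log_pow]
    exact Real.log_le_log (by positivity) h1'
  have h3 : Real.log (n + 3) ≤ 2 * Real.log (n + 1) := by
    have : Real.log (n + 3) ≤ Real.log (((n : ℝ) + 1) ^ 2) :=
      Real.log_le_log (by positivity) (by nlinarith)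
    rwa [Real.log_pow] at this
  have hlog2 : (1 : ℝ) / 2 ≤ Real.log 2 := by
    have := Real.log_two_gt_d9
    linarith
  have hL : (1 : ℝ) / 2 ≤ Real.log (n + 1) := by
    refine hlog2.trans (Real.log_le_log (by norm_num) (by linarith))
  have h4 : (l : ℝ) ≤ 4 * Real.log (n + 1) := by
    have hl0 : (0 : ℝ) ≤ l := by positivity
    nlinarith
  have h5 : ((Nat.sqrt l : ℕ) : ℝ) ≤ √(l : ℝ) := Real.nat_sqrt_le_real_sqrt
  have h6 : √(l : ℝ) ≤ 2 * √(Real.log (n + 1)) := by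
    have e : (2 : ℝ) * √(Real.log (n + 1)) = √(4 * Real.log (n + 1)) := by
      rw [Real.sqrt_mul (by norm_num)]
      congr 1
      rw [show (4 : ℝ) = 2 ^ 2 by norm_num, Real.sqrt_sq (by norm_num)]
    rw [e]
    exact Real.sqrt_le_sqrt h4
  have h7 : (1 : ℝ) ≤ 2 * √(Real.log (n + 1)) := by
    have : (1 : ℝ) / 2 ≤ √(Real.log (n + 1)) := by
      apply Real.le_sqrt_of_sq_le
      linarith
    linarith
  push_cast
  linarith

end AsymAux

open AsymAux

theorem asym : ∃ C : ℝ, 0 < C ∧ ∀ n : ℕ, 1 ≤ n → ∃ q : ℕ, 1 ≤ q ∧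
    ((Host (3 * q + 3) (g q (n + 3))).card : ℝ) ≤ n * Real.exp (C * √(Real.log (n + 1))) := by
  refine ⟨104, by norm_num, fun n hn => ⟨Nat.sqrt (Nat.log 2 (n + 3)) + 1, by omega, ?_⟩⟩
  have hqL := q_le hn
  set l := Nat.log 2 (n + 3) with hl
  set q := Nat.sqrt l + 1 with hq
  have hq1 : 1 ≤ q := by omega
  have hn' : (1 : ℝ) ≤ n := by exact_mod_cast hn
  have hlq : l ≤ q * q := (Nat.lt_succ_sqrt l).le
  have hM : n + 3 < 2 ^ (l + 1) := Nat.lt_pow_succ_log_self (by norm_num) _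
  have hM' : (n + 3 : ℝ) ≤ 2 ^ (l + 1) := by exact_mod_cast hM.le
  have hr := rr_pow_le hq1 hlq
  set B : ℝ := 2 ^ (4 * q + 4) * (n + 3) * Real.exp q with hB
  have hG : G q (n + 3) ≤ B := by
    unfold G
    rw [← hl, hB]
    push_cast
    exact mul_le_mul_of_nonneg_left hr (by positivity)
  have hG0 : 0 ≤ G q (n + 3) := by
    unfold G rr
    positivity
  have hB1 : 1 ≤ B := by
    have e1 : (1 : ℝ) ≤ 2 ^ (4 * q + 4) := one_le_pow₀ (by norm_num)
    have e2 : (1 : ℝ) ≤ Real.exp q := Real.one_le_exp (by positivity)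
    have e3 : (1 : ℝ) ≤ 2 ^ (4 * q + 4) * (n + 3) := by nlinarith
    rw [hB]
    nlinarith
  have hN : (g q (n + 3) : ℝ) ≤ 2 * B := by
    have := (Nat.ceil_lt_add_one hG0).le
    unfold g
    linarith
  have hclog : Nat.clog 2 (g q (n + 3)) ≤ q * q + 6 * q + 6 := by
    have h1 : (g q (n + 3) : ℝ) ≤ (2 : ℝ) ^ (6 * q + 6 + l) := by
      refine hN.trans ?_
      have e1 := exp_le_two_pow q
      calc 2 * B = 2 * 2 ^ (4 * q + 4) * ((n + 3) * Real.exp q) := by rw [hB]; ring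
        _ ≤ 2 * 2 ^ (4 * q + 4) * (2 ^ (l + 1) * 2 ^ (2 * q)) := by
          refine mul_le_mul_of_nonneg_left ?_ (by positivity)
          exact mul_le_mul hM' e1 (Real.exp_pos _).le (by positivity)
        _ = (2 : ℝ) ^ (6 * q + 6 + l) := by ring
    have h2 : g q (n + 3) ≤ 2 ^ (6 * q + 6 + l) := by exact_mod_cast h1
    have h3 := Nat.clog_le_of_le_pow h2
    omega
  have hclog' : ((Nat.clog 2 (g q (n + 3)) + 1 : ℕ) : ℝ) ≤ q * q + 6 * q + 7 := by
    have : Nat.clog 2 (g q (n + 3)) + 1 ≤ q * q + 6 * q + 7 := by omega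
    exact_mod_cast this
  have hcard := host_card (3 * q + 3) (g q (n + 3))
  have hcard' : ((Host (3 * q + 3) (g q (n + 3))).card : ℝ) ≤
      ((g q (n + 3) : ℝ) + 1) * ((Nat.clog 2 (g q (n + 3)) + 1 : ℕ) : ℝ) * (2 ^ (3 * q + 3) + 1) := by
    have h1 : ((Host (3 * q + 3) (g q (n + 3))).card : ℝ) ≤
      (((g q (n + 3) + 1) * (Nat.clog 2 (g q (n + 3)) + 1) * (2 ^ (3 * q + 3) + 1) : ℕ) : ℝ) := by
      exact_mod_cast hcard
    refine h1.trans (le_of_eq ?_)
    push_cast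
    ring
  refine hcard'.trans ?_
  have hquad := quad_le hq1
  have h2p : (2 : ℝ) ^ (7 * q + 12) ≤ Real.exp (19 * q) := by
    have e1 : (2 : ℝ) ^ (7 * q + 12) ≤ 2 ^ (19 * q) := pow_le_pow_right₀ (by norm_num) (by omega)
    have e2 := two_pow_le (19 * q)
    push_cast at e2
    exact e1.trans e2
  have hpow : (1 : ℝ) ≤ 2 ^ (3 * q + 3) := one_le_pow₀ (by norm_num)
  calc ((g q (n + 3) : ℝ) + 1) * ((Nat.clog 2 (g q (n + 3)) + 1 : ℕ) : ℝ) * (2 ^ (3 * q + 3) + 1)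
      ≤ (4 * B) * Real.exp (6 * q) * (2 * 2 ^ (3 * q + 3)) := by
        refine mul_le_mul (mul_le_mul (by linarith) (hclog'.trans hquad) (by positivity)
          (by positivity)) (by linarith) (by positivity) (by positivity)
    _ = (n + 3) * 2 ^ (7 * q + 10) * (Real.exp q * Real.exp (6 * q)) := by
        rw [hB]
        ring
    _ ≤ (4 * n) * 2 ^ (7 * q + 10) * (Real.exp q * Real.exp (6 * q)) := by
        refine mul_le_mul_of_nonneg_right (mul_le_mul_of_nonneg_right (by linarith)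
          (by positivity)) (by positivity)
    _ = n * (2 ^ (7 * q + 12) * (Real.exp q * Real.exp (6 * q))) := by ring
    _ ≤ n * (Real.exp (19 * q) * (Real.exp q * Real.exp (6 * q))) := by
        refine mul_le_mul_of_nonneg_left (mul_le_mul_of_nonneg_right h2p (by positivity))
          (by positivity)
    _ = n * Real.exp (26 * q) := by
        rw [← Real.exp_add, ← Real.exp_add]
        congr 2
        ring
    _ ≤ n * Real.exp (104 * √(Real.log (n + 1))) := by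
        refine mul_le_mul_of_nonneg_left (Real.exp_le_exp.2 ?_) (by positivity)
        linarith

end UPN
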