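import Pool.Agent.Lib.UPN.GTwo

/-!
# UPN.GConn (1.5 h): the triangles are connected

`Z` closed under adjacency.  Its complement is closed too; exchanging them we may assume `{o1,o2,o3} ∉ Z` and show
`Z = ∅` (if the complement is empty then `Z = T`).  Suppose `Z ≠ ∅`.  `p` = the lexicographically smallest vertex of the
triangles of `Z` (`exists_lx_min`), `H` = the set of the `q ≠ p` such that some triangle of `Z` contains `p, q`;
`first_lx`: `q ∈ H` with `ori p q q' > 0` for all other `q' ∈ H`.  `dg Z p q = 2` (closed and `dg T p q = 2`), so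
`Cfg.other` gives `{p, q, c} ∈ Z` with `ori p q c < 0`; `c ∈ H`, `c ≠ q`, contradiction.
-/

set_option autoImplicit false

namespace UPN

open F059

variable {P : Finset F059.Pt} {A : Finset (Sym2 F059.Pt)} {o1 o2 o3 : F059.Pt}

namespace GConnAux

open Classical in
theorem empty_of_closed (h : Cfg P A o1 o2 o3) {W : Finset (Finset F059.Pt)}
    (hW : W ⊆ TT P A o1 o2 o3)
    (hcl : ∀ t ∈ W, ∀ t' ∈ TT P A o1 o2 o3, 2 ≤ (t ∩ t').card → t' ∈ W)
    (ho : {o1, o2, o3} ∉ W) : W = ∅ := by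
  by_contra hne
  obtain ⟨t0, ht0⟩ := Finset.nonempty_iff_ne_empty.mpr hne
  set U : Finset F059.Pt := W.biUnion id with hU
  have hmemU : ∀ x, x ∈ U ↔ ∃ t ∈ W, x ∈ t := by
    intro x
    rw [hU, Finset.mem_biUnion]
    rfl
  have hUne : U.Nonempty := by
    have hc := h.card3 t0 (hW ht0)
    have hpos : 0 < t0.card := by omega
    obtain ⟨x, hx⟩ := Finset.card_pos.mp hpos
    exact ⟨x, (hmemU x).mpr ⟨t0, ht0, hx⟩⟩
  obtain ⟨p, hpU, hpmin⟩ := exists_lx_min U hUne
  obtain ⟨t1, ht1, hpt1⟩ := (hmemU p).mp hpU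
  set H : Finset F059.Pt := U.filter (fun q => q ≠ p ∧ ∃ t ∈ W, p ∈ t ∧ q ∈ t) with hH
  have hHP : H ⊆ P := by
    intro q hq
    rw [hH, Finset.mem_filter] at hq
    obtain ⟨t, ht, _, hqt⟩ := hq.2.2
    exact h.sub (hW ht) hqt
  have hHne : H.Nonempty := by
    have hc := h.card3 t1 (hW ht1)
    obtain ⟨q, hq, hqp⟩ := Finset.exists_mem_ne (show 1 < t1.card by omega) p
    refine ⟨q, ?_⟩
    rw [hH, Finset.mem_filter]
    exact ⟨(hmemU q).mpr ⟨t1, ht1, hq⟩, hqp, t1, ht1, hpt1, hq⟩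
  have hHlx : ∀ z ∈ H, Lxx p z := by
    intro z hz
    rw [hH, Finset.mem_filter] at hz
    exact hpmin z hz.1 hz.2.1
  obtain ⟨q, hqH, hq⟩ := first_lx h.gp (h.sub (hW ht1) hpt1) hHP hHne hHlx
  have hqH' := hqH
  rw [hH, Finset.mem_filter] at hqH'
  obtain ⟨-, hqp, t2, ht2, hpt2, hqt2⟩ := hqH'
  have hfil : W.filter (fun t => p ∈ t ∧ q ∈ t) =
      (TT P A o1 o2 o3).filter (fun t => p ∈ t ∧ q ∈ t) := by
    ext t
    simp only [Finset.mem_filter]
    constructor
    · rintro ⟨h1, h2⟩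
      exact ⟨hW h1, h2⟩
    · rintro ⟨h1, h2, h3⟩
      refine ⟨hcl t2 ht2 t h1 ?_, h2, h3⟩
      have hsub : ({p, q} : Finset F059.Pt) ⊆ t2 ∩ t := by
        intro x hx
        simp only [Finset.mem_insert, Finset.mem_singleton] at hx
        rcases hx with rfl | rfl
        · exact Finset.mem_inter.mpr ⟨hpt2, h2⟩
        · exact Finset.mem_inter.mpr ⟨hqt2, h3⟩
      have := Finset.card_le_card hsub
      rw [Finset.card_pair hqp.symm] at this
      exact this
  have hd : dg W p q = 2 := by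
    have h1 := h.dg_of_edge (h.edge_of_mem (hW ht2) hqp.symm hpt2 hqt2)
    unfold dg at h1 ⊢
    rw [← h1]
    refine congrArg Finset.card ?_
    convert hfil
  obtain ⟨_, c, hc, -, hneg⟩ := h.other hW ho hqp.symm hd
  have hcne := GTwoAux.ori_ne hneg.ne
  have hcH : c ∈ H := by
    rw [hH, Finset.mem_filter]
    exact ⟨(hmemU c).mpr ⟨_, hc, by simp⟩, hcne.2.1.symm, _, hc, by simp, by simp⟩
  have := hq c hcH hcne.2.2.symm
  linarith

end GConnAux

open GConnAux

theorem Cfg.conn (h : Cfg P A o1 o2 o3) : ∀ Z ⊆ TT P A o1 o2 o3,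
    (∀ t ∈ Z, ∀ t' ∈ TT P A o1 o2 o3, 2 ≤ (t ∩ t').card → t' ∈ Z) →
    Z = ∅ ∨ Z = TT P A o1 o2 o3 := by
  intro Z hZ hcl
  by_cases ho : {o1, o2, o3} ∈ Z
  · right
    classical
    have h1 : TT P A o1 o2 o3 \ Z = ∅ := by
      apply empty_of_closed h Finset.sdiff_subset
      · intro t ht t' ht' hc
        rw [Finset.mem_sdiff] at ht ⊢
        refine ⟨ht', fun hcon => ht.2 (hcl t' hcon t ht.1 ?_)⟩
        rw [Finset.inter_comm]
        convert hc
      · intro hcon
        exact (Finset.mem_sdiff.mp hcon).2 ho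
    exact Finset.Subset.antisymm hZ (Finset.sdiff_eq_empty_iff_subset.mp h1)
  · left
    exact empty_of_closed h hZ (fun t ht t' ht' hc => hcl t ht t' ht' (by convert hc)) ho

end UPN
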