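import Pool.Agent.Lib.UPN.GTwo

/-!
# UPN.GHom (3 h): every even set of edges is the boundary of a set of triangles

Order the edges: for `p < q`, `p' < q'` lexicographically, `(p,q) << (p',q')` iff `p < p'`, or `p = p'` and
`ori p q q' > 0`.  It is a strict partial order on `{(p,q) | Lxx p q, s(p,q) ∈ A}` (`lx_trans`); let `u(e)` be the
number of edges `f` of `A` with `e << f` (oriented lexicographically); `e << f` implies `u(f) < u(e)`.
Measure of `Q`: `μ(Q) = ∑_{e ∈ Q} 3^(u e)`.  Strong induction on `μ(Q)`.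
`Q = ∅`: `X = ∅`.  Otherwise `p` = the lexicographically smallest vertex of `Q`, `H` = the set of the `q` with
`{p,q} ∈ Q` (all are larger than `p`), `q` = the first of them (`first_lx`).  As `vd Q p` is even there is another
`r ∈ H`, `ori p q r > 0`.  `local_left` gives `ET P A p q c`, `ori p q c > 0`.  Claim `Lxx p c`: if `c = r` clear;
otherwise `no_between`: `ori p c r > 0`; if `Lxx c p` then the identity
`ori p q c • (r - p) = ori p q r • (c - p) - ori p c r • (q - p)` (check the signs: both terms on the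
right are lexicographically negative) contradicts `Lxx p r`.  `t = {p, q, c} ∈ T`.
`Q' = symmDiff Q {pq, pc, qc}` (as pairs): still a set of edges, still even at every vertex, `pq` is removed,
`pc` and `qc` are both larger than `pq` (`(p,q) << (p,c)`; the smaller end of `qc` is larger than `p`), so
`μ(Q') ≤ μ(Q) - 3^(u(pq)) + 3^(u(pc)) + 3^(u(qc)) < μ(Q)`.  The induction hypothesis gives `X'` for `Q'`; `X =
symmDiff X' {t}`: `dg X a b ≡ dg X' a b + [a, b ∈ t]` mod 2.
-/

set_option autoImplicit false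

namespace UPN

open F059

variable {P : Finset F059.Pt} {A : Finset (Sym2 F059.Pt)} {o1 o2 o3 : F059.Pt}

namespace GHomAux

theorem even_card_symmDiff {α : Type} [DecidableEq α] (X Y : Finset α) :
    Even (symmDiff X Y).card ↔ (Even X.card ↔ Even Y.card) := by
  have h1 : (X \ Y).card + (X ∩ Y).card = X.card := Finset.card_sdiff_add_card_inter X Y
  have h2 : (Y \ X).card + (Y ∩ X).card = Y.card := Finset.card_sdiff_add_card_inter Y X
  have h3 : (symmDiff X Y).card = (X \ Y).card + (Y \ X).card := by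
    rw [symmDiff_def]
    exact Finset.card_union_of_disjoint disjoint_sdiff_sdiff
  rw [Finset.inter_comm] at h2
  rw [h3]
  simp only [Nat.even_iff]
  omega

theorem pair_eq {α : Type} [DecidableEq α] {a b c d : α} (h : ({a, b} : Finset α) = {c, d}) :
    (a = c ∧ b = d) ∨ (a = d ∧ b = c) := by
  have ha : a ∈ ({c, d} : Finset α) := by rw [← h]; simp
  have hb : b ∈ ({c, d} : Finset α) := by rw [← h]; simp
  have hc : c ∈ ({a, b} : Finset α) := by rw [h]; simp
  have hd : d ∈ ({a, b} : Finset α) := by rw [h]; simp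
  simp only [Finset.mem_insert, Finset.mem_singleton] at ha hb hc hd
  rcases ha with ha | ha <;> rcases hb with hb | hb
  · subst ha; subst hb
    rcases hd with hd | hd <;> exact Or.inl ⟨rfl, hd.symm⟩
  · exact Or.inl ⟨ha, hb⟩
  · exact Or.inr ⟨ha, hb⟩
  · subst ha; subst hb
    rcases hc with hc | hc <;> exact Or.inr ⟨rfl, hc.symm⟩

theorem Lxx.ne {p q : F059.Pt} (h : Lxx p q) : p ≠ q := by
  rintro rfl
  exact Lxx.irrefl h

theorem Lxx.asymm {p q : F059.Pt} (h : Lxx p q) (h' : Lxx q p) : False :=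
  Lxx.irrefl (h.trans h')

/-- order of oriented edges -/
def rel (e f : F059.Pt × F059.Pt) : Prop := Lxx e.1 f.1 ∨ (e.1 = f.1 ∧ 0 < ori e.1 e.2 f.2)

open Classical in
/-- oriented edges -/
noncomputable def OA (P : Finset F059.Pt) (A : Finset (Sym2 F059.Pt)) :
    Finset (F059.Pt × F059.Pt) :=
  (P ×ˢ P).filter (fun e => Lxx e.1 e.2 ∧ s(e.1, e.2) ∈ A)

open Classical in
/-- the number of later edges -/
noncomputable def w (P : Finset F059.Pt) (A : Finset (Sym2 F059.Pt)) (e : Finset F059.Pt) : ℕ :=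
  ((OA P A).filter (fun f => ∃ p q, e = {p, q} ∧ Lxx p q ∧ rel (p, q) f)).card

theorem mem_OA {a b : F059.Pt} (ha : a ∈ P) (hb : b ∈ P) (hl : Lxx a b) (hA : s(a, b) ∈ A) :
    (a, b) ∈ OA P A := by
  classical
  unfold OA
  exact Finset.mem_filter.2 ⟨Finset.mem_product.2 ⟨ha, hb⟩, hl, hA⟩

theorem rel_trans {e f g : F059.Pt × F059.Pt} (he : Lxx e.1 e.2) (hf : Lxx f.1 f.2)
    (hg : Lxx g.1 g.2) (h : rel e f) (h' : rel f g) : rel e g := by
  rcases h with h | ⟨h1, h2⟩
  · rcases h' with h' | ⟨h3, h4⟩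
    · exact Or.inl (h.trans h')
    · exact Or.inl (h3 ▸ h)
  · rcases h' with h' | ⟨h3, h4⟩
    · exact Or.inl (h1 ▸ h')
    · refine Or.inr ⟨h1.trans h3, ?_⟩
      have hf' : Lxx e.1 f.2 := h1 ▸ hf
      have hg' : Lxx e.1 g.2 := (h1.trans h3) ▸ hg
      rw [← h1] at h4
      exact lx_trans he hf' hg' h2 h4

theorem w_lt {p q p' q' : F059.Pt} (hl : Lxx p q) (hl' : Lxx p' q')
    (hmem : (p', q') ∈ OA P A) (hr : rel (p, q) (p', q')) :
    w P A {p', q'} < w P A {p, q} := by
  classical
  unfold w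
  apply Finset.card_lt_card
  rw [Finset.ssubset_iff_of_subset]
  · refine ⟨(p', q'), Finset.mem_filter.2 ⟨hmem, p, q, rfl, hl, hr⟩, ?_⟩
    intro hx
    obtain ⟨-, a, b, h1, h2, h3⟩ := Finset.mem_filter.1 hx
    have hab : a = p' ∧ b = q' := by
      rcases pair_eq h1 with ⟨h4, h5⟩ | ⟨h4, h5⟩
      · exact ⟨h4.symm, h5.symm⟩
      · subst h4; subst h5
        exact (Lxx.asymm hl' h2).elim
    obtain ⟨rfl, rfl⟩ := hab
    rcases h3 with h3 | ⟨-, h3⟩
    · exact Lxx.irrefl h3
    · simp only at h3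
      rw [ori_self_right] at h3
      exact lt_irrefl _ h3
  · intro g hg
    obtain ⟨hg1, a, b, h1, h2, h3⟩ := Finset.mem_filter.1 hg
    have hab : a = p' ∧ b = q' := by
      rcases pair_eq h1 with ⟨h4, h5⟩ | ⟨h4, h5⟩
      · exact ⟨h4.symm, h5.symm⟩
      · subst h4; subst h5
        exact (Lxx.asymm hl' h2).elim
    obtain ⟨rfl, rfl⟩ := hab
    refine Finset.mem_filter.2 ⟨hg1, p, q, rfl, hl, ?_⟩
    have hgl : Lxx g.1 g.2 := (Finset.mem_filter.1 hg1).2.1
    exact rel_trans (e := (p, q)) (f := (a, b)) (g := g) hl h2 hgl hr h3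

theorem claim_lx {p q r c : F059.Pt} (hq : Lxx p q) (hr : Lxx p r) (hc : c ≠ p)
    (h1 : 0 < ori p q r) (h2 : 0 < ori p q c) (h3 : 0 < ori p c r) : Lxx p c := by
  by_contra hn
  have hcp : Lxx c p := by
    rcases Lxx.total hc with h | h
    · exact h
    · exact (hn h).elim
  have hid : ori p q c * (r.1 - p.1) = ori p q r * (c.1 - p.1) - ori p c r * (q.1 - p.1) := by
    unfold ori; ring
  have hq1 : p.1 ≤ q.1 := by
    rcases hq with h | h
    · exact h.le
    · exact h.1.le
  have hr1 : p.1 ≤ r.1 := by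
    rcases hr with h | h
    · exact h.le
    · exact h.1.le
  have hc1 : c.1 ≤ p.1 := by
    rcases hcp with h | h
    · exact h.le
    · exact h.1.le
  have e1 : 0 ≤ ori p q c * (r.1 - p.1) := mul_nonneg h2.le (by linarith)
  have e2 : ori p q r * (c.1 - p.1) ≤ 0 := mul_nonpos_of_nonneg_of_nonpos h1.le (by linarith)
  have e3 : 0 ≤ ori p c r * (q.1 - p.1) := mul_nonneg h3.le (by linarith)
  have f1 : ori p q c * (r.1 - p.1) = 0 := by linarith
  have f3 : ori p c r * (q.1 - p.1) = 0 := by linarith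
  have g1 : r.1 - p.1 = 0 := by
    rcases mul_eq_zero.1 f1 with h | h
    · exact absurd h h2.ne'
    · exact h
  have g3 : q.1 - p.1 = 0 := by
    rcases mul_eq_zero.1 f3 with h | h
    · exact absurd h h3.ne'
    · exact h
  have : ori p q r = 0 := by
    unfold ori
    rw [g1, g3]; ring
  linarith

theorem mem_D {p q c : F059.Pt} {a b : F059.Pt} (hab : a ≠ b) (hpq : p ≠ q) (hpc : p ≠ c)
    (hqc : q ≠ c) :
    ({a, b} : Finset F059.Pt) ∈ ({{p, q}, {p, c}, {q, c}} : Finset (Finset F059.Pt)) ↔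
      (a ∈ ({p, q, c} : Finset F059.Pt) ∧ b ∈ ({p, q, c} : Finset F059.Pt)) := by
  simp only [Finset.mem_insert, Finset.mem_singleton]
  constructor
  · rintro (h | h | h) <;> rcases pair_eq h with ⟨rfl, rfl⟩ | ⟨rfl, rfl⟩ <;> simp
  · rintro ⟨rfl | rfl | rfl, rfl | rfl | rfl⟩
    · exact (hab rfl).elim
    · exact Or.inl rfl
    · exact Or.inr (Or.inl rfl)
    · exact Or.inl (Finset.pair_comm _ _)
    · exact (hab rfl).elim
    · exact Or.inr (Or.inr rfl)
    · exact Or.inr (Or.inl (Finset.pair_comm _ _))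
    · exact Or.inr (Or.inr (Finset.pair_comm _ _))
    · exact (hab rfl).elim

theorem vd_D {p q c : F059.Pt} (hpq : p ≠ q) (hpc : p ≠ c) (hqc : q ≠ c) (v : F059.Pt) :
    Even (vd ({{p, q}, {p, c}, {q, c}} : Finset (Finset F059.Pt)) v) := by
  have n1 : ({p, q} : Finset F059.Pt) ≠ {p, c} := by
    intro h
    rcases pair_eq h with ⟨-, h⟩ | ⟨h, -⟩
    · exact hqc h
    · exact hpc h
  have n2 : ({p, q} : Finset F059.Pt) ≠ {q, c} := by
    intro h
    rcases pair_eq h with ⟨h, -⟩ | ⟨h, -⟩
    · exact hpq h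
    · exact hpc h
  have n3 : ({p, c} : Finset F059.Pt) ≠ {q, c} := by
    intro h
    rcases pair_eq h with ⟨h, -⟩ | ⟨h, -⟩
    · exact hpq h
    · exact hpc h
  unfold vd
  rw [Finset.filter_insert, Finset.filter_insert, Finset.filter_singleton]
  by_cases h1 : v = p
  · subst h1
    rw [if_pos (by simp), if_pos (by simp), if_neg (by simp [hpq, hpc])]
    rw [Finset.card_insert_of_notMem (by simpa using n1), Finset.card_insert_of_notMem (by simp)]
    simp
  · by_cases h2 : v = q
    · subst h2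
      rw [if_pos (by simp), if_neg (by simp [h1, hqc]), if_pos (by simp)]
      rw [Finset.card_insert_of_notMem (by simpa using n2), Finset.card_singleton]
      exact ⟨1, rfl⟩
    · by_cases h3 : v = c
      · subst h3
        rw [if_neg (by simp [h1, h2]), if_pos (by simp), if_pos (by simp)]
        rw [Finset.card_insert_of_notMem (by simpa using n3), Finset.card_singleton]
        exact ⟨1, rfl⟩
      · rw [if_neg (by simp [h1, h2]), if_neg (by simp [h1, h3]), if_neg (by simp [h2, h3])]
        simp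

end GHomAux

open GHomAux

theorem Cfg.hom (h : Cfg P A o1 o2 o3) : ∀ Q : Finset (Finset F059.Pt),
    (∀ e ∈ Q, ∃ a b, a ≠ b ∧ e = {a, b} ∧ dg (TT P A o1 o2 o3) a b ≠ 0) →
    (∀ v, Even (vd Q v)) →
    ∃ X ⊆ TT P A o1 o2 o3, ∀ a b, a ≠ b → (Odd (dg X a b) ↔ {a, b} ∈ Q) := by
  have main : ∀ (n : ℕ) (Q : Finset (Finset F059.Pt)), ∑ e ∈ Q, 3 ^ (w P A e) ≤ n →
      (∀ e ∈ Q, ∃ a b, a ≠ b ∧ e = {a, b} ∧ dg (TT P A o1 o2 o3) a b ≠ 0) →
      (∀ v, Even (vd Q v)) →
      ∃ X ⊆ TT P A o1 o2 o3, ∀ a b, a ≠ b → (Odd (dg X a b) ↔ {a, b} ∈ Q) := by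
    intro n
    induction n with
    | zero =>
      intro Q hn hE hev
      have hQ : Q = ∅ := by
        by_contra hne
        obtain ⟨e, he⟩ := Finset.nonempty_iff_ne_empty.2 hne
        have h1 : 3 ^ (w P A e) ≤ ∑ e ∈ Q, 3 ^ (w P A e) :=
          Finset.single_le_sum (f := fun e => 3 ^ (w P A e)) (fun _ _ => Nat.zero_le _) he
        have h2 : 0 < 3 ^ (w P A e) := by positivity
        omega
      subst hQ
      refine ⟨∅, Finset.empty_subset _, fun a b _ => ?_⟩
      simp [dg]
    | succ n ih =>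
      intro Q hn hE hev
      by_cases hQ : Q = ∅
      · subst hQ
        refine ⟨∅, Finset.empty_subset _, fun a b _ => ?_⟩
        simp [dg]
      -- edges
      have hEA : ∀ a b, a ≠ b → ({a, b} : Finset F059.Pt) ∈ Q → s(a, b) ∈ A := by
        intro a b hab hmem
        obtain ⟨a', b', hab', he, hd⟩ := hE _ hmem
        have hd' : dg (TT P A o1 o2 o3) a b ≠ 0 := by
          rcases pair_eq he with ⟨rfl, rfl⟩ | ⟨rfl, rfl⟩
          · exact hd
          · intro h0
            apply hd
            unfold dg at h0 ⊢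
            rw [← h0]
            congr 1
            apply Finset.filter_congr
            intro t _
            exact and_comm
        unfold dg at hd'
        obtain ⟨t, ht⟩ := Finset.card_ne_zero.1 hd'
        obtain ⟨ht1, ht2, ht3⟩ := Finset.mem_filter.1 ht
        exact h.edge_of_mem ht1 hab ht2 ht3
      have hAP : ∀ a b, s(a, b) ∈ A → a ∈ P ∧ b ∈ P ∧ a ≠ b := fun a b hab =>
        mem_Seg.1 (h.tri.1 hab)
      -- smallest vertex
      have hV : (Q.biUnion id).Nonempty := by
        obtain ⟨e, he⟩ := Finset.nonempty_iff_ne_empty.2 hQ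
        obtain ⟨a, b, hab, rfl, -⟩ := hE e he
        exact ⟨a, Finset.mem_biUnion.2 ⟨_, he, by simp⟩⟩
      obtain ⟨p, hpV, hpmin⟩ := exists_lx_min _ hV
      obtain ⟨e0, he0, hpe0⟩ := Finset.mem_biUnion.1 hpV
      have hother : ∀ e ∈ Q, p ∈ e → ∃ q, q ≠ p ∧ e = {p, q} := by
        intro e he hpe
        obtain ⟨a, b, hab, rfl, -⟩ := hE e he
        rcases Finset.mem_insert.1 hpe with rfl | hb
        · exact ⟨b, hab.symm, rfl⟩
        · rw [Finset.mem_singleton] at hb
          subst hb
          exact ⟨a, hab, Finset.pair_comm _ _⟩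
      obtain ⟨q0, hq0, he0q⟩ := hother e0 he0 hpe0
      set H : Finset F059.Pt := P.filter (fun q => q ≠ p ∧ ({p, q} : Finset F059.Pt) ∈ Q) with hH
      have hpP : p ∈ P := (hAP p q0 (hEA p q0 hq0.symm (he0q ▸ he0))).1
      have hHmem : ∀ q, q ≠ p → ({p, q} : Finset F059.Pt) ∈ Q → q ∈ H := by
        intro q hqp hq
        exact Finset.mem_filter.2 ⟨(hAP p q (hEA p q hqp.symm hq)).2.1, hqp, hq⟩
      have hHne : H.Nonempty := ⟨q0, hHmem q0 hq0 (he0q ▸ he0)⟩
      have hHlx : ∀ z ∈ H, Lxx p z := by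
        intro z hz
        obtain ⟨-, hzp, hzQ⟩ := Finset.mem_filter.1 hz
        refine hpmin z ?_ hzp
        exact Finset.mem_biUnion.2 ⟨_, hzQ, by simp⟩
      obtain ⟨q, hqH, hqfirst⟩ := first_lx h.gp hpP (Finset.filter_subset _ _) hHne hHlx
      obtain ⟨hqP, hqp, hqQ⟩ := Finset.mem_filter.1 hqH
      have hpqA : s(p, q) ∈ A := hEA p q hqp.symm hqQ
      -- another one
      obtain ⟨r, hrH, hrq⟩ : ∃ r ∈ H, r ≠ q := by
        have hev' := hev p
        unfold vd at hev'
        have hmemq : ({p, q} : Finset F059.Pt) ∈ Q.filter (fun e => p ∈ e) :=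
          Finset.mem_filter.2 ⟨hqQ, by simp⟩
        have hcard : 1 < (Q.filter (fun e => p ∈ e)).card := by
          have hpos : 0 < (Q.filter (fun e => p ∈ e)).card := Finset.card_pos.2 ⟨_, hmemq⟩
          obtain ⟨k, hk⟩ := hev'
          omega
        obtain ⟨e', he', hne'⟩ := Finset.exists_mem_ne hcard ({p, q} : Finset F059.Pt)
        obtain ⟨he'Q, hpe'⟩ := Finset.mem_filter.1 he'
        obtain ⟨r, hrp, rfl⟩ := hother e' he'Q hpe'
        refine ⟨r, hHmem r hrp he'Q, ?_⟩
        rintro rfl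
        exact hne' rfl
      obtain ⟨hrP, hrp, hrQ⟩ := Finset.mem_filter.1 hrH
      have hori : 0 < ori p q r := hqfirst r hrH hrq
      have hprA : s(p, r) ∈ A := hEA p r hrp.symm hrQ
      obtain ⟨c, hET, hc⟩ := local_left h.gp h.tri hpqA hrP hori
      have hcpq := hAP c p hET.ca
      have hqcA := hAP q c hET.bc
      have hcp : c ≠ p := hcpq.2.2
      have hqc : q ≠ c := hqcA.2.2
      have hLpq : Lxx p q := hHlx q hqH
      have hLpr : Lxx p r := hHlx r hrH
      have hLpc : Lxx p c := by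
        by_cases hcr : r = c
        · exact hcr ▸ hLpr
        · have h3 : 0 < ori p c r := no_between h.gp h.tri hET hc hprA hori hcr
          exact claim_lx hLpq hLpr hcp hori hc h3
      have hpcA : s(p, c) ∈ A := by rw [Sym2.eq_swap]; exact hET.ca
      set D : Finset (Finset F059.Pt) := {{p, q}, {p, c}, {q, c}} with hD
      set t : Finset F059.Pt := {p, q, c} with ht
      have htT : t ∈ TT P A o1 o2 o3 := h.mem_of_ET hET
      have hDmem : ∀ a b, a ≠ b → (({a, b} : Finset F059.Pt) ∈ D ↔ (a ∈ t ∧ b ∈ t)) :=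
        fun a b hab => mem_D hab hqp.symm hcp.symm hqc
      -- measures
      have w1 : w P A {p, c} < w P A {p, q} := by
        refine w_lt hLpq hLpc ?_ (Or.inr ⟨rfl, hc⟩)
        exact mem_OA hpP hET.hc hLpc hpcA
      have w2 : w P A {q, c} < w P A {p, q} := by
        rcases Lxx.total hqc with hl | hl
        · refine w_lt hLpq hl ?_ (Or.inl hLpq)
          exact mem_OA hqP hET.hc hl hET.bc
        · rw [Finset.pair_comm q c]
          refine w_lt hLpq hl ?_ (Or.inl hLpc)
          refine mem_OA hET.hc hqP hl ?_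
          rw [Sym2.eq_swap]; exact hET.bc
      have hQ'n : ∑ e ∈ symmDiff Q D, 3 ^ (w P A e) ≤ n := by
        have hsub : symmDiff Q D ⊆ (Q.erase {p, q}) ∪ {{p, c}, {q, c}} := by
          intro e he
          rcases Finset.mem_symmDiff.1 he with ⟨h1, h2⟩ | ⟨h1, h2⟩
          · refine Finset.mem_union_left _ (Finset.mem_erase.2 ⟨?_, h1⟩)
            rintro rfl
            exact h2 (by rw [hD]; simp)
          · rw [hD] at h1
            rcases Finset.mem_insert.1 h1 with rfl | h3
            · exact (h2 hqQ).elim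
            · exact Finset.mem_union_right _ h3
        have s1 : ∑ e ∈ symmDiff Q D, 3 ^ (w P A e) ≤
            ∑ e ∈ (Q.erase {p, q}) ∪ {{p, c}, {q, c}}, 3 ^ (w P A e) :=
          Finset.sum_le_sum_of_subset hsub
        have s2 : ∑ e ∈ (Q.erase {p, q}) ∪ {{p, c}, {q, c}}, 3 ^ (w P A e) ≤
            ∑ e ∈ Q.erase {p, q}, 3 ^ (w P A e) +
              ∑ e ∈ ({{p, c}, {q, c}} : Finset (Finset F059.Pt)), 3 ^ (w P A e) := by
          have := Finset.sum_union_inter (s₁ := Q.erase {p, q})
            (s₂ := ({{p, c}, {q, c}} : Finset (Finset F059.Pt))) (f := fun e => 3 ^ (w P A e))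
          omega
        have s3 : ∑ e ∈ ({{p, c}, {q, c}} : Finset (Finset F059.Pt)), 3 ^ (w P A e) ≤
            3 ^ (w P A {p, c}) + 3 ^ (w P A {q, c}) := by
          rw [Finset.sum_pair]
          intro hh
          rcases pair_eq hh with ⟨h1, -⟩ | ⟨h1, -⟩
          · exact hqp h1.symm
          · exact hcp h1.symm
        have s4 : ∑ e ∈ Q.erase {p, q}, 3 ^ (w P A e) + 3 ^ (w P A {p, q}) =
            ∑ e ∈ Q, 3 ^ (w P A e) := Finset.sum_erase_add _ _ hqQ
        have s5 : 3 ^ (w P A {p, c}) * 3 ≤ 3 ^ (w P A {p, q}) := by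
          rw [← pow_succ]
          exact Nat.pow_le_pow_right (by norm_num) w1
        have s6 : 3 ^ (w P A {q, c}) * 3 ≤ 3 ^ (w P A {p, q}) := by
          rw [← pow_succ]
          exact Nat.pow_le_pow_right (by norm_num) w2
        have s7 : 0 < 3 ^ (w P A {p, q}) := by positivity
        omega
      obtain ⟨X', hX'T, hX'⟩ := ih (symmDiff Q D) hQ'n (by
        intro e he
        rcases Finset.mem_symmDiff.1 he with ⟨h1, h2⟩ | ⟨h1, h2⟩
        · exact hE e h1
        · rw [hD] at h1
          simp only [Finset.mem_insert, Finset.mem_singleton] at h1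
          have key : ∀ a b, a ≠ b → a ∈ t → b ∈ t → dg (TT P A o1 o2 o3) a b ≠ 0 := by
            intro a b hab ha hb
            unfold dg
            exact Finset.card_ne_zero.2 ⟨t, Finset.mem_filter.2 ⟨htT, ha, hb⟩⟩
          rcases h1 with rfl | rfl | rfl
          · exact ⟨p, q, hqp.symm, rfl, key p q hqp.symm (by simp [ht]) (by simp [ht])⟩
          · exact ⟨p, c, hcp.symm, rfl, key p c hcp.symm (by simp [ht]) (by simp [ht])⟩
          · exact ⟨q, c, hqc, rfl, key q c hqc (by simp [ht]) (by simp [ht])⟩) (by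
        intro v
        unfold vd
        have h1 : (symmDiff Q D).filter (fun e => v ∈ e) =
            symmDiff (Q.filter (fun e => v ∈ e)) (D.filter (fun e => v ∈ e)) := by
          ext e
          simp only [Finset.mem_filter, Finset.mem_symmDiff]
          tauto
        rw [h1, even_card_symmDiff]
        have h2 := hev v
        have h3 := vd_D (p := p) (q := q) (c := c) hqp.symm hcp.symm hqc v
        unfold vd at h2 h3
        exact ⟨fun _ => h3, fun _ => h2⟩)
      refine ⟨symmDiff X' {t}, ?_, ?_⟩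
      · intro x hx
        rcases Finset.mem_symmDiff.1 hx with ⟨h1, -⟩ | ⟨h1, -⟩
        · exact hX'T h1
        · rw [Finset.mem_singleton] at h1
          exact h1 ▸ htT
      · intro a b hab
        have h1 : (symmDiff X' {t}).filter (fun e => a ∈ e ∧ b ∈ e) =
            symmDiff (X'.filter (fun e => a ∈ e ∧ b ∈ e))
              (({t} : Finset (Finset F059.Pt)).filter (fun e => a ∈ e ∧ b ∈ e)) := by
          ext e
          simp only [Finset.mem_filter, Finset.mem_symmDiff]
          tauto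
        have h2 := hX' a b hab
        rw [Finset.mem_symmDiff, hDmem a b hab] at h2
        unfold dg at h2 ⊢
        rw [h1, ← Nat.not_even_iff_odd, even_card_symmDiff]
        rw [← Nat.not_even_iff_odd] at h2
        by_cases hab' : a ∈ t ∧ b ∈ t
        · rw [Finset.filter_singleton, if_pos hab', Finset.card_singleton]
          have h3 : ¬ Even 1 := by decide
          tauto
        · rw [Finset.filter_singleton, if_neg hab', Finset.card_empty]
          have h3 : Even 0 := by decide
          tauto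
  intro Q hE hev
  exact main _ Q le_rfl hE hev

end UPN
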