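import Pool.Agent.Lib.UPN.GVert
import Pool.Agent.Lib.UPN.GConn
import Pool.Agent.Lib.UPN.GHom

/-!
# UPN.GSph: the sphere of a geometric triangulation
-/

set_option autoImplicit false

namespace UPN

open F059

variable {P : Finset F059.Pt} {A : Finset (Sym2 F059.Pt)} {o1 o2 o3 : F059.Pt}

theorem Cfg.sph (h : Cfg P A o1 o2 o3) : Sph (TT P A o1 o2 o3) where
  card3 := h.card3
  two := h.two
  vert := h.vert
  conn := h.conn
  hom := h.hom

end UPN
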