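import Pool.Agent.Lib.UPN.GDefs

/-!
# UPN.Outer (2 h): an outer triangle in general position

Let `S` be a finite set of points in general position, `|x|, |y| ≤ r` for its points.  Choose three points near
`(-10r-10, -10r-10)`, `(10r+10, -10r-10)`, `(0, 10r+10)` (in open discs of radius 1, say) one after the
other, each one not on a line through two of the points chosen before (finitely many lines; an open disc is not
covered by finitely many lines).  All points of `S` are in the triangle: `0 ≤ ori o1 o2 p` etc.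
-/

set_option autoImplicit false

namespace UPN

open F059

namespace OuterAux

theorem quad_finite {α β γ : ℝ} (h : α ≠ 0 ∨ β ≠ 0) :
    {t : ℝ | α * t ^ 2 + β * t + γ = 0}.Finite := by
  rcases Set.eq_empty_or_nonempty {t : ℝ | α * t ^ 2 + β * t + γ = 0} with he | ⟨t0, ht0⟩
  · rw [he]
    exact Set.finite_empty
  · apply Set.Finite.subset (s := {t0, -β / α - t0, -γ / β})
    · exact Set.toFinite _
    · intro t ht
      simp only [Set.mem_setOf_eq] at ht ht0
      simp only [Set.mem_insert_iff, Set.mem_singleton_iff]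
      by_cases hα : α = 0
      · have hβ : β ≠ 0 := h.resolve_left (not_not.mpr hα)
        right
        right
        rw [eq_div_iff hβ]
        rw [hα] at ht
        linarith
      · have h1 : (t - t0) * (α * (t + t0) + β) = 0 := by linear_combination ht - ht0
        rcases mul_eq_zero.mp h1 with h2 | h2
        · left
          linarith
        · right
          left
          rw [eq_sub_iff_add_eq, eq_div_iff hα]
          linarith

/-- a point near `(a, b)` in general position with respect to `T` -/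
theorem off_lines (T : Finset F059.Pt) (a b : ℝ) :
    ∃ o : F059.Pt, |o.1 - a| ≤ 1 ∧ |o.2 - b| ≤ 1 ∧ o ∉ T ∧
      ∀ p ∈ T, ∀ q ∈ T, p ≠ q → ori p q o ≠ 0 := by
  classical
  have hfin : (⋃ p ∈ T, ⋃ q ∈ T, {t : ℝ | (p ≠ q ∧ ori p q (a + t, b + t ^ 2) = 0) ∨
      (a + t, b + t ^ 2) = p}).Finite := by
    apply Set.Finite.biUnion (Finset.finite_toSet T)
    intro p _
    apply Set.Finite.biUnion (Finset.finite_toSet T)
    intro q _
    apply Set.Finite.union (s := {t : ℝ | p ≠ q ∧ ori p q (a + t, b + t ^ 2) = 0})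
      (t := {t : ℝ | (a + t, b + t ^ 2) = p})
    · by_cases hpq : p = q
      · apply Set.Finite.subset Set.finite_empty
        rintro t ⟨h1, _⟩
        exact absurd hpq h1
      · apply Set.Finite.subset (quad_finite (α := q.1 - p.1) (β := -(q.2 - p.2))
          (γ := (q.1 - p.1) * (b - p.2) - (q.2 - p.2) * (a - p.1)) ?_)
        · rintro t ⟨_, h2⟩
          simp only [Set.mem_setOf_eq]
          unfold ori at h2
          simp only at h2
          linear_combination h2
        · by_contra hcon
          push Not at hcon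
          apply hpq
          apply Prod.ext
          · linarith [hcon.1]
          · linarith [hcon.2]
    · apply Set.Finite.subset (Set.finite_singleton (p.1 - a))
      intro t ht
      have h1 : a + t = p.1 := congrArg Prod.fst ht
      rw [Set.mem_singleton_iff]
      linarith
  obtain ⟨t, ht, hbad⟩ := ((Set.Ioo_infinite (show (0 : ℝ) < 1 by norm_num)).diff hfin).nonempty
  simp only [Set.mem_iUnion, not_exists] at hbad
  obtain ⟨ht0, ht1⟩ := ht
  refine ⟨(a + t, b + t ^ 2), ?_, ?_, ?_, ?_⟩
  · simp only [add_sub_cancel_left]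
    rw [abs_of_pos ht0]
    exact ht1.le
  · simp only [add_sub_cancel_left]
    rw [abs_of_nonneg (by positivity)]
    nlinarith
  · intro h
    exact hbad _ h _ h (Or.inr rfl)
  · intro p hp q hq hpq h
    exact hbad p hp q hq (Or.inl ⟨hpq, h⟩)

theorem ori_rot (p q r : F059.Pt) : ori p q r = ori q r p := by
  unfold ori
  ring

theorem ori_swap (p q r : F059.Pt) : ori p q r = - ori q p r := by
  unfold ori
  ring

theorem genPos_insert {T : Finset F059.Pt} (hT : GenPos T) {o : F059.Pt}
    (h : ∀ p ∈ T, ∀ q ∈ T, p ≠ q → ori p q o ≠ 0) : GenPos (insert o T) := by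
  intro p hp q hq r hr hpq hpr hqr
  rw [Finset.mem_insert] at hp hq hr
  rcases hp with rfl | hp
  · rcases hq with rfl | hq
    · exact absurd rfl hpq
    rcases hr with rfl | hr
    · exact absurd rfl hpr
    rw [ori_rot]
    exact h q hq r hr hqr
  · rcases hq with rfl | hq
    · rcases hr with rfl | hr
      · exact absurd rfl hqr
      rw [ori_rot, ori_rot]
      exact h r hr p hp hpr.symm
    · rcases hr with rfl | hr
      · exact h p hp q hq hpq
      · exact hT p hp q hq r hr hpq hpr hqr

theorem prod_le {x y X Y : ℝ} (hx : |x| ≤ X) (hy : |y| ≤ Y) : x * y ≤ X * Y :=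
  (le_abs_self _).trans (by
    rw [abs_mul]
    exact mul_le_mul hx hy (abs_nonneg _) ((abs_nonneg _).trans hx))

theorem exists_bound (S : Finset F059.Pt) :
    ∃ r : ℝ, 0 ≤ r ∧ ∀ p ∈ S, |p.1| ≤ r ∧ |p.2| ≤ r := by
  refine ⟨∑ p ∈ S, (|p.1| + |p.2|), Finset.sum_nonneg (fun p _ => by positivity), ?_⟩
  intro p hp
  have h1 := Finset.single_le_sum (f := fun p : F059.Pt => |p.1| + |p.2|)
    (fun p _ => by positivity) hp
  constructor
  · linarith [abs_nonneg p.2]
  · linarith [abs_nonneg p.1]

end OuterAux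

open OuterAux

theorem exists_outer (S : Finset F059.Pt) (hS : GenPos S) :
    ∃ o1 o2 o3 : F059.Pt, o1 ∉ S ∧ o2 ∉ S ∧ o3 ∉ S ∧ 0 < ori o1 o2 o3 ∧
      GenPos (insert o1 (insert o2 (insert o3 S))) ∧ ∀ p ∈ S, InT o1 o2 o3 p := by
  obtain ⟨r, hr0, hr⟩ := exists_bound S
  obtain ⟨o3, h31, h32, h3S, h3⟩ := off_lines S 0 (10 * r + 10)
  obtain ⟨o2, h21, h22, h2S, h2⟩ := off_lines (insert o3 S) (10 * r + 10) (-(10 * r + 10))
  obtain ⟨o1, h11, h12, h1S, h1⟩ := off_lines (insert o2 (insert o3 S)) (-(10 * r + 10))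
    (-(10 * r + 10))
  have g3 := genPos_insert hS h3
  have g2 := genPos_insert g3 h2
  have g1 := genPos_insert g2 h1
  have h2S' : o2 ∉ S := fun h => h2S (Finset.mem_insert_of_mem h)
  have h1S' : o1 ∉ S := fun h => h1S (Finset.mem_insert_of_mem (Finset.mem_insert_of_mem h))
  obtain ⟨a31, b31⟩ := abs_le.mp h31
  obtain ⟨a32, b32⟩ := abs_le.mp h32
  obtain ⟨a21, b21⟩ := abs_le.mp h21
  obtain ⟨a22, b22⟩ := abs_le.mp h22
  obtain ⟨a11, b11⟩ := abs_le.mp h11
  obtain ⟨a12, b12⟩ := abs_le.mp h12
  refine ⟨o1, o2, o3, h1S', h2S', h3S, ?_, g1, ?_⟩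
  · have e1 : (20 * r + 18) * (20 * r + 18) ≤ (o2.1 - o1.1) * (o3.2 - o1.2) :=
      mul_le_mul (by linarith) (by linarith) (by linarith) (by linarith)
    have e2 : (o2.2 - o1.2) * (o3.1 - o1.1) ≤ 2 * (10 * r + 12) :=
      prod_le (abs_le.mpr ⟨by linarith, by linarith⟩) (abs_le.mpr ⟨by linarith, by linarith⟩)
    unfold ori
    nlinarith
  · intro p hp
    obtain ⟨hp1, hp2⟩ := hr p hp
    obtain ⟨c1, d1⟩ := abs_le.mp hp1
    obtain ⟨c2, d2⟩ := abs_le.mp hp2
    left
    refine ⟨?_, ?_, ?_⟩
    · have e1 : (20 * r + 18) * (9 * r + 9) ≤ (o2.1 - o1.1) * (p.2 - o1.2) :=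
        mul_le_mul (by linarith) (by linarith) (by linarith) (by linarith)
      have e2 : (o2.2 - o1.2) * (p.1 - o1.1) ≤ 2 * (11 * r + 11) :=
        prod_le (abs_le.mpr ⟨by linarith, by linarith⟩) (abs_le.mpr ⟨by linarith, by linarith⟩)
      unfold ori
      nlinarith
    · have e1 : (20 * r + 18) * (9 * r + 9) ≤ (o3.2 - o2.2) * (o2.1 - p.1) :=
        mul_le_mul (by linarith) (by linarith) (by linarith) (by linarith)
      have e2 : (o2.1 - o3.1) * (p.2 - o2.2) ≤ (10 * r + 12) * (11 * r + 11) :=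
        prod_le (abs_le.mpr ⟨by linarith, by linarith⟩) (abs_le.mpr ⟨by linarith, by linarith⟩)
      unfold ori
      nlinarith
    · have e1 : (10 * r + 8) * (9 * r + 9) ≤ (o3.1 - o1.1) * (o3.2 - p.2) :=
        mul_le_mul (by linarith) (by linarith) (by linarith) (by linarith)
      have e2 : (o1.2 - o3.2) * (p.1 - o3.1) ≤ (20 * r + 22) * (r + 1) :=
        prod_le (abs_le.mpr ⟨by linarith, by linarith⟩) (abs_le.mpr ⟨by linarith, by linarith⟩)
      unfold ori
      nlinarith

end UPN
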