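import Pool.Agent.Lib.UPN.DiscB

/-!
# UPN.Cut (3 h): cutting a disc along a chord

`L = c1 :: c2 :: (B ++ cj :: S)`, `B ≠ []`, chord `c2 cj`: `dg X c2 cj ≠ 0`; it is not in `cy L` (nodup,
`B ≠ []`), so `dg X c2 cj = 2`.  `L1 = c1 :: c2 :: cj :: S`, `L2 = c2 :: (B ++ [cj])`.
`cy L = s(c1,c2) :: es L2 ++ es (cj :: S ++ [c1])`, `cy L1 ~ s(c1,c2), s(c2,cj), es (cj :: S ++ [c1])`,
`cy L2 ~ es L2, s(cj,c2)`; these three parts and `{s(c2,cj)}` are disjoint (nodup).

* `Q` = the finset of the pairs `{a, b}` with `s(a, b) ∈ cy L2` (e.g. the image of `(cy L2).toFinset` under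
  `Sym2.toFinset`).  All of them are edges of `T` (`dg X a b = 1` or `= 2`), and every vertex is in 0 or 2
  of them (`cy_at` after rotating; length of `L2` at least 3).  `Sph.hom` gives `X2 ⊆ T` with
  `Odd (dg X2 a b) ↔ {a, b} ∈ Q`, so `dg X2 a b = 1 ↔ s(a,b) ∈ cy L2`.  If `o ∈ X2` replace `X2` by
  `T \ X2` (`dg (T \ X2) = dg T - dg X2`; `dg T` is 2 for these pairs and 0 or 2 for all).
* **`X2 ⊆ X`.**  `Z = X2 \ X`.  For a pair `a ≠ b` let `t, t'` be the triangles of `T` at it (if any).
  If `s(a,b) ∉ cy L` then `dg Z a b ≠ 1`: `dg X a b ∈ {0, 2}`; if it is 2 then both `t, t' ∈ X`, `dg Z = 0`;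
  if it is 0 then `s(a,b) ≠ s(c2,cj)`, so `dg X2 a b ≠ 1`, `dg Z a b = dg X2 a b`.
  At every vertex `v` the number of `w` with `dg Z v w = 1` is even (`∑_w dg Z v w = 2 #{t ∈ Z | v ∈ t}`).
  So if one pair of `cy L` at a vertex of `L` has `dg Z = 1` then so has the other, and going around:
  either `dg Z a b ≠ 1` for all pairs, or `dg Z a b = 1` for all pairs in `cy L`.  (Induction along the list
  from the pair `c1 c2`.)
  In the first case `closed`: `Z = ∅` or `Z = T`, `o ∉ Z`, so `Z = ∅`.  In the second case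
  `dg (Z ∪ X) a b = dg Z a b + dg X a b` is never 1 (it is 2 on `cy L`; off `cy L` both are 0 or 2,
  and at most 2 together), `closed`: `Z ∪ X = ∅`, impossible (`X` nonempty), or `= T ∋ o`, impossible.
* `X1 = X \ X2`: `dg X1 = dg X - dg X2`, so `dg X1 a b = 1` iff exactly one of `dg X a b`, `dg X2 a b` is 1
  iff `s(a,b)` is in exactly one of `cy L`, `cy L2` iff `s(a,b) ∈ cy L1`.
* Common vertices: let `z ∈ vs X1`, `z ∈ vs X2`.  If `z ∉ L2`, then no `dg X2 z w = 1`, `closed_at`: all
  triangles of `T` at `z` are in `X2` (there is one), so none is in `X1`, contradiction.  Similarly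
  `z ∈ L1`.  So `z ∈ L1`, `z ∈ L2` : `z = c2` or `z = cj` by nodup.
-/

set_option autoImplicit false

namespace UPN

namespace CutAux

section lists

variable {V : Type}

theorem cy_swap (P : List V) : ∀ (Q : List V) (e : Sym2 V), e ∈ cy (P ++ Q) ↔ e ∈ cy (Q ++ P) := by
  induction P with
  | nil => intro Q e; simp
  | cons a P ih =>
    intro Q e
    rw [List.cons_append, cy_rot, List.append_assoc, ih (Q ++ [a])]
    simp

/-- a vertex of the polygon has exactly two neighbours -/
theorem cy_two {L : List V} (hL : L.Nodup) (h3 : 3 ≤ L.length) {v : V} (hv : v ∈ L) :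
    ∃ a b, a ≠ b ∧ a ≠ v ∧ b ≠ v ∧ ∀ w, s(v, w) ∈ cy L ↔ w = a ∨ w = b := by
  obtain ⟨P, Q, rfl⟩ := List.append_of_mem hv
  have h1 : (v :: (Q ++ P)).Nodup := by
    have : (v :: (Q ++ P)).Perm (P ++ v :: Q) := by
      have e1 : v :: (Q ++ P) = (v :: Q) ++ P := by simp
      rw [e1]
      exact List.perm_append_comm
    exact this.nodup_iff.2 hL
  have hlen : 2 ≤ (Q ++ P).length := by
    simp only [List.length_append, List.length_cons] at h3 ⊢
    omega
  have hne : Q ++ P ≠ [] := by
    intro h; rw [h] at hlen; simp at hlen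
  obtain ⟨M, a, hM⟩ : ∃ M a, Q ++ P = M ++ [a] :=
    ⟨_, _, (List.dropLast_append_getLast hne).symm⟩
  obtain ⟨b, S, hb⟩ : ∃ b S, M = b :: S := by
    cases M with
    | nil => rw [hM] at hlen; simp at hlen
    | cons b S => exact ⟨b, S, rfl⟩
  subst hb
  have hnd : (a :: v :: b :: S).Nodup := by
    rw [hM] at h1
    have : (a :: v :: b :: S).Perm (v :: (b :: S ++ [a])) := by
      have e1 : a :: v :: b :: S = [a] ++ (v :: b :: S) := rfl
      have e2 : v :: (b :: S ++ [a]) = (v :: b :: S) ++ [a] := by simp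
      rw [e1, e2]
      exact List.perm_append_comm
    exact this.nodup_iff.2 h1
  refine ⟨a, b, ?_, ?_, ?_, ?_⟩
  · rintro rfl
    simp at hnd
  · rintro rfl
    simp at hnd
  · rintro rfl
    simp at hnd
  · intro w
    rw [← cy_at hnd w, cy_swap, List.cons_append, hM, cy_rot a]
    have e2 : v :: (b :: S ++ [a]) = (v :: b :: S) ++ [a] := by simp
    rw [e2]

/-- a property of pairs which is the same for consecutive pairs is constant along a path -/
theorem path_const (φ : V → V → Prop) (hs : ∀ a b, φ a b → φ b a) : ∀ l : List V,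
    (∀ A a v b B, l = A ++ a :: v :: b :: B → (φ a v ↔ φ v b)) →
    (∀ a b, s(a, b) ∈ es l → φ a b) ∨ (∀ a b, s(a, b) ∈ es l → ¬ φ a b) := by
  intro l
  induction l with
  | nil => intro _; left; intro a b h; simp [es] at h
  | cons x l ih =>
    intro h
    cases l with
    | nil => left; intro a b h'; simp [es] at h'
    | cons y l =>
      have h1 := ih (fun A a v b B hA => h (x :: A) a v b B (by rw [hA]; rfl))
      have key : ∀ a b, s(a, b) ∈ es (x :: y :: l) → s(a, b) = s(x, y) ∨ s(a, b) ∈ es (y :: l) := by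
        intro a b hab
        simpa [es] using hab
      cases l with
      | nil =>
        by_cases hxy : φ x y
        · left
          intro a b hab
          rcases key a b hab with h2 | h2
          · rw [Sym2.eq_iff] at h2
            rcases h2 with ⟨rfl, rfl⟩ | ⟨rfl, rfl⟩
            · exact hxy
            · exact hs _ _ hxy
          · simp [es] at h2
        · right
          intro a b hab
          rcases key a b hab with h2 | h2
          · rw [Sym2.eq_iff] at h2
            rcases h2 with ⟨rfl, rfl⟩ | ⟨rfl, rfl⟩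
            · exact hxy
            · exact fun h' => hxy (hs _ _ h')
          · simp [es] at h2
      | cons z l =>
        have h2 := h [] x y z l rfl
        have hyz : s(y, z) ∈ es (y :: z :: l) := by simp [es]
        rcases h1 with h1 | h1
        · left
          intro a b hab
          rcases key a b hab with h3 | h3
          · have hxy : φ x y := h2.2 (h1 y z hyz)
            rw [Sym2.eq_iff] at h3
            rcases h3 with ⟨rfl, rfl⟩ | ⟨rfl, rfl⟩
            · exact hxy
            · exact hs _ _ hxy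
          · exact h1 a b h3
        · right
          intro a b hab
          rcases key a b hab with h3 | h3
          · have hxy : ¬ φ x y := fun h' => h1 y z hyz (h2.1 h')
            rw [Sym2.eq_iff] at h3
            rcases h3 with ⟨rfl, rfl⟩ | ⟨rfl, rfl⟩
            · exact hxy
            · exact fun h' => hxy (hs _ _ h')
          · exact h1 a b h3

theorem mem_es_mid {l : List V} : ∀ {A : List V} {a b : V} {B : List V}, l = A ++ a :: b :: B →
    s(a, b) ∈ es l := by
  intro A
  induction A generalizing l with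
  | nil => rintro a b B rfl; simp [es]
  | cons x A ih =>
    rintro a b B rfl
    have h1 : s(a, b) ∈ es (A ++ a :: b :: B) := ih rfl
    cases A with
    | nil => simp [es]
    | cons y A =>
      simp only [List.cons_append, es, List.mem_cons] at h1 ⊢
      right
      exact h1

end lists

variable {V : Type} [DecidableEq V] {T X : Finset (Finset V)} {o : Finset V}

theorem dg_union {Y Z : Finset (Finset V)} (h : Disjoint Y Z) (a b : V) :
    dg (Y ∪ Z) a b = dg Y a b + dg Z a b := by
  unfold dg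
  rw [Finset.filter_union, Finset.card_union_of_disjoint]
  exact Finset.disjoint_filter_filter h

theorem dg_sdiff {Y Z : Finset (Finset V)} (h : Z ⊆ Y) (a b : V) :
    dg (Y \ Z) a b + dg Z a b = dg Y a b := by
  rw [← dg_union Finset.sdiff_disjoint, Finset.sdiff_union_of_subset h]

/-- all triangles at an edge of degree 2 -/
theorem all_of_two (hT : Sph T) (hX : X ⊆ T) {a b : V} (hab : a ≠ b) (h : dg X a b = 2)
    {t : Finset V} (ht : t ∈ T) (ha : a ∈ t) (hb : b ∈ t) : t ∈ X := by
  have h1 : X.filter (fun t => a ∈ t ∧ b ∈ t) ⊆ T.filter (fun t => a ∈ t ∧ b ∈ t) :=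
    Finset.filter_subset_filter _ hX
  have h2 := hT.two a b hab
  have h3 : dg X a b ≤ dg T a b := dg_mono hX a b
  have h4 : (T.filter (fun t => a ∈ t ∧ b ∈ t)).card ≤ (X.filter (fun t => a ∈ t ∧ b ∈ t)).card := by
    unfold dg at h h2 h3
    omega
  have h5 := Finset.eq_of_subset_of_card_le h1 h4
  have h6 : t ∈ T.filter (fun t => a ∈ t ∧ b ∈ t) := Finset.mem_filter.2 ⟨ht, ha, hb⟩
  rw [← h5] at h6
  exact (Finset.mem_filter.1 h6).1

/-- double counting at a vertex -/
theorem even_sum (hT : Sph T) {Z : Finset (Finset V)} (hZ : Z ⊆ T) (v : V) :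
    Even (∑ w ∈ (vs T).erase v, dg Z v w) := by
  have h1 : ∑ w ∈ (vs T).erase v, dg Z v w
      = ∑ t ∈ Z.filter (fun t => v ∈ t), (((vs T).erase v).filter (fun w => w ∈ t)).card := by
    have h2 : ∀ w ∈ (vs T).erase v, dg Z v w
        = ∑ t ∈ Z.filter (fun t => v ∈ t), if w ∈ t then 1 else 0 := by
      intro w _
      unfold dg
      rw [← Finset.card_filter, Finset.filter_filter]
    rw [Finset.sum_congr rfl h2, Finset.sum_comm]
    refine Finset.sum_congr rfl fun t _ => ?_
    rw [← Finset.card_filter]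
  rw [h1]
  refine Finset.even_sum _ fun t ht => ?_
  obtain ⟨ht1, ht2⟩ := Finset.mem_filter.1 ht
  have h3 : ((vs T).erase v).filter (fun w => w ∈ t) = t.erase v := by
    ext w
    rw [Finset.mem_filter, Finset.mem_erase, Finset.mem_erase]
    constructor
    · rintro ⟨⟨a1, _⟩, a2⟩; exact ⟨a1, a2⟩
    · rintro ⟨a1, a2⟩
      refine ⟨⟨a1, ?_⟩, a2⟩
      unfold vs
      exact Finset.mem_biUnion.2 ⟨t, hZ ht1, a2⟩
  rw [h3, Finset.card_erase_of_mem ht2, hT.card3 t (hZ ht1)]
  decide

theorem mem_vs_of_dg {a b : V} (h : dg X a b ≠ 0) : a ∈ vs X := by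
  obtain ⟨t, ht, h1, _⟩ := dg_ne_zero.1 h
  unfold vs
  exact Finset.mem_biUnion.2 ⟨t, ht, h1⟩

theorem pair_parity (hT : Sph T) {Z : Finset (Finset V)} (hZ : Z ⊆ T) {v a b : V} (hab : a ≠ b)
    (ha : a ≠ v) (hb : b ≠ v) (h : ∀ w, w ≠ v → w ≠ a → w ≠ b → dg Z v w ≠ 1)
    (h1 : dg Z v a = 1) : dg Z v b = 1 := by
  by_contra hb1
  have hmem : a ∈ (vs T).erase v := by
    refine Finset.mem_erase.2 ⟨ha, ?_⟩
    refine mem_vs_of_dg (b := v) ?_
    rw [dg_comm]
    have := dg_mono hZ v a
    omega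
  have h2 := even_sum hT hZ v
  rw [← Finset.add_sum_erase _ _ hmem, h1] at h2
  have h3 : Even (∑ w ∈ ((vs T).erase v).erase a, dg Z v w) := by
    refine Finset.even_sum _ fun w hw => ?_
    obtain ⟨w1, w2⟩ := Finset.mem_erase.1 hw
    obtain ⟨w3, _⟩ := Finset.mem_erase.1 w2
    have h4 : dg Z v w ≠ 1 := by
      by_cases hwb : w = b
      · rw [hwb]; exact hb1
      · exact h w w3 w1 hwb
    have h5 : dg Z v w ≤ 2 := dg_le_two hT hZ (Ne.symm w3)
    have h6 : dg Z v w = 0 ∨ dg Z v w = 2 := by omega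
    rcases h6 with h6 | h6 <;> rw [h6]
    · exact ⟨0, rfl⟩
    · exact ⟨1, rfl⟩
  rw [Nat.even_add] at h2
  have := h2.2 h3
  exact absurd this (by decide)

/-- the set of triangles on one side of a closed polygon -/
theorem exists_side (hT : Sph T) (ho : o ∈ T) {L : List V} (hL : L.Nodup) (h3 : 3 ≤ L.length)
    (hed : ∀ a b, s(a, b) ∈ cy L → dg T a b ≠ 0) :
    ∃ X ⊆ T, o ∉ X ∧ ∀ a b, a ≠ b → (dg X a b = 1 ↔ s(a, b) ∈ cy L) := by
  classical
  set Q : Finset (Finset V) := (cy L).toFinset.image Sym2.toFinset with hQ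
  have hinj : ∀ z z' : Sym2 V, z.toFinset = z'.toFinset → z = z' := by
    intro z z' h
    refine Sym2.ext fun x => ?_
    rw [← Sym2.mem_toFinset, h, Sym2.mem_toFinset]
  have hQm : ∀ a b, {a, b} ∈ Q ↔ s(a, b) ∈ cy L := by
    intro a b
    rw [hQ, Finset.mem_image]
    constructor
    · rintro ⟨e, he, h⟩
      rw [← Sym2.toFinset_mk_eq] at h
      rw [← hinj _ _ h]
      exact List.mem_toFinset.1 he
    · intro h
      exact ⟨s(a, b), List.mem_toFinset.2 h, Sym2.toFinset_mk_eq⟩
  have hQe : ∀ e ∈ Q, ∃ a b, a ≠ b ∧ e = {a, b} ∧ dg T a b ≠ 0 := by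
    intro e he
    obtain ⟨z, hz, rfl⟩ := Finset.mem_image.1 he
    rw [List.mem_toFinset] at hz
    induction z using Sym2.ind with
    | _ a b => exact ⟨a, b, ne_of_cy hL (by omega) hz, Sym2.toFinset_mk_eq, hed a b hz⟩
  have hev : ∀ v, Even (vd Q v) := by
    intro v
    by_cases hv : v ∈ L
    · obtain ⟨a, b, hab, hav, hbv, hw⟩ := cy_two hL h3 hv
      have h1 : Q.filter (fun e => v ∈ e) = {{v, a}, {v, b}} := by
        ext e
        rw [Finset.mem_filter, Finset.mem_insert, Finset.mem_singleton]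
        constructor
        · rintro ⟨he, hve⟩
          obtain ⟨z, hz, rfl⟩ := Finset.mem_image.1 he
          rw [List.mem_toFinset] at hz
          rw [Sym2.mem_toFinset] at hve
          obtain ⟨w, rfl⟩ := hve
          rcases (hw w).1 hz with rfl | rfl
          · left; exact Sym2.toFinset_mk_eq
          · right; exact Sym2.toFinset_mk_eq
        · rintro (rfl | rfl)
          · exact ⟨(hQm v a).2 ((hw a).2 (Or.inl rfl)), by simp⟩
          · exact ⟨(hQm v b).2 ((hw b).2 (Or.inr rfl)), by simp⟩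
      unfold vd
      rw [h1, Finset.card_pair]
      · decide
      · intro h
        have : a ∈ ({v, b} : Finset V) := by rw [← h]; simp
        rw [Finset.mem_insert, Finset.mem_singleton] at this
        rcases this with h' | h'
        · exact hav h'
        · exact hab h'
    · have h1 : Q.filter (fun e => v ∈ e) = ∅ := by
        rw [Finset.filter_eq_empty_iff]
        intro e he hve
        obtain ⟨z, hz, rfl⟩ := Finset.mem_image.1 he
        rw [List.mem_toFinset] at hz
        rw [Sym2.mem_toFinset] at hve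
        obtain ⟨w, rfl⟩ := hve
        exact hv (mem_of_cy hz).1
      unfold vd
      rw [h1]
      simp
  obtain ⟨X, hX, hodd⟩ := hT.hom Q hQe hev
  have hX1 : ∀ a b, a ≠ b → (dg X a b = 1 ↔ s(a, b) ∈ cy L) := by
    intro a b hab
    rw [← hQm, ← hodd a b hab]
    have := dg_le_two hT hX hab
    constructor
    · intro h; rw [h]; decide
    · intro h
      rcases (by omega : dg X a b = 0 ∨ dg X a b = 1 ∨ dg X a b = 2) with h' | h' | h'
      · rw [h'] at h; exact absurd h (by decide)
      · exact h'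
      · rw [h'] at h; exact absurd h (by decide)
  by_cases hoX : o ∈ X
  · refine ⟨T \ X, Finset.sdiff_subset, fun h => (Finset.mem_sdiff.1 h).2 hoX, ?_⟩
    intro a b hab
    rw [← hX1 a b hab]
    have h1 := dg_sdiff hX a b
    have h2 := hT.two a b hab
    omega
  · exact ⟨X, hX, hoX, hX1⟩

/-- the side of a polygon inside a disc -/
theorem sub_of_side (hT : Sph T) (ho : o ∈ T) {L L2 : List V} (h : Bd T o X L)
    {X2 : Finset (Finset V)} (h2 : X2 ⊆ T) (ho2 : o ∉ X2)
    (hX2 : ∀ a b, a ≠ b → (dg X2 a b = 1 ↔ s(a, b) ∈ cy L2))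
    (hch : ∀ a b, a ≠ b → s(a, b) ∈ cy L2 → s(a, b) ∉ cy L → dg X a b = 2) : X2 ⊆ X := by
  have hZ : X2 \ X ⊆ T := Finset.sdiff_subset.trans h2
  have hoZ : o ∉ X2 \ X := fun h' => ho2 (Finset.mem_sdiff.1 h').1
  have hzero : ∀ a b, a ≠ b → dg X a b = 2 → dg (X2 \ X) a b = 0 := by
    intro a b hab hd
    by_contra hne
    obtain ⟨t, ht, h3, h4⟩ := dg_ne_zero.1 hne
    exact (Finset.mem_sdiff.1 ht).2 (all_of_two hT h.sub hab hd (hZ ht) h3 h4)
  have hsame : ∀ a b, dg X a b = 0 → dg (X2 \ X) a b = dg X2 a b := by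
    intro a b hd
    unfold dg
    congr 1
    ext t
    rw [Finset.mem_filter, Finset.mem_filter, Finset.mem_sdiff]
    constructor
    · rintro ⟨⟨h3, _⟩, h4⟩; exact ⟨h3, h4⟩
    · rintro ⟨h3, h4⟩
      refine ⟨⟨h3, fun h5 => ?_⟩, h4⟩
      exact absurd hd (dg_ne_zero.2 ⟨t, h5, h4⟩)
  have hoff : ∀ a b, a ≠ b → s(a, b) ∉ cy L → dg (X2 \ X) a b ≠ 1 := by
    intro a b hab hn
    have h3 : dg X a b ≠ 1 := fun h' => hn ((h.bd a b hab).1 h')
    have h4 := dg_le_two hT h.sub hab
    rcases (by omega : dg X a b = 0 ∨ dg X a b = 2) with h5 | h5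
    · rw [hsame a b h5]
      intro h6
      have := hch a b hab ((hX2 a b hab).1 h6) hn
      omega
    · rw [hzero a b hab h5]
      omega
  -- consecutive pairs
  have hcons : ∀ v a b, s(v, a) ∈ cy L → s(v, b) ∈ cy L → dg (X2 \ X) v a = 1 →
      dg (X2 \ X) v b = 1 := by
    intro v a b ha hb h1
    obtain ⟨a', b', hab', hav', hbv', hw⟩ := cy_two h.nodup h.len (mem_of_cy ha).1
    have hothers : ∀ w, w ≠ v → w ≠ a' → w ≠ b' → dg (X2 \ X) v w ≠ 1 := by
      intro w w1 w2 w3
      refine hoff v w (Ne.symm w1) ?_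
      rw [hw]
      rintro (h | h)
      · exact w2 h
      · exact w3 h
    rcases (hw a).1 ha with rfl | rfl <;> rcases (hw b).1 hb with rfl | rfl
    · exact h1
    · exact pair_parity hT hZ hab' hav' hbv' hothers h1
    · exact pair_parity hT hZ hab'.symm hbv' hav' (fun w w1 w2 w3 => hothers w w1 w3 w2) h1
    · exact h1
  have hall : (∀ a b, s(a, b) ∈ cy L → dg (X2 \ X) a b = 1) ∨
      (∀ a b, s(a, b) ∈ cy L → ¬ dg (X2 \ X) a b = 1) := by
    have hcyl : ∃ P : List V, cy L = es P := by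
      cases L with
      | nil => exact ⟨[], rfl⟩
      | cons a l => exact ⟨a :: (l ++ [a]), rfl⟩
    obtain ⟨P, hP⟩ := hcyl
    rw [hP]
    refine path_const (fun a b => dg (X2 \ X) a b = 1) (fun a b h' => by rw [dg_comm]; exact h') P ?_
    intro A a v b B hA
    have m1 : s(v, a) ∈ cy L := by
      rw [hP, Sym2.eq_swap]; exact mem_es_mid hA
    have m2 : s(v, b) ∈ cy L := by
      rw [hP]
      exact mem_es_mid (A := A ++ [a]) (B := B) (by rw [hA]; simp)
    constructor
    · intro h1
      exact hcons v a b m1 m2 (by rw [dg_comm]; exact h1)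
    · intro h1
      rw [dg_comm]
      exact hcons v b a m2 m1 h1
  rcases hall with hall | hall
  · exfalso
    have hdis : Disjoint (X2 \ X) X := Finset.sdiff_disjoint
    have hU : X2 \ X ∪ X ⊆ T := Finset.union_subset hZ h.sub
    have hno : ∀ a b, a ≠ b → dg (X2 \ X ∪ X) a b ≠ 1 := by
      intro a b hab
      rw [dg_union hdis]
      by_cases hc : s(a, b) ∈ cy L
      · rw [hall a b hc, (h.bd a b hab).2 hc]; norm_num
      · have h3 := hoff a b hab hc
        have h4 : dg X a b ≠ 1 := fun h' => hc ((h.bd a b hab).1 h')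
        have h5 := dg_le_two hT h.sub hab
        intro h6
        rcases (by omega : dg X a b = 0 ∨ dg X a b = 2) with h7 | h7
        · omega
        · omega
    rcases closed hT hU hno with h3 | h3
    · obtain ⟨t, ht⟩ := h.nonempty
      have : t ∈ X2 \ X ∪ X := Finset.mem_union_right _ ht
      rw [h3] at this
      exact absurd this (Finset.notMem_empty t)
    · have : o ∈ X2 \ X ∪ X := by rw [h3]; exact ho
      rcases Finset.mem_union.1 this with h4 | h4
      · exact hoZ h4
      · exact h.out h4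
  · have h3 : ∀ a b, a ≠ b → dg (X2 \ X) a b ≠ 1 := by
      intro a b hab
      by_cases hc : s(a, b) ∈ cy L
      · exact hall a b hc
      · exact hoff a b hab hc
    rcases closed hT hZ h3 with h4 | h4
    · exact Finset.sdiff_eq_empty_iff_subset.1 h4
    · exact absurd ho (by rw [← h4]; exact hoZ)

end CutAux

variable {V : Type} [DecidableEq V] {T X : Finset (Finset V)} {o : Finset V}

open CutAux in
theorem cut (hT : Sph T) (ho : o ∈ T) {c1 c2 cj : V} {B S : List V} (hB : B ≠ [])
    (h : Bd T o X (c1 :: c2 :: (B ++ cj :: S))) (hch : dg X c2 cj ≠ 0) :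
    ∃ X1 X2 : Finset (Finset V), X1 ∪ X2 = X ∧ Disjoint X1 X2 ∧ Bd T o X1 (c1 :: c2 :: cj :: S) ∧
      Bd T o X2 (c2 :: (B ++ [cj])) ∧ ∀ z, z ∈ vs X1 → z ∈ vs X2 → z = c2 ∨ z = cj := by
  have hnd := h.nodup
  have hnd' := hnd
  rw [List.nodup_cons, List.nodup_cons, List.nodup_append, List.nodup_cons] at hnd'
  obtain ⟨n1, n2, n3, ⟨n4, n5⟩, n6⟩ := hnd'
  have m1 : c1 ≠ c2 := fun h' => n1 (by rw [h']; exact List.mem_cons_self)
  have m2 : c1 ≠ cj := fun h' => n1 (by rw [h']; simp)
  have m3 : c1 ∉ B := fun h' => n1 (by simp [h'])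
  have m4 : c1 ∉ S := fun h' => n1 (by simp [h'])
  have m5 : c2 ∉ B := fun h' => n2 (by simp [h'])
  have m6 : c2 ≠ cj := fun h' => n2 (by rw [h']; simp)
  have m7 : c2 ∉ S := fun h' => n2 (by simp [h'])
  have m8 : cj ∉ B := fun h' => n6 cj h' cj (by simp) rfl
  have m9 : ∀ z ∈ B, z ∉ S := fun z hz hz' => n6 z hz z (by simp [hz']) rfl
  -- the three polygons
  have cyL : ∀ e, e ∈ cy (c1 :: c2 :: (B ++ cj :: S)) ↔
      e = s(c1, c2) ∨ e ∈ es (c2 :: (B ++ [cj])) ∨ e ∈ es (cj :: (S ++ [c1])) := by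
    intro e
    have e1 : (c1 :: ((c2 :: (B ++ cj :: S)) ++ [c1])) =
        c1 :: c2 :: (B ++ cj :: (S ++ [c1])) := by simp
    have e2 : c2 :: (B ++ cj :: (S ++ [c1])) = (c2 :: B) ++ cj :: (S ++ [c1]) := by simp
    rw [show cy (c1 :: c2 :: (B ++ cj :: S)) = es (c1 :: ((c2 :: (B ++ cj :: S)) ++ [c1])) from rfl,
      e1, es, e2, es_append, List.mem_cons, List.mem_append]
    simp
  have cyL2 : ∀ e, e ∈ cy (c2 :: (B ++ [cj])) ↔ e ∈ es (c2 :: (B ++ [cj])) ∨ e = s(cj, c2) := by
    intro e
    have e1 : (c2 :: ((B ++ [cj]) ++ [c2])) = (c2 :: B) ++ cj :: [c2] := by simp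
    rw [show cy (c2 :: (B ++ [cj])) = es (c2 :: ((B ++ [cj]) ++ [c2])) from rfl,
      e1, es_append, List.mem_append]
    simp [es]
  have cyL1 : ∀ e, e ∈ cy (c1 :: c2 :: cj :: S) ↔
      e = s(c1, c2) ∨ e = s(c2, cj) ∨ e ∈ es (cj :: (S ++ [c1])) := by
    intro e
    rw [show cy (c1 :: c2 :: cj :: S) = es (c1 :: c2 :: cj :: (S ++ [c1])) from rfl]
    simp [es]
  -- disjointness
  have mB : ∀ z, z ∈ c2 :: (B ++ [cj]) ↔ z = c2 ∨ z ∈ B ∨ z = cj := by
    intro z; simp
  have mS : ∀ z, z ∈ cj :: (S ++ [c1]) ↔ z = cj ∨ z ∈ S ∨ z = c1 := by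
    intro z; simp
  have nd2 : (c2 :: (B ++ [cj])).Nodup := by
    rw [List.nodup_cons, List.nodup_append]
    refine ⟨?_, n3, by simp, ?_⟩
    · simp [m5, m6]
    · intro a ha b hb
      rw [List.mem_singleton] at hb
      rw [hb]
      rintro rfl
      exact m8 ha
  have D1 : ∀ a b, s(a, b) ∈ es (c2 :: (B ++ [cj])) → s(a, b) ∉ es (cj :: (S ++ [c1])) := by
    intro a b h1 h2
    have hab := ne_of_es nd2 h1
    have key : ∀ z, z ∈ c2 :: (B ++ [cj]) → z ∈ cj :: (S ++ [c1]) → z = cj := by
      intro z z1 z2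
      rw [mB] at z1
      rw [mS] at z2
      rcases z2 with z2 | z2 | z2
      · exact z2
      · rcases z1 with z1 | z1 | z1
        · exact absurd z2 (by rw [z1]; exact m7)
        · exact absurd z2 (m9 z z1)
        · exact z1
      · rcases z1 with z1 | z1 | z1
        · exact absurd (z2.symm.trans z1) m1
        · exact absurd z1 (by rw [z2]; exact m3)
        · exact z1
    have e1 := key a (mem_of_es h1).1 (mem_of_es h2).1
    have e2 := key b (mem_of_es h1).2 (mem_of_es h2).2
    exact hab (e1.trans e2.symm)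
  have D2 : s(c1, c2) ∉ es (c2 :: (B ++ [cj])) := by
    intro h1
    have := (mem_of_es h1).1
    rw [mB] at this
    rcases this with h2 | h2 | h2
    · exact m1 h2
    · exact m3 h2
    · exact m2 h2
  have D5 : s(c2, cj) ∉ es (cj :: (S ++ [c1])) := by
    intro h1
    have := (mem_of_es h1).1
    rw [mS] at this
    rcases this with h2 | h2 | h2
    · exact m6 h2
    · exact m7 h2
    · exact m1 h2.symm
  have D4 : s(c2, cj) ∉ es (c2 :: (B ++ [cj])) := by
    obtain ⟨b0, B', rfl⟩ : ∃ b0 B', B = b0 :: B' := by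
      cases B with
      | nil => exact absurd rfl hB
      | cons b0 B' => exact ⟨b0, B', rfl⟩
    intro h1
    rw [List.cons_append, es, List.mem_cons] at h1
    rcases h1 with h1 | h1
    · rw [Sym2.eq_iff] at h1
      rcases h1 with ⟨_, h1⟩ | ⟨h1, _⟩
      · exact m8 (by rw [h1]; exact List.mem_cons_self)
      · exact m5 (by rw [h1]; exact List.mem_cons_self)
    · have := (mem_of_es h1).1
      rw [List.mem_cons, List.mem_append, List.mem_singleton] at this
      rcases this with h2 | h2 | h2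
      · exact m5 (by rw [h2]; exact List.mem_cons_self)
      · exact m5 (List.mem_cons_of_mem _ h2)
      · exact m6 h2
  have D6 : s(c1, c2) ≠ s(c2, cj) := by
    intro h1
    rw [Sym2.eq_iff] at h1
    rcases h1 with ⟨h1, _⟩ | ⟨h1, _⟩
    · exact m1 h1
    · exact m2 h1
  have D3 : s(c1, c2) ∉ es (cj :: (S ++ [c1])) := by
    intro h1
    have := (mem_of_es h1).2
    rw [mS] at this
    rcases this with h2 | h2 | h2
    · exact m6 h2
    · exact m7 h2
    · exact m1 h2.symm
  have hchL : s(c2, cj) ∉ cy (c1 :: c2 :: (B ++ cj :: S)) := by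
    rw [cyL]
    rintro (h1 | h1 | h1)
    · exact D6 h1.symm
    · exact D4 h1
    · exact D5 h1
  have hch2 : dg X c2 cj = 2 := by
    have h1 := dg_le_two hT h.sub m6
    have h2 : dg X c2 cj ≠ 1 := fun h' => hchL ((h.bd _ _ m6).1 h')
    omega
  have len2 : 3 ≤ (c2 :: (B ++ [cj])).length := by
    have : 1 ≤ B.length := List.length_pos_iff.2 hB
    simp only [List.length_cons, List.length_append, List.length_nil]
    omega
  have hXed : ∀ a b, s(a, b) ∈ cy (c2 :: (B ++ [cj])) → dg X a b ≠ 0 := by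
    intro a b hab
    rw [cyL2] at hab
    rcases hab with hab | hab
    · have h1 : s(a, b) ∈ cy (c1 :: c2 :: (B ++ cj :: S)) := (cyL _).2 (Or.inr (Or.inl hab))
      have := (h.bd a b (ne_of_es nd2 hab)).2 h1
      omega
    · rw [Sym2.eq_iff] at hab
      rcases hab with ⟨rfl, rfl⟩ | ⟨rfl, rfl⟩
      · rw [dg_comm]; exact hch
      · exact hch
  obtain ⟨X2, hX2T, hoX2, hX2⟩ := exists_side hT ho nd2 len2
    (fun a b hab => by
      have h1 := hXed a b hab
      have h2 := dg_mono h.sub a b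
      omega)
  have hsub : X2 ⊆ X := by
    refine sub_of_side hT ho h hX2T hoX2 hX2 ?_
    intro a b _ h1 h2
    rw [cyL2] at h1
    rcases h1 with h1 | h1
    · exact absurd ((cyL _).2 (Or.inr (Or.inl h1))) h2
    · rw [Sym2.eq_iff] at h1
      rcases h1 with ⟨rfl, rfl⟩ | ⟨rfl, rfl⟩
      · rw [dg_comm]; exact hch2
      · exact hch2
  have hBd2 : Bd T o X2 (c2 :: (B ++ [cj])) := ⟨nd2, len2, hX2T, hoX2, hX2⟩
  have nd1 : (c1 :: c2 :: cj :: S).Nodup := by
    rw [List.nodup_cons, List.nodup_cons, List.nodup_cons]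
    refine ⟨?_, ?_, n4, n5⟩
    · simp [m1, m2, m4]
    · simp [m6, m7]
  have hBd1 : Bd T o (X \ X2) (c1 :: c2 :: cj :: S) := by
    refine ⟨nd1, by simp, Finset.sdiff_subset.trans h.sub,
      fun h' => h.out (Finset.mem_sdiff.1 h').1, ?_⟩
    intro a b hab
    have a1 := dg_sdiff hsub a b
    have a2 := h.bd a b hab
    have a3 := hX2 a b hab
    have a4 := dg_le_two hT h.sub hab
    rw [cyL] at a2
    rw [cyL2] at a3
    rw [cyL1]
    by_cases p1 : s(a, b) = s(c1, c2)
    · have q1 : dg X a b = 1 := a2.2 (Or.inl p1)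
      have q2 : dg X2 a b ≠ 1 := by
        intro h'
        rcases a3.1 h' with h'' | h''
        · rw [p1] at h''; exact D2 h''
        · rw [p1] at h''
          exact D6 (h''.trans Sym2.eq_swap)
      constructor
      · intro _; exact Or.inl p1
      · intro _; omega
    by_cases p2 : s(a, b) = s(c2, cj)
    · have q1 : dg X a b = 2 := by
        rw [Sym2.eq_iff] at p2
        rcases p2 with ⟨rfl, rfl⟩ | ⟨rfl, rfl⟩
        · exact hch2
        · rw [dg_comm]; exact hch2
      have q2 : dg X2 a b = 1 := a3.2 (Or.inr (p2.trans Sym2.eq_swap))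
      constructor
      · intro _; exact Or.inr (Or.inl p2)
      · intro _; omega
    have p2' : s(a, b) ≠ s(cj, c2) := fun h' => p2 (h'.trans Sym2.eq_swap)
    by_cases p3 : s(a, b) ∈ es (c2 :: (B ++ [cj]))
    · have q1 : dg X a b = 1 := a2.2 (Or.inr (Or.inl p3))
      have q2 : dg X2 a b = 1 := a3.2 (Or.inl p3)
      constructor
      · intro h'; omega
      · rintro (h' | h' | h')
        · exact absurd h' p1
        · exact absurd h' p2
        · exact absurd h' (D1 a b p3)
    by_cases p4 : s(a, b) ∈ es (cj :: (S ++ [c1]))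
    · have q1 : dg X a b = 1 := a2.2 (Or.inr (Or.inr p4))
      have q2 : dg X2 a b ≠ 1 := by
        intro h'
        rcases a3.1 h' with h'' | h''
        · exact p3 h''
        · exact p2' h''
      constructor
      · intro _; exact Or.inr (Or.inr p4)
      · intro _; omega
    · have q1 : dg X a b ≠ 1 := by
        intro h'
        rcases a2.1 h' with h'' | h'' | h''
        · exact p1 h''
        · exact p3 h''
        · exact p4 h''
      have q2 : dg X2 a b ≠ 1 := by
        intro h'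
        rcases a3.1 h' with h'' | h''
        · exact p3 h''
        · exact p2' h''
      constructor
      · intro h'; omega
      · rintro (h' | h' | h')
        · exact absurd h' p1
        · exact absurd h' p2
        · exact absurd h' p4
  refine ⟨X \ X2, X2, Finset.sdiff_union_of_subset hsub, Finset.sdiff_disjoint, hBd1, hBd2, ?_⟩
  intro z hz1 hz2
  unfold vs at hz1 hz2
  obtain ⟨t1, ht1, hzt1⟩ := Finset.mem_biUnion.1 hz1
  obtain ⟨t2, ht2, hzt2⟩ := Finset.mem_biUnion.1 hz2
  simp only [id] at hzt1 hzt2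
  have hzL2 : z ∈ c2 :: (B ++ [cj]) := by
    by_contra hn
    have h1 : ∀ w, w ≠ z → dg X2 z w ≠ 1 := fun w hw h' =>
      hn (mem_of_cy ((hX2 z w (Ne.symm hw)).1 h')).1
    rcases closed_at hT hX2T z h1 with h2 | h2
    · exact h2 t2 ht2 hzt2
    · exact (Finset.mem_sdiff.1 ht1).2 (h2 t1 (hBd1.sub ht1) hzt1)
  have hzL1 : z ∈ c1 :: c2 :: cj :: S := by
    by_contra hn
    have h1 : ∀ w, w ≠ z → dg (X \ X2) z w ≠ 1 := fun w hw h' =>
      hn (mem_of_cy ((hBd1.bd z w (Ne.symm hw)).1 h')).1
    rcases closed_at hT hBd1.sub z h1 with h2 | h2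
    · exact h2 t1 ht1 hzt1
    · exact (Finset.mem_sdiff.1 (h2 t2 (hX2T ht2) hzt2)).2 ht2
  rw [mB] at hzL2
  simp only [List.mem_cons] at hzL1
  rcases hzL2 with h1 | h1 | h1
  · exact Or.inl h1
  · exfalso
    rcases hzL1 with h2 | h2 | h2 | h2
    · rw [h2] at h1; exact m3 h1
    · rw [h2] at h1; exact m5 h1
    · rw [h2] at h1; exact m8 h1
    · exact m9 z h1 h2
  · exact Or.inr h1

end UPN
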