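import Pool.Agent.Lib.UPN.Fan
import Pool.Agent.Lib.UPN.Cut

/-!
# UPN.Rec (2.5 h): a triangulated sphere has a canonical construction

**recn** (induction on `X.card`): let `Bd T o X (u :: (L ++ [w]))`, and let the current state
`Bld (P ++ u :: B) R ord E` have `B ++ R = w :: Q` (the contour is `P, u, w, Q`), `s(u,w) ∈ E` and
`∀ z ∈ vs X, z ∈ ord → z = u ∨ z = w`.  Then there is a later state whose contour is `P, u, L, w, Q`, with the
first vertex `l0` of `L` still in the stack part, in which the vertices of `X` have been added and all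
edges of `X` belong to `E'`.
Write `u :: (L ++ [w]) = u :: v :: rest`, `rest = c3 :: S` (`L = v :: L0`, `rest = L0 ++ [w]`).
* If `dg X v cj ≠ 0` for some `cj ∈ S`: `rest = B0 ++ cj :: S'` with `B0 ≠ []`; `cut` gives `X1`
  (polygon `u, v, cj, S'`) and `X2` (polygon `v, B0, cj`), both smaller (`Bd.nonempty`, disjoint).
  Apply the induction hypothesis to `X1` (its polygon is `u :: (L1 ++ [w])` : `L1 = [v]` if `cj = w`,
  `S' = []`, otherwise `L1 = v :: cj :: (S' without the last vertex w)`), then to `X2` with
  `P ++ [u]` instead of `P`, base `v, cj` (`s(v,cj) ∈ E'` because `dg X1 v cj = 1`); a vertex of `X2` in the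
  new `ord` is in `ord` or in `vs X1`; in the second case it is `v` or `cj`; in the first case it is `u` or
  `w`, which are in `vs X1` (boundary), so again `v` or `cj`.
* Otherwise `fan`: `M`, `X'`.  If `X' = ∅` (`M = [], S = []`, so `c3 = w`, `L = [v]`): add `v` to the current
  state (`x = u`, `M = []`, `y = w`).  Otherwise `X'` has the polygon `u, M, c3, S` and is smaller; apply
  the induction hypothesis (its inner list is nonempty because the length is at least 3), then add `v` with
  `x = u`, the covered part `M`, `y = c3`.  `v ∉ ord'` since `v ∉ ord` (`v ∈ vs X`, `v ≠ u, w`) and `v ∉ vs X'`.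

**bld_of_sph**: `o = {u, v, w}`, `X = T.erase o`, polygon `u :: ([v] ++ [w])`: `dg (T.erase o) a b = 1` iff
`a, b ∈ o` (`dg T a b = 2` then).  Start: `Bld.base u w`, `P = []`, `B = [w]`, `R = []`, `Q = []`.
An edge of `T` (`dg T a b = 2`) is an edge of `T.erase o`.  Members of `ord'` are `u`, `w` or in `vs X`.
-/

set_option autoImplicit false

namespace UPN

variable {V : Type} [DecidableEq V] {T : Finset (Finset V)} {o : Finset V}

namespace RecAux

theorem mem_vs {X : Finset (Finset V)} {z : V} : z ∈ vs X ↔ ∃ t ∈ X, z ∈ t := by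
  unfold vs
  simp [Finset.mem_biUnion]

theorem vs_mono {X Y : Finset (Finset V)} (h : X ⊆ Y) {z : V} (hz : z ∈ vs X) : z ∈ vs Y := by
  rw [mem_vs] at hz ⊢
  obtain ⟨t, ht, hzt⟩ := hz
  exact ⟨t, h ht, hzt⟩

theorem Bd_mem {X : Finset (Finset V)} {L : List V} (h : Bd T o X L) {z : V} (hz : z ∈ L) :
    z ∈ vs X := by
  have h2 : 2 ≤ L.length := by have := h.len; omega
  obtain ⟨w, hw⟩ := exists_cy h2 hz
  have hne : z ≠ w := ne_of_cy h.nodup h2 hw
  have h1 : dg X z w = 1 := (h.bd z w hne).2 hw
  have h3 : dg X z w ≠ 0 := by omega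
  obtain ⟨t, ht, hzt, -⟩ := dg_ne_zero.1 h3
  exact mem_vs.2 ⟨t, ht, hzt⟩

omit [DecidableEq V] in
theorem Bld_mem {stk R ord : List V} {E : Set (Sym2 V)} (h : Bld stk R ord E) :
    ∀ z ∈ stk ++ R, z ∈ ord := by
  induction h with
  | base a b hab => intro z hz; simpa using hz
  | step A B R M R' x y v ord E hB hBR hv ih =>
    intro z hz
    have hmem : z ∈ (A ++ x :: B) ++ R ∨ z = v := by
      have h1 : (A ++ x :: B) ++ R = A ++ x :: (M ++ y :: R') := by
        rw [List.append_assoc, List.cons_append, hBR]
      rw [h1]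
      simp only [List.append_assoc, List.cons_append, List.nil_append, List.mem_append,
        List.mem_cons, List.not_mem_nil, false_or] at hz ⊢
      tauto
    rcases hmem with h1 | h1
    · exact List.mem_append_left _ (ih z h1)
    · subst h1; simp

end RecAux

open RecAux

theorem recn (hT : Sph T) (ho : o ∈ T) : ∀ (n : ℕ) (X : Finset (Finset V)), X.card ≤ n →
    ∀ (u w : V) (L : List V), Bd T o X (u :: (L ++ [w])) →
    ∀ (P B R ord Q : List V) (E : Set (Sym2 V)), Bld (P ++ u :: B) R ord E → B ++ R = w :: Q →
      s(u, w) ∈ E → (∀ z ∈ vs X, z ∈ ord → z = u ∨ z = w) →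
      ∃ (l0 : V) (L0 B' R' ord' : List V) (E' : Set (Sym2 V)), L = l0 :: L0 ∧
        Bld (P ++ u :: l0 :: B') R' ord' E' ∧ B' ++ R' = L0 ++ w :: Q ∧
        (∀ z, z ∈ ord' ↔ z ∈ ord ∨ z ∈ vs X) ∧ E ⊆ E' ∧
        ∀ a b, a ≠ b → dg X a b ≠ 0 → s(a, b) ∈ E' := by
  intro n
  induction n with
  | zero =>
    intro X hX u w L hBd
    exfalso
    obtain ⟨t, ht⟩ := hBd.nonempty
    have := Finset.card_pos.2 ⟨t, ht⟩
    omega
  | succ n ih =>
    intro X hX u w L hBd P B R ord Q E hB hBR huw hord
    -- u, w in ord
    have hu : u ∈ ord := Bld_mem hB u (by simp)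
    have hw : w ∈ ord := by
      apply Bld_mem hB w
      rw [List.append_assoc, List.cons_append, hBR]
      simp
    -- L nonempty
    obtain ⟨v, L0, rfl⟩ : ∃ v L0, L = v :: L0 := by
      cases L with
      | nil => exfalso; have := hBd.len; simp at this
      | cons v L0 => exact ⟨v, L0, rfl⟩
    obtain ⟨c3, S, hrest⟩ : ∃ c3 S, L0 ++ [w] = c3 :: S := by
      cases L0 with
      | nil => exact ⟨w, [], rfl⟩
      | cons a l => exact ⟨a, l ++ [w], rfl⟩
    have hBd' : Bd T o X (u :: v :: c3 :: S) := by
      have : u :: (v :: L0 ++ [w]) = u :: v :: c3 :: S := by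
        rw [List.cons_append, hrest]
      rw [← this]; exact hBd
    have hnd := hBd'.nodup
    have huv : u ≠ v := by
      simp only [List.nodup_cons, List.mem_cons, not_or] at hnd
      exact hnd.1.1
    have hvrest : v ∉ c3 :: S := by
      simp only [List.nodup_cons] at hnd
      exact hnd.2.1
    have hwv : w ≠ v := by
      rintro rfl
      apply hvrest
      rw [← hrest]; simp
    have hvX : v ∈ vs X := Bd_mem hBd' (by simp)
    have hvord : v ∉ ord := by
      intro hv
      rcases hord v hvX hv with h | h
      · exact huv h.symm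
      · exact hwv h.symm
    by_cases hch : ∃ cj ∈ S, dg X v cj ≠ 0
    · -- chord
      obtain ⟨cj, hcjS, hcj⟩ := hch
      obtain ⟨S1, S', rfl⟩ := List.append_of_mem hcjS
      have hBd2 : Bd T o X (u :: v :: ((c3 :: S1) ++ cj :: S')) := hBd'
      obtain ⟨X1, X2, hU, hdis, hb1, hb2, hcom⟩ := cut hT ho (by simp) hBd2 hcj
      -- the last part
      have hrest' : L0 ++ [w] = (c3 :: S1) ++ cj :: S' := hrest
      obtain ⟨L2, hL2, hL0⟩ : ∃ L2, cj :: S' = L2 ++ [w] ∧ L0 = (c3 :: S1) ++ L2 := by
        rcases List.eq_nil_or_concat (cj :: S') with h0 | ⟨L2, w', h0⟩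
        · simp at h0
        · rw [List.concat_eq_append] at h0
          refine ⟨L2, ?_, ?_⟩
          · rw [h0] at hrest'
            have h1 := congrArg (fun l => l.getLast?) hrest'
            simp only [← List.append_assoc, List.getLast?_append, List.getLast?_singleton] at h1
            simp at h1
            rw [h0, h1]
          · rw [h0, ← List.append_assoc] at hrest'
            exact (List.append_inj' hrest' rfl).1
      have hX1X : X1 ⊆ X := by rw [← hU]; exact Finset.subset_union_left
      have hX2X : X2 ⊆ X := by rw [← hU]; exact Finset.subset_union_right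
      have hcard : X1.card + X2.card = X.card := by
        rw [← hU]; exact (Finset.card_union_of_disjoint hdis).symm
      have hc1 : 0 < X1.card := Finset.card_pos.2 hb1.nonempty
      have hc2 : 0 < X2.card := Finset.card_pos.2 hb2.nonempty
      have hb1' : Bd T o X1 (u :: ((v :: L2) ++ [w])) := by
        have : u :: ((v :: L2) ++ [w]) = u :: v :: cj :: S' := by
          rw [List.cons_append, ← hL2]
        rw [this]; exact hb1
      obtain ⟨l0, L0', B1, R1, ord1, E1, e1, hB1, hBR1, hord1, hE1, hdg1⟩ :=
        ih X1 (by omega) u w (v :: L2) hb1' P B R ord Q E hB hBR huw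
          (fun z hz hz' => hord z (vs_mono hX1X hz) hz')
      obtain ⟨rfl, rfl⟩ : v = l0 ∧ L2 = L0' := by
        simp only [List.cons.injEq] at e1; exact e1
      have hvcj : v ≠ cj := by
        rintro rfl
        apply hvrest
        simp
      have hdvc : dg X1 v cj ≠ 0 := by
        have h1 : s(v, cj) ∈ cy (u :: v :: cj :: S') := (cy_at hb1.nodup cj).2 (Or.inr rfl)
        have h2 := (hb1.bd v cj hvcj).2 h1
        omega
      have hQ' : L2 ++ w :: Q = cj :: (S' ++ Q) := by
        have : L2 ++ w :: Q = (L2 ++ [w]) ++ Q := by simp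
        rw [this, ← hL2]; simp
      have huX1 : u ∈ vs X1 := Bd_mem hb1' (by simp)
      have hwX1 : w ∈ vs X1 := Bd_mem hb1' (by simp)
      obtain ⟨l0, L0'', B2, R2, ord2, E2, e2, hB2, hBR2, hord2, hE2, hdg2⟩ :=
        ih X2 (by omega) v cj (c3 :: S1) hb2 (P ++ [u]) B1 R1 ord1 (S' ++ Q) E1
          (by simpa using hB1) (hBR1.trans hQ') (hdg1 v cj hvcj hdvc)
          (by
            intro z hz hz'
            rcases (hord1 z).1 hz' with h1 | h1
            · rcases hord z (vs_mono hX2X hz) h1 with h2 | h2
              · subst h2; exact hcom z huX1 hz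
              · subst h2; exact hcom z hwX1 hz
            · exact hcom z h1 hz)
      refine ⟨v, L0, l0 :: B2, R2, ord2, E2, rfl, by simpa using hB2, ?_, ?_, ?_, ?_⟩
      · calc (l0 :: B2) ++ R2 = l0 :: (B2 ++ R2) := by simp
          _ = l0 :: (L0'' ++ cj :: (S' ++ Q)) := by rw [hBR2]
          _ = (l0 :: L0'') ++ (cj :: S') ++ Q := by simp
          _ = (c3 :: S1) ++ (L2 ++ [w]) ++ Q := by rw [← e2, ← hL2]
          _ = L0 ++ w :: Q := by rw [hL0]; simp
      · intro z
        rw [hord2, hord1]
        constructor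
        · rintro ((h | h) | h)
          · exact Or.inl h
          · exact Or.inr (vs_mono hX1X h)
          · exact Or.inr (vs_mono hX2X h)
        · rintro (h | h)
          · exact Or.inl (Or.inl h)
          · obtain ⟨t, ht, hzt⟩ := mem_vs.1 h
            rw [← hU] at ht
            rcases Finset.mem_union.1 ht with h1 | h1
            · exact Or.inl (Or.inr (mem_vs.2 ⟨t, h1, hzt⟩))
            · exact Or.inr (mem_vs.2 ⟨t, h1, hzt⟩)
      · exact hE1.trans hE2
      · intro a b hab hd
        obtain ⟨t, ht, hat, hbt⟩ := dg_ne_zero.1 hd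
        rw [← hU] at ht
        rcases Finset.mem_union.1 ht with h1 | h1
        · exact hE2 (hdg1 a b hab (dg_ne_zero.2 ⟨t, h1, hat, hbt⟩))
        · exact hdg2 a b hab (dg_ne_zero.2 ⟨t, h1, hat, hbt⟩)
    · -- fan
      push Not at hch
      obtain ⟨M, X', hX'X, hvX', -, hvs, hedge, halt⟩ := fan hT ho hBd' hch
      rcases halt with ⟨rfl, rfl, rfl⟩ | hb'
      · -- single triangle
        obtain ⟨rfl, rfl⟩ : L0 = [] ∧ w = c3 := by
          have h1 := congrArg List.length hrest
          simp at h1
          subst h1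
          simp at hrest
          exact ⟨rfl, hrest⟩
        refine ⟨v, [], [], w :: Q, ord ++ [v], _, rfl,
          Bld.step P B R [] Q u w v ord E hB (by simpa using hBR) hvord, by simp, ?_, ?_, ?_⟩
        · intro z
          rw [List.mem_append, List.mem_singleton]
          constructor
          · rintro (h | rfl)
            · exact Or.inl h
            · exact Or.inr hvX
          · rintro (h | h)
            · exact Or.inl h
            · rcases hvs z h with rfl | rfl | rfl | h1
              · exact Or.inr rfl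
              · exact Or.inl hu
              · exact Or.inl hw
              · rw [mem_vs] at h1
                obtain ⟨t, ht, -⟩ := h1
                simp at ht
        · exact Set.subset_union_left
        · intro a b hab hd
          rcases hedge a b hab hd with h1 | h1 | h1 | ⟨z, hz, -⟩ | ⟨-, h1⟩
          · exfalso
            obtain ⟨t, ht, -⟩ := dg_ne_zero.1 h1
            simp at ht
          · exact Or.inr (Or.inl h1)
          · exact Or.inr (Or.inr (Or.inl h1))
          · simp at hz
          · left; rw [h1]; exact huw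
      · -- general
        have hcard : X'.card < X.card := by
          apply Finset.card_lt_card
          rw [Finset.ssubset_iff_of_subset hX'X]
          obtain ⟨t, ht, hvt⟩ := mem_vs.1 hvX
          exact ⟨t, ht, fun h => hvX' (mem_vs.2 ⟨t, h, hvt⟩)⟩
        have hb'' : Bd T o X' (u :: ((M ++ L0) ++ [w])) := by
          have : u :: ((M ++ L0) ++ [w]) = u :: (M ++ c3 :: S) := by
            rw [List.append_assoc, hrest]
          rw [this]; exact hb'
        obtain ⟨l0, L0', B1, R1, ord1, E1, e1, hB1, hBR1, hord1, hE1, hdg1⟩ :=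
          ih X' (by omega) u w (M ++ L0) hb'' P B R ord Q E hB hBR huw
            (fun z hz hz' => hord z (vs_mono hX'X hz) hz')
        have hvord1 : v ∉ ord1 := by
          intro h
          rcases (hord1 v).1 h with h1 | h1
          · exact hvord h1
          · exact hvX' h1
        have hQ1 : L0 ++ w :: Q = c3 :: (S ++ Q) := by
          have : L0 ++ w :: Q = (L0 ++ [w]) ++ Q := by simp
          rw [this, hrest]; simp
        have hcont : (l0 :: B1) ++ R1 = M ++ c3 :: (S ++ Q) := by
          calc (l0 :: B1) ++ R1 = l0 :: (B1 ++ R1) := by simp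
            _ = l0 :: (L0' ++ w :: Q) := by rw [hBR1]
            _ = (l0 :: L0') ++ w :: Q := by simp
            _ = (M ++ L0) ++ w :: Q := by rw [← e1]
            _ = M ++ (L0 ++ w :: Q) := by simp
            _ = M ++ c3 :: (S ++ Q) := by rw [hQ1]
        refine ⟨v, L0, [], c3 :: (S ++ Q), ord1 ++ [v], _, rfl,
          Bld.step P (l0 :: B1) R1 M (S ++ Q) u c3 v ord1 E1 hB1 hcont hvord1,
          by simp [hQ1], ?_, ?_, ?_⟩
        · intro z
          rw [List.mem_append, List.mem_singleton, hord1]
          constructor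
          · rintro ((h | h) | rfl)
            · exact Or.inl h
            · exact Or.inr (vs_mono hX'X h)
            · exact Or.inr hvX
          · rintro (h | h)
            · exact Or.inl (Or.inl h)
            · rcases hvs z h with rfl | rfl | rfl | h1
              · exact Or.inr rfl
              · exact Or.inl (Or.inl hu)
              · exact Or.inl (Or.inr (Bd_mem hb' (by simp)))
              · exact Or.inl (Or.inr h1)
        · exact hE1.trans Set.subset_union_left
        · intro a b hab hd
          rcases hedge a b hab hd with h1 | h1 | h1 | ⟨z, hz, h1⟩ | ⟨h0, h1⟩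
          · exact Or.inl (hdg1 a b hab h1)
          · exact Or.inr (Or.inl h1)
          · exact Or.inr (Or.inr (Or.inl h1))
          · exact Or.inr (Or.inr (Or.inr ⟨z, hz, h1⟩))
          · left
            subst h0
            rw [h1]
            have huc : u ≠ c3 := by
              simp only [List.nodup_cons, List.mem_cons, not_or] at hnd
              exact hnd.1.2.1
            have h2 : s(u, c3) ∈ cy (u :: ([] ++ c3 :: S)) := by
              simp [cy, es]
            have h3 := (hb'.bd u c3 huc).2 h2
            exact hdg1 u c3 huc (by omega)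

theorem bld_of_sph (hT : Sph T) {u v w : V} (huv : u ≠ v) (huw : u ≠ w) (hvw : v ≠ w)
    (ho : {u, v, w} ∈ T) :
    ∃ (stk R ord : List V) (E : Set (Sym2 V)), Bld stk R ord E ∧ (∀ z ∈ ord, z ∈ vs T) ∧
      ∀ a b, a ≠ b → dg T a b ≠ 0 → s(a, b) ∈ E := by
  set o : Finset V := {u, v, w} with ho'
  have hmemo : ∀ a b, a ≠ b → ((a ∈ o ∧ b ∈ o) ↔ s(a, b) ∈ cy [u, v, w]) := by
    intro a b hab
    simp only [ho', Finset.mem_insert, Finset.mem_singleton, cy, es, List.cons_append,
      List.nil_append, List.mem_cons, List.not_mem_nil, or_false, Sym2.eq_iff]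
    constructor
    · rintro ⟨rfl | rfl | rfl, rfl | rfl | rfl⟩ <;> first | exact (hab rfl).elim | simp
    · rintro ((⟨rfl, rfl⟩ | ⟨rfl, rfl⟩) | (⟨rfl, rfl⟩ | ⟨rfl, rfl⟩) | (⟨rfl, rfl⟩ | ⟨rfl, rfl⟩)) <;>
        simp
  have hdg : ∀ a b, a ≠ b → (a ∈ o ∧ b ∈ o) → dg T a b = 2 := by
    intro a b hab h
    have h0 : dg T a b ≠ 0 := dg_ne_zero.2 ⟨o, ho, h⟩
    rcases hT.two a b hab with h1 | h1
    · exact (h0 h1).elim
    · exact h1
  have hBd : Bd T o (T.erase o) (u :: ([v] ++ [w])) := by
    refine ⟨by simp [huv, huw, hvw], by simp, Finset.erase_subset _ _, by simp, ?_⟩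
    intro a b hab
    show dg (T.erase o) a b = 1 ↔ s(a, b) ∈ cy [u, v, w]
    rw [← hmemo a b hab, dg_erase T ho]
    by_cases h : a ∈ o ∧ b ∈ o
    · rw [if_pos h, hdg a b hab h]
      exact ⟨fun _ => h, fun _ => rfl⟩
    · rw [if_neg h]
      rcases hT.two a b hab with h1 | h1
      · rw [h1]
        exact ⟨fun h2 => by omega, fun h2 => (h h2).elim⟩
      · rw [h1]
        exact ⟨fun h2 => by omega, fun h2 => (h h2).elim⟩
  obtain ⟨l0, L0, B', R', ord', E', -, hB', -, hord', -, hdg'⟩ :=
    recn hT ho _ (T.erase o) le_rfl u w [v] hBd [] [w] [] [u, w] [] {s(u, w)}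
      (Bld.base u w huw) rfl rfl (by
        intro z _ hz
        simpa using hz)
  refine ⟨_, R', ord', E', hB', ?_, ?_⟩
  · intro z hz
    rcases (hord' z).1 hz with h | h
    · rw [mem_vs]
      refine ⟨o, ho, ?_⟩
      simp only [List.mem_cons, List.not_mem_nil, or_false] at h
      rcases h with rfl | rfl <;> simp [ho']
    · exact vs_mono (Finset.erase_subset _ _) h
  · intro a b hab hd
    apply hdg' a b hab
    rw [dg_erase T ho]
    rcases hT.two a b hab with h1 | h1
    · exact (hd h1).elim
    · rw [h1]
      split_ifs <;> omega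

end UPN
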