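import Pool.Agent.Lib.UPN.StrG

/-!
# UPN.Stretch (2.5 h): canonical constructions give planar drawings on stretched points

**The forest.**  By induction on `Bld stk R ord E` there is a tree `f = cons a ch nil` with
`f.lp = stk`, `f.rpre = ord`, `(stk ++ R).Sublist f.pre`, `f.pre` is a permutation of `ord`,
`ord.Nodup`.  Base: `f = cons a (cons b nil nil) nil`.  Step: insert `v` as the first child of the
vertex `x` of the leftmost path (`lp f` is a prefix of `pre f`): define
`ins : F V → ℕ → V → F V` (`ins (cons u ch rest) 0 v = cons u (cons v nil ch) rest`,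
`ins (cons u ch rest) (k+1) v = cons u (ins ch k v) rest`), with `k = A.length`:
if `lp f = A ++ x :: B` and `pre f = A ++ x :: C` then `lp f' = A ++ [x, v]`,
`pre f' = A ++ x :: v :: C`, `rpre f' = rpre f ++ [v]`.  As `B ++ R = M ++ y :: R'` and
`(A ++ x :: B ++ R).Sublist (A ++ x :: C)`, we get `(A ++ x :: v :: y :: R').Sublist (pre f')`.

**Planarity.**  (Same induction; `f.pre` is a sublist of `f'.pre`, `ord` a prefix of `ord ++ [v]`, so the
hypotheses on `px, py, K` are inherited.)  `px` is increasing along `f.pre`, in particular injective on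
the vertices and increasing along the contour `stk ++ R`; `py` is increasing along `ord`, even
`K py u ≤ py v` for `u` before `v`; all `|px u - px v| < K`, `py > 0`.
Additional invariant (NC): if `w ∈ stk ++ R`, `s(p,q) ∈ E` and `px p < px w < px q`, then
`py p < py w` and `py q < py w`.  It is kept: for the new vertex `w = v` because `py v` is larger than
all old ones and the new edges do not pass over `v`; for an old `w` of the new contour
`A ++ [x, v] ++ y :: R'` and a new edge `v z`, `z ∈ {x} ∪ M ∪ {y}`, `w` is not strictly between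
`v` and `z` (`A, x, v, M, y, R'` are in increasing order of `px`).
The geometry is in `StrG`: for a new edge `v w` (`w ∈ {x} ∪ M ∪ {y}`, on the old contour) no other old vertex is on
it (`vertex_off`); a common point with an old edge `p q` is `pt w` (`new_old`, `hnc` is (NC)), and then `w ∈ {p, q}`
by the induction hypothesis on vertices; a common point of two new edges is `pt v` (`new_new`); `v` is not on an old
edge because `py v` is larger than the heights of both ends (`K ≥ 1`: `0 ≤ |px u - px u| < K`, and `K > 1` as two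
vertices have different `px`).
-/

set_option autoImplicit false

namespace UPN

namespace StretchAux

variable {V : Type}

lemma ins (v x : V) (B : List V) : ∀ (A : List V) (u : V) (ch rest : F V),
    (F.cons u ch rest).lp = A ++ x :: B → ∃ (ch' : F V) (C : List V),
      (F.cons u ch' rest).lp = A ++ [x, v] ∧
      (F.cons u ch' rest).rpre = (F.cons u ch rest).rpre ++ [v] ∧
      (F.cons u ch rest).pre = A ++ x :: C ∧ (F.cons u ch' rest).pre = A ++ x :: v :: C := by
  intro A
  induction A with
  | nil =>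
    intro u ch rest h
    simp only [F.lp, List.nil_append, List.cons.injEq] at h
    obtain ⟨rfl, h⟩ := h
    exact ⟨F.cons v .nil ch, ch.pre ++ rest.pre, by simp [F.lp], by simp [F.rpre],
      by simp [F.pre], by simp [F.pre]⟩
  | cons a0 A ih =>
    intro u ch rest h
    simp only [F.lp, List.cons_append, List.cons.injEq] at h
    obtain ⟨rfl, h⟩ := h
    cases ch with
    | nil => simp [F.lp] at h
    | cons u1 ch1 rest1 =>
      obtain ⟨ch1', C1, h1, h2, h3, h4⟩ := ih u1 ch1 rest1 h
      refine ⟨F.cons u1 ch1' rest1, C1 ++ rest.pre, ?_, ?_, ?_, ?_⟩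
      · rw [F.lp, h1]; rfl
      · change rest.rpre ++ u :: (F.cons u1 ch1' rest1).rpre =
          (rest.rpre ++ u :: (F.cons u1 ch1 rest1).rpre) ++ [v]
        rw [h2]
        simp
      · rw [F.pre, h3]; simp
      · rw [F.pre, h4]; simp

/-- two different edges have only ends in common -/
def E1 (E : Set (Sym2 V)) (px : V → ℤ) (py : V → ℝ) : Prop :=
  ∀ a b c d, s(a, b) ∈ E → s(c, d) ∈ E → s(a, b) ≠ s(c, d) →
    ∀ x, x ∈ segment ℝ (pt px py a) (pt px py b) →
      x ∈ segment ℝ (pt px py c) (pt px py d) →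
      ∃ v, (v = a ∨ v = b) ∧ (v = c ∨ v = d) ∧ x = pt px py v

/-- the vertices on an edge are its ends -/
def V1 (ord : List V) (E : Set (Sym2 V)) (px : V → ℤ) (py : V → ℝ) : Prop :=
  ∀ v ∈ ord, ∀ a b, s(a, b) ∈ E → pt px py v ∈ segment ℝ (pt px py a) (pt px py b) →
    v = a ∨ v = b

/-- no edge passes above a vertex of the contour -/
def NC (ctr : List V) (E : Set (Sym2 V)) (px : V → ℤ) (py : V → ℝ) : Prop :=
  ∀ w ∈ ctr, ∀ p q, s(p, q) ∈ E → px p < px w → px w < px q → py p < py w ∧ py q < py w

lemma step_geo {A M R' : List V} {x y v : V} {ord : List V} {E : Set (Sym2 V)}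
    {px : V → ℤ} {py : V → ℝ} {K : ℝ}
    (hinj : ∀ u ∈ ord ++ [v], ∀ w ∈ ord ++ [v], px u = px w → u = w)
    (hL : (A ++ x :: v :: (M ++ y :: R')).Pairwise (fun u v => px u < px v))
    (hctr : ∀ z, z ∈ A ++ x :: (M ++ y :: R') → z ∈ ord)
    (hK : ∀ u ∈ ord ++ [v], ∀ w ∈ ord ++ [v], ((|px u - px w| : ℤ) : ℝ) < K)
    (hpos : ∀ u ∈ ord ++ [v], 0 < py u)
    (hv : ∀ u ∈ ord, K * py u ≤ py v)
    (hvo : v ∉ ord)
    (hmem : ∀ a b, s(a, b) ∈ E → a ≠ b ∧ a ∈ ord ∧ b ∈ ord)
    (hE1 : E1 E px py) (hV1 : V1 ord E px py)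
    (hNC : NC (A ++ x :: (M ++ y :: R')) E px py)
    {E' : Set (Sym2 V)}
    (hE' : E' = E ∪ {e | e = s(v, x) ∨ e = s(v, y) ∨ ∃ z ∈ M, e = s(v, z)}) :
    E1 E' px py ∧ V1 (ord ++ [v]) E' px py ∧ NC (A ++ [x, v] ++ y :: R') E' px py := by
  classical
  -- the order along the contour
  rw [List.pairwise_append] at hL
  obtain ⟨hLA, hL2, hL3⟩ := hL
  rw [List.pairwise_cons] at hL2
  obtain ⟨hx, hL4⟩ := hL2
  rw [List.pairwise_cons] at hL4
  obtain ⟨hvC, hL5⟩ := hL4
  rw [List.pairwise_append] at hL5
  obtain ⟨hLM, hL6, hL7⟩ := hL5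
  rw [List.pairwise_cons] at hL6
  obtain ⟨hy, hLR⟩ := hL6
  have hxv : px x < px v := hx v (by simp)
  have hvm : v ∈ ord ++ [v] := by simp
  have hom : ∀ u ∈ ord, u ∈ ord ++ [v] := fun u hu => List.mem_append_left _ hu
  have hxo : x ∈ ord := hctr x (by simp)
  have hyo : y ∈ ord := hctr y (by simp)
  have hMo : ∀ z ∈ M, z ∈ ord := fun z hz => hctr z (by simp [hz])
  have hK1 : 1 < K := by
    have h1 := hK v hvm x (hom x hxo)
    have h2 : (1 : ℤ) ≤ |px v - px x| := by
      rw [abs_of_pos (by omega)]
      omega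
    have h3 : (1 : ℝ) ≤ ((|px v - px x| : ℤ) : ℝ) := by exact_mod_cast h2
    linarith
  have hlt : ∀ u ∈ ord, py u < py v := by
    intro u hu
    have h1 := hv u hu
    have h2 := hpos u (hom u hu)
    nlinarith
  -- the new neighbours
  have hnb : ∀ e, e ∈ E' → e ∈ E ∨ ∃ z, (z = x ∨ z = y ∨ z ∈ M) ∧ e = s(v, z) := by
    intro e he
    rw [hE'] at he
    rcases he with he | he | he | ⟨z, hz, he⟩
    · exact Or.inl he
    · exact Or.inr ⟨x, Or.inl rfl, he⟩
    · exact Or.inr ⟨y, Or.inr (Or.inl rfl), he⟩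
    · exact Or.inr ⟨z, Or.inr (Or.inr hz), he⟩
  have hzc : ∀ z, (z = x ∨ z = y ∨ z ∈ M) → z ∈ A ++ x :: (M ++ y :: R') := by
    rintro z (rfl | rfl | hz)
    · simp
    · simp
    · simp [hz]
  have hzo : ∀ z, (z = x ∨ z = y ∨ z ∈ M) → z ∈ ord := fun z hz => hctr z (hzc z hz)
  have hzv : ∀ z, z ∈ ord → z ≠ v := by
    rintro z hz rfl
    exact hvo hz
  have hpv : ∀ z, z ∈ ord → px v ≠ px z := by
    intro z hz h
    exact hzv z hz (hinj v hvm z (hom z hz) h).symm
  have hne : ∀ u ∈ ord, ∀ w ∈ ord, u ≠ w → px u ≠ px w := fun u hu w hw h h' =>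
    h (hinj u (hom u hu) w (hom w hw) h')
  -- a new edge and an old edge
  have hno : ∀ z, (z = x ∨ z = y ∨ z ∈ M) → ∀ p q, s(p, q) ∈ E → ∀ X,
      X ∈ segment ℝ (pt px py v) (pt px py z) → X ∈ segment ℝ (pt px py p) (pt px py q) →
      X = pt px py z ∧ (z = p ∨ z = q) := by
    intro z hz p q hpq X h1 h2
    obtain ⟨hpq1, hp, hq⟩ := hmem p q hpq
    have hz' := hzo z hz
    have hX : X = pt px py z := by
      refine new_old (hpv z hz') (hK v hvm z (hom z hz')) (hpos z (hom z hz'))
        (hpos p (hom p hp)) (hpos q (hom q hq)) (hv z hz') (hv p hp) (hv q hq)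
        (hne p hp q hq hpq1) ?_ ?_ ?_ h1 h2
      · by_cases h : z = p
        · exact Or.inl h
        · exact Or.inr (hne z hz' p hp h)
      · by_cases h : z = q
        · exact Or.inl h
        · exact Or.inr (hne z hz' q hq h)
      · rintro (⟨h3, h4⟩ | ⟨h3, h4⟩)
        · exact hNC z (hzc z hz) p q hpq h3 h4
        · exact (hNC z (hzc z hz) q p (by rw [Sym2.eq_swap]; exact hpq) h3 h4).symm
    refine ⟨hX, hV1 z hz' p q hpq ?_⟩
    rw [← hX]
    exact h2
  -- two new edges
  have hnn : ∀ z, (z = x ∨ z = y ∨ z ∈ M) → ∀ z', (z' = x ∨ z' = y ∨ z' ∈ M) → z ≠ z' → ∀ X,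
      X ∈ segment ℝ (pt px py v) (pt px py z) → X ∈ segment ℝ (pt px py v) (pt px py z') →
      X = pt px py v := by
    intro z hz z' hz' hzz X h1 h2
    have h3 := hzo z hz
    have h4 := hzo z' hz'
    exact new_new (hpv z h3) (hpv z' h4) (hK v hvm z (hom z h3)) (hK v hvm z' (hom z' h4))
      (hpos z (hom z h3)) (hpos z' (hom z' h4)) (hv z h3) (hv z' h4) (hne z h3 z' h4 hzz) h1 h2
  -- segments of equal pairs
  have hseg : ∀ a b c d : V, s(a, b) = s(c, d) →
      segment ℝ (pt px py a) (pt px py b) = segment ℝ (pt px py c) (pt px py d) := by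
    intro a b c d h
    rw [Sym2.eq_iff] at h
    rcases h with ⟨rfl, rfl⟩ | ⟨rfl, rfl⟩
    · rfl
    · exact segment_symm ℝ _ _
  have hmemS : ∀ a b c d w : V, s(a, b) = s(c, d) → (w = c ∨ w = d) → (w = a ∨ w = b) := by
    intro a b c d w h hw
    rw [Sym2.eq_iff] at h
    rcases h with ⟨rfl, rfl⟩ | ⟨rfl, rfl⟩
    · exact hw
    · exact hw.symm
  refine ⟨?_, ?_, ?_⟩
  · intro a b c d hab hcd hne' X h1 h2
    rcases hnb _ hab with h3 | ⟨z, hz, h3⟩
    · rcases hnb _ hcd with h4 | ⟨z', hz', h4⟩
      · exact hE1 a b c d h3 h4 hne' X h1 h2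
      · rw [hseg _ _ _ _ h4] at h2
        obtain ⟨h5, h6⟩ := hno z' hz' a b h3 X h2 h1
        exact ⟨z', h6, hmemS _ _ _ _ _ h4 (Or.inr rfl), h5⟩
    · rw [hseg _ _ _ _ h3] at h1
      rcases hnb _ hcd with h4 | ⟨z', hz', h4⟩
      · obtain ⟨h5, h6⟩ := hno z hz c d h4 X h1 h2
        exact ⟨z, hmemS _ _ _ _ _ h3 (Or.inr rfl), h6, h5⟩
      · rw [hseg _ _ _ _ h4] at h2
        have hzz : z ≠ z' := by
          rintro rfl
          exact hne' (h3.trans h4.symm)
        exact ⟨v, hmemS _ _ _ _ _ h3 (Or.inl rfl), hmemS _ _ _ _ _ h4 (Or.inl rfl),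
          hnn z hz z' hz' hzz X h1 h2⟩
  · intro u hu a b hab h1
    rw [List.mem_append, List.mem_singleton] at hu
    rcases hnb _ hab with h3 | ⟨z, hz, h3⟩
    · rcases hu with hu | rfl
      · exact hV1 u hu a b h3 h1
      · exfalso
        obtain ⟨-, ha, hb⟩ := hmem a b h3
        obtain ⟨s, t, hs, ht, hst, h4⟩ := h1
        have h5 : s * py a + t * py b = py u := by
          have := congrArg Prod.snd h4
          simpa [pt] using this
        have h6 := hlt a ha
        have h7 := hlt b hb
        have e3 : s * py u + t * py u = py u := by rw [← add_mul, hst, one_mul]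
        rcases hs.lt_or_eq with hs' | hs'
        · have e1 : 0 < s * (py u - py a) := mul_pos hs' (by linarith)
          have e2 : 0 ≤ t * (py u - py b) := mul_nonneg ht (by linarith)
          rw [mul_sub] at e1 e2
          linarith
        · have : t = 1 := by linarith
          subst this
          rw [← hs'] at h5
          linarith
    · rcases hu with hu | rfl
      · rw [hseg _ _ _ _ h3] at h1
        refine hmemS _ _ _ _ _ h3 (Or.inr ?_)
        by_contra huz
        have hz' := hzo z hz
        exact vertex_off (hpv z hz') (hK v hvm z (hom z hz')) (hpos z (hom z hz')) (hv z hz')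
          (hv u hu) (hne u hu z hz' huz) h1
      · exact hmemS _ _ _ _ _ h3 (Or.inl rfl)
  · -- the contour
    have hpy : ∀ w, w ∈ y :: R' → px y ≤ px w := by
      intro w hw
      rw [List.mem_cons] at hw
      rcases hw with rfl | hw
      · exact le_rfl
      · exact (hy w hw).le
    have hzy : ∀ z, (z = y ∨ z ∈ M) → px v < px z ∧ px z ≤ px y := by
      rintro z (rfl | hz)
      · exact ⟨hvC z (by simp), le_rfl⟩
      · exact ⟨hvC z (by simp [hz]), (hL7 z hz y (by simp)).le⟩
    -- nothing on the contour is strictly between `v` and a neighbour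
    have hbt : ∀ w ∈ A ++ [x, v] ++ y :: R', ∀ z, (z = x ∨ z = y ∨ z ∈ M) →
        ¬ (px v < px w ∧ px w < px z) ∧ ¬ (px z < px w ∧ px w < px v) := by
      intro w hw z hz
      have hw' : (w ∈ A ∨ w = x) ∨ w = v ∨ w ∈ y :: R' := by
        simp only [List.mem_append, List.mem_cons, List.not_mem_nil, or_false] at hw ⊢
        tauto
      have hvy : px v < px y := (hzy y (Or.inl rfl)).1
      have hz1 : px z ≤ px y := by
        rcases hz with rfl | hz
        · omega
        · exact (hzy z hz).2
      have hz2 : px x ≤ px z := by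
        rcases hz with rfl | hz
        · exact le_rfl
        · have := (hzy z hz).1
          omega
      rcases hw' with hw' | rfl | hw'
      · have hwx : px w ≤ px x := by
          rcases hw' with hw' | rfl
          · exact (hL3 w hw' x (by simp)).le
          · exact le_rfl
        constructor
        · rintro ⟨h1, h2⟩; omega
        · rintro ⟨h1, h2⟩; omega
      · constructor
        · rintro ⟨h1, h2⟩; omega
        · rintro ⟨h1, h2⟩; omega
      · have := hpy w hw'
        constructor
        · rintro ⟨h1, h2⟩; omega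
        · rintro ⟨h1, h2⟩; omega
    intro w hw p q hpq h1 h2
    rcases hnb _ hpq with h3 | ⟨z, hz, h3⟩
    · by_cases hwv : w = v
      · subst hwv
        obtain ⟨-, hp, hq⟩ := hmem p q h3
        exact ⟨hlt p hp, hlt q hq⟩
      · refine hNC w ?_ p q h3 h1 h2
        simp only [List.mem_append, List.mem_cons, List.not_mem_nil, or_false] at hw ⊢
        tauto
    · exfalso
      have h4 := hbt w hw z hz
      rw [Sym2.eq_iff] at h3
      rcases h3 with ⟨rfl, rfl⟩ | ⟨rfl, rfl⟩
      · exact h4.1 ⟨h1, h2⟩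
      · exact h4.2 ⟨h1, h2⟩

theorem main {stk R ord : List V} {E : Set (Sym2 V)} (h : Bld stk R ord E) :
    ∃ (a : V) (ch : F V), (F.cons a ch .nil).lp = stk ∧ (F.cons a ch .nil).rpre = ord ∧
      (stk ++ R).Sublist (F.cons a ch .nil).pre ∧ (F.cons a ch .nil).pre.Perm ord ∧
      ord.Nodup ∧ (∀ a b, s(a, b) ∈ E → a ≠ b ∧ a ∈ ord ∧ b ∈ ord) ∧
      ∀ (px : V → ℤ) (py : V → ℝ) (K : ℝ),
        (F.cons a ch .nil).pre.Pairwise (fun u v => px u < px v) →
        (∀ u ∈ ord, ∀ v ∈ ord, ((|px u - px v| : ℤ) : ℝ) < K) →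
        (∀ v ∈ ord, 0 < py v) →
        ord.Pairwise (fun u v => K * py u ≤ py v) →
        E1 E px py ∧ V1 ord E px py ∧ NC (stk ++ R) E px py := by
  induction h with
  | base a b hab =>
    refine ⟨a, F.cons b .nil .nil, by simp [F.lp], by simp [F.rpre], by simp [F.pre],
      by simp [F.pre], by simp [hab], ?_, ?_⟩
    · intro c d hcd
      rw [Set.mem_singleton_iff, Sym2.eq_iff] at hcd
      rcases hcd with ⟨rfl, rfl⟩ | ⟨rfl, rfl⟩
      · exact ⟨hab, by simp, by simp⟩
      · exact ⟨hab.symm, by simp, by simp⟩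
    · intro px py K h1 h2 h3 h4
      refine ⟨?_, ?_, ?_⟩
      · intro p q r s hpq hrs hne
        rw [Set.mem_singleton_iff] at hpq hrs
        exact absurd (hpq.trans hrs.symm) hne
      · intro v hv p q hpq _
        rw [Set.mem_singleton_iff, Sym2.eq_iff] at hpq
        simp only [List.mem_cons, List.not_mem_nil, or_false] at hv
        rcases hpq with ⟨rfl, rfl⟩ | ⟨rfl, rfl⟩
        · exact hv
        · exact hv.symm
      · intro w hw p q hpq h5 h6
        exfalso
        rw [Set.mem_singleton_iff, Sym2.eq_iff] at hpq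
        simp only [List.append_nil, List.mem_cons, List.not_mem_nil, or_false] at hw
        rcases hpq with ⟨rfl, rfl⟩ | ⟨rfl, rfl⟩ <;> rcases hw with rfl | rfl <;> omega
  | step A B R M R' x y v ord E hB hBR hv ih =>
    obtain ⟨a, ch, hlp, hrp, hsub, hperm, hnd, hmem, hgeo⟩ := ih
    obtain ⟨ch', C, h1, h2, h3, h4⟩ := ins v x B A a ch .nil hlp
    have hsub' : (M ++ y :: R').Sublist C := by
      rw [h3, List.append_assoc, List.append_sublist_append_left, List.cons_append,
        List.cons_sublist_cons, hBR] at hsub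
      exact hsub
    have hfull : (A ++ x :: v :: (M ++ y :: R')).Sublist (F.cons a ch' .nil).pre := by
      rw [h4, List.append_sublist_append_left]
      exact (hsub'.cons_cons v).cons_cons x
    have hperm' : (F.cons a ch' .nil).pre.Perm (ord ++ [v]) := by
      rw [h4]
      have e1 : (A ++ x :: v :: C).Perm (v :: (A ++ x :: C)) := by
        have : A ++ x :: v :: C = (A ++ [x]) ++ v :: C := by simp
        rw [this]
        have e2 : A ++ x :: C = (A ++ [x]) ++ C := by simp
        rw [e2]
        exact List.perm_middle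
      refine e1.trans ?_
      rw [← h3]
      exact (hperm.cons v).trans (List.perm_append_singleton v ord).symm
    have hctr : ∀ z, z ∈ A ++ x :: (M ++ y :: R') → z ∈ ord := by
      intro z hz
      refine hperm.subset (hsub.subset ?_)
      simp only [List.mem_append, List.mem_cons, ← hBR] at hz ⊢
      have h5 : z ∈ B ++ R ↔ z ∈ M ++ y :: R' := by rw [hBR]
      simp only [List.mem_append, List.mem_cons] at h5
      tauto
    refine ⟨a, ch', h1, by rw [h2, hrp], ?_, hperm', ?_, ?_, ?_⟩
    · refine List.Sublist.trans ?_ hfull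
      have : A ++ [x, v] ++ y :: R' = A ++ x :: v :: (y :: R') := by simp
      rw [this, List.append_sublist_append_left]
      exact ((List.sublist_append_right M (y :: R')).cons_cons v).cons_cons x
    · rw [List.nodup_append]
      refine ⟨hnd, by simp, ?_⟩
      intro u hu w hw huw
      rw [List.mem_singleton] at hw
      subst hw huw
      exact hv hu
    · intro p q hpq
      rcases hpq with hpq | hpq
      · obtain ⟨h5, h6, h7⟩ := hmem p q hpq
        exact ⟨h5, List.mem_append_left _ h6, List.mem_append_left _ h7⟩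
      · have h5 : ∃ z, z ∈ ord ∧ s(p, q) = s(v, z) := by
          rcases hpq with h | h | ⟨z, hz, h⟩
          · exact ⟨x, hctr x (by simp), h⟩
          · exact ⟨y, hctr y (by simp), h⟩
          · exact ⟨z, hctr z (by simp [hz]), h⟩
        obtain ⟨z, hz, h⟩ := h5
        have hzv : z ≠ v := by
          rintro rfl
          exact hv hz
        rw [Sym2.eq_iff] at h
        rcases h with ⟨rfl, rfl⟩ | ⟨rfl, rfl⟩
        · exact ⟨hzv.symm, by simp, List.mem_append_left _ hz⟩
        · exact ⟨hzv, List.mem_append_left _ hz, by simp⟩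
    · intro px py K g1 g2 g3 g4
      have g1' : (F.cons a ch .nil).pre.Pairwise (fun u v => px u < px v) := by
        refine g1.sublist ?_
        rw [h3, h4, List.append_sublist_append_left]
        exact (List.sublist_cons_self v C).cons_cons x
      rw [List.pairwise_append] at g4
      obtain ⟨g4a, -, g4b⟩ := g4
      obtain ⟨k1, k2, k3⟩ := hgeo px py K g1'
        (fun u hu w hw => g2 u (List.mem_append_left _ hu) w (List.mem_append_left _ hw))
        (fun u hu => g3 u (List.mem_append_left _ hu)) g4a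
      have hinj : ∀ u ∈ ord ++ [v], ∀ w ∈ ord ++ [v], px u = px w → u = w := by
        have key : ∀ l : List V, l.Pairwise (fun u v => px u < px v) → ∀ u ∈ l, ∀ w ∈ l,
            px u = px w → u = w := by
          intro l hl
          induction l with
          | nil => intro u hu; simp at hu
          | cons c l ihl =>
            rw [List.pairwise_cons] at hl
            intro u hu w hw huw
            rw [List.mem_cons] at hu hw
            rcases hu with rfl | hu <;> rcases hw with rfl | hw
            · rfl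
            · have := hl.1 w hw
              omega
            · have := hl.1 u hu
              omega
            · exact ihl hl.2 u hu w hw huw
        intro u hu w hw huw
        exact key _ g1 u (hperm'.symm.subset hu) w (hperm'.symm.subset hw) huw
      have hNC : NC (A ++ x :: (M ++ y :: R')) E px py := by
        intro w hw
        refine k3 w ?_
        have h5 : w ∈ B ++ R ↔ w ∈ M ++ y :: R' := by rw [hBR]
        simp only [List.mem_append, List.mem_cons] at h5 hw ⊢
        tauto
      exact step_geo hinj (g1.sublist hfull) hctr g2 g3 (fun u hu => g4b u hu v (by simp)) hv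
        hmem k1 k2 hNC rfl

end StretchAux

theorem planar_of_bld {V : Type} {stk R ord : List V} {E : Set (Sym2 V)}
    (h : Bld stk R ord E) :
    ∃ (a : V) (ch : F V), (F.cons a ch .nil).rpre = ord ∧ (F.cons a ch .nil).pre.Perm ord ∧
      ord.Nodup ∧ (∀ a b, s(a, b) ∈ E → a ≠ b ∧ a ∈ ord ∧ b ∈ ord) ∧
      ∀ (px : V → ℤ) (py : V → ℝ) (K : ℝ),
        (F.cons a ch .nil).pre.Pairwise (fun u v => px u < px v) →
        (∀ u ∈ ord, ∀ v ∈ ord, ((|px u - px v| : ℤ) : ℝ) < K) →
        (∀ v ∈ ord, 0 < py v) →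
        ord.Pairwise (fun u v => K * py u ≤ py v) →
        (∀ a b c d, s(a, b) ∈ E → s(c, d) ∈ E → s(a, b) ≠ s(c, d) →
          ∀ x, x ∈ segment ℝ (pt px py a) (pt px py b) →
            x ∈ segment ℝ (pt px py c) (pt px py d) →
            ∃ v, (v = a ∨ v = b) ∧ (v = c ∨ v = d) ∧ x = pt px py v) ∧
        (∀ v ∈ ord, ∀ a b, s(a, b) ∈ E → pt px py v ∈ segment ℝ (pt px py a) (pt px py b) →
          v = a ∨ v = b) := by
  obtain ⟨a, ch, -, h2, -, h4, h5, h6, h7⟩ := StretchAux.main h
  refine ⟨a, ch, h2, h4, h5, h6, fun px py K g1 g2 g3 g4 => ?_⟩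
  obtain ⟨k1, k2, -⟩ := h7 px py K g1 g2 g3 g4
  exact ⟨k1, k2⟩

end UPN
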