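import Pool.Agent.Lib.UPN.EmbT
import Pool.Agent.Lib.UPN.Asym
import Pool.Agent.Lib.UPN.Stretch
import Pool.Agent.Lib.UPN.Rec
import Pool.Agent.Lib.UPN.GSph
import Pool.Agent.Lib.UPN.Perturb
import Pool.Agent.Lib.UPN.Outer

/-!
# UPN.Final: universal point sets of almost linear size
-/

set_option autoImplicit false

namespace UPN

open F059

/-! ### Drawings give plane sets of segments -/

theorem pt_mem_segment (a b : ℝ × ℝ) {t : ℝ} (h0 : 0 ≤ t) (h1 : t ≤ 1) :
    F059.pt a b t ∈ segment ℝ a b := by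
  rw [segment_eq_image]
  refine ⟨t, ⟨h0, h1⟩, ?_⟩
  unfold F059.pt
  refine Prod.ext ?_ ?_
  · simp only [Prod.fst_add, Prod.smul_fst, smul_eq_mul]; ring
  · simp only [Prod.snd_add, Prod.smul_snd, smul_eq_mul]; ring

theorem not_Cr_common {p q r s x : ℝ × ℝ} (h : Cr p q r s) (h1 : x = p ∨ x = q)
    (h2 : x = r ∨ x = s) : False := by
  obtain ⟨hc, hd⟩ := h
  rcases h1 with rfl | rfl <;> rcases h2 with rfl | rfl
  · rw [ori_self_left] at hc; simp at hc
  · rw [ori_self_left] at hc; simp at hc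
  · rw [ori_self_right] at hc; simp at hc
  · rw [ori_self_right] at hc; simp at hc

theorem not_Cr_of_drawing {k : ℕ} {G : SimpleGraph (Fin k)} {φ : Fin k → ℝ × ℝ}
    (h : UPS.IsDrawing G φ) {a b c d : Fin k} (hab : G.Adj a b) (hcd : G.Adj c d) :
    ¬ Cr (φ a) (φ b) (φ c) (φ d) := by
  intro hcr
  obtain ⟨h1, h2, t, h3, h4, h5⟩ := Cr_pt hcr
  have m1 : F059.pt (φ a) (φ b) (tau (φ a) (φ b) s(φ c, φ d)) ∈ segment ℝ (φ a) (φ b) :=
    pt_mem_segment _ _ h1.le h2.le
  have m2 : F059.pt (φ a) (φ b) (tau (φ a) (φ b) s(φ c, φ d)) ∈ segment ℝ (φ c) (φ d) := by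
    rw [h5]; exact pt_mem_segment _ _ h3.le h4.le
  by_cases he : s(a, b) = s(c, d)
  · have hac : a = c ∨ a = d := by
      have : a ∈ s(c, d) := by rw [← he]; exact Sym2.mem_mk_left a b
      exact Sym2.mem_iff.1 this
    refine not_Cr_common hcr (x := φ a) (Or.inl rfl) ?_
    rcases hac with rfl | rfl
    · exact Or.inl rfl
    · exact Or.inr rfl
  · obtain ⟨v, hv1, hv2, -⟩ := h.2.1 a b c d hab hcd he _ m1 m2
    refine not_Cr_common hcr (x := φ v) ?_ ?_
    · rcases hv1 with rfl | rfl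
      · exact Or.inl rfl
      · exact Or.inr rfl
    · rcases hv2 with rfl | rfl
      · exact Or.inl rfl
      · exact Or.inr rfl

/-- the stretched host -/
noncomputable def Sset (c N : ℕ) : Finset (ℝ × ℝ) :=
  (Host c N).image (fun p => ((p.1 : ℝ), ((N : ℝ) + 1) ^ (N - p.2)))

theorem Sset_card (c N : ℕ) : (Sset c N).card ≤ (Host c N).card := Finset.card_image_le

theorem mem_Sset {c N : ℕ} {p : ℕ × ℕ} (h : InHost c p) (hN : p.2 ≤ N) :
    ((p.1 : ℝ), ((N : ℝ) + 1) ^ (N - p.2)) ∈ Sset c N := by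
  classical
  refine Finset.mem_image.2 ⟨p, ?_, rfl⟩
  unfold Host
  rw [Finset.mem_filter, Finset.mem_product, Finset.mem_range, Finset.mem_range]
  have := h.1
  exact ⟨⟨by omega, by omega⟩, h⟩

theorem exists_cfg {k : ℕ} (hk : 1 ≤ k) {G : SimpleGraph (Fin k)} (hG : UPS.IsPlanar G) :
    ∃ (φ : Fin k → ℝ × ℝ) (P : Finset F059.Pt) (A : Finset (Sym2 F059.Pt)) (o1 o2 o3 : F059.Pt),
      Function.Injective φ ∧ Cfg P A o1 o2 o3 ∧ P.card = k + 3 ∧ (∀ i, φ i ∈ P) ∧
      ∀ i j, G.Adj i j → s(φ i, φ j) ∈ A := by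
  classical
  obtain ⟨φ, hφ, hgp⟩ := exists_genpos hG
  have hS : GenPos (Finset.univ.image φ) := by
    intro p hp q hq r hr h1 h2 h3
    obtain ⟨i, -, rfl⟩ := Finset.mem_image.1 hp
    obtain ⟨j, -, rfl⟩ := Finset.mem_image.1 hq
    obtain ⟨l, -, rfl⟩ := Finset.mem_image.1 hr
    exact hgp i j l (fun h => h1 (by rw [h])) (fun h => h2 (by rw [h])) (fun h => h3 (by rw [h]))
  obtain ⟨o1, o2, o3, h1, h2, h3, hpos, hP, hin⟩ := exists_outer _ hS
  set S0 : Finset F059.Pt := Finset.univ.image φ with hS0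
  set P : Finset F059.Pt := insert o1 (insert o2 (insert o3 S0)) with hPdef
  have hmem : ∀ i, φ i ∈ P := by
    intro i
    refine Finset.mem_insert_of_mem (Finset.mem_insert_of_mem (Finset.mem_insert_of_mem ?_))
    exact Finset.mem_image_of_mem _ (Finset.mem_univ i)
  have o12 : o1 ≠ o2 := by
    rintro rfl; rw [ori_self_same] at hpos; exact lt_irrefl _ hpos
  have o13 : o1 ≠ o3 := by
    rintro rfl; rw [ori_self_left] at hpos; exact lt_irrefl _ hpos
  have o23 : o2 ≠ o3 := by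
    rintro rfl; rw [ori_self_right] at hpos; exact lt_irrefl _ hpos
  have hcard : P.card = k + 3 := by
    rw [hPdef, Finset.card_insert_of_notMem, Finset.card_insert_of_notMem,
      Finset.card_insert_of_notMem h3, hS0, Finset.card_image_of_injective _ hφ.1,
      Finset.card_univ, Fintype.card_fin]
    · rw [Finset.mem_insert]; push Not; exact ⟨o23, h2⟩
    · rw [Finset.mem_insert, Finset.mem_insert]; push Not; exact ⟨o12, o13, h1⟩
  set F0 : Finset (Sym2 F059.Pt) := (Finset.univ.filter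
    (fun x : Fin k × Fin k => G.Adj x.1 x.2)).image (fun x => s(φ x.1, φ x.2)) with hF0
  have hsub : F0 ⊆ Seg P := by
    intro e he
    obtain ⟨⟨i, j⟩, hij, rfl⟩ := Finset.mem_image.1 he
    have hadj : G.Adj i j := (Finset.mem_filter.1 hij).2
    exact mem_Seg.2 ⟨hmem i, hmem j, fun h => hadj.ne (hφ.1 h)⟩
  have hpl : Plane F0 := by
    intro e he f hf
    obtain ⟨⟨i, j⟩, hij, rfl⟩ := Finset.mem_image.1 he
    obtain ⟨⟨i', j'⟩, hij', rfl⟩ := Finset.mem_image.1 hf
    rw [SCr_mk]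
    exact not_Cr_of_drawing hφ (Finset.mem_filter.1 hij).2 (Finset.mem_filter.1 hij').2
  obtain ⟨A, hA, hFA⟩ := exists_tri hsub hpl
  refine ⟨φ, P, A, o1, o2, o3, hφ.1, ⟨hP, hA, ?_, ?_, ?_, hpos, ?_, ?_⟩, hcard, hmem, ?_⟩
  · exact Finset.mem_insert_self _ _
  · exact Finset.mem_insert_of_mem (Finset.mem_insert_self _ _)
  · exact Finset.mem_insert_of_mem (Finset.mem_insert_of_mem (Finset.mem_insert_self _ _))
  · intro p hp
    rw [hPdef, Finset.mem_insert, Finset.mem_insert, Finset.mem_insert] at hp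
    rcases hp with rfl | rfl | rfl | hp
    · left
      rw [ori_self_left, ori_self_right, ori_cyc]
      exact ⟨le_refl _, hpos.le, le_refl _⟩
    · left
      rw [ori_self_right, ori_self_left]
      refine ⟨le_refl _, le_refl _, ?_⟩
      rw [← ori_cyc]; exact hpos.le
    · left
      rw [ori_self_right, ori_self_left]
      exact ⟨hpos.le, le_refl _, le_refl _⟩
    · exact hin p hp
  · omega
  · intro i j hij
    refine hFA (Finset.mem_image.2 ⟨(i, j), Finset.mem_filter.2 ⟨Finset.mem_univ _, hij⟩, rfl⟩)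

theorem universal (q : ℕ) (hq : 1 ≤ q) (n : ℕ) :
    UPS.IsUniversal (Sset (3 * q + 3) (g q (n + 3))) n := by
  classical
  intro k hk G hG
  rcases Nat.eq_zero_or_pos k with h0 | hk1
  · subst h0
    obtain ⟨φ, hφ⟩ := hG
    exact ⟨φ, hφ, fun v => v.elim0⟩
  obtain ⟨φ, P, A, o1, o2, o3, hinj, hC, hcard, hmem, hadj⟩ := exists_cfg hk1 hG
  have hpos := hC.pos
  have o12 : o1 ≠ o2 := by
    rintro rfl; rw [ori_self_same] at hpos; exact lt_irrefl _ hpos
  have o13 : o1 ≠ o3 := by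
    rintro rfl; rw [ori_self_left] at hpos; exact lt_irrefl _ hpos
  have o23 : o2 ≠ o3 := by
    rintro rfl; rw [ori_self_right] at hpos; exact lt_irrefl _ hpos
  obtain ⟨stk, R, ord, E, hB, hord, hE⟩ := bld_of_sph hC.sph o12 o13 o23 hC.outer_mem
  obtain ⟨a, ch, hr, hp, hnd, hEE, hplan⟩ := planar_of_bld hB
  set N := g q (n + 3) with hN
  have hordP : ∀ z ∈ ord, z ∈ P := by
    intro z hz
    have := hord z hz
    unfold vs at this
    rw [Finset.mem_biUnion] at this
    obtain ⟨t, ht, hzt⟩ := this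
    exact hC.sub ht hzt
  have hlen : ch.size + 1 ≤ n + 3 := by
    have h1 : (F.cons a ch .nil).pre.length = ord.length := hp.length_eq
    rw [F.length_pre] at h1
    have h2 : ord.length ≤ P.card := by
      rw [← List.toFinset_card_of_nodup hnd]
      exact Finset.card_le_card (fun z hz => hordP z (List.mem_toFinset.1 hz))
    simp only [F.size] at h1
    omega
  obtain ⟨pos, hpos1⟩ := embed_tree hq a ch (hp.nodup_iff.2 hnd) 0
  have hposE : Emb (3 * q + 3) (F.cons a ch .nil) pos 0 N :=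
    hpos1.mono (le_refl _) (by rw [Nat.zero_add]; exact g_mono hlen)
  have hmp : ∀ v, v ∈ ord ↔ v ∈ (F.cons a ch .nil).pre := fun v => (hp.mem_iff).symm
  have hle : ∀ v ∈ ord, (pos v).2 ≤ N := fun v hv => hposE.hi v ((hmp v).1 hv)
  have hlt : ∀ v ∈ ord, (pos v).1 < (pos v).2 := fun v hv => (hposE.host v ((hmp v).1 hv)).1
  set px : F059.Pt → ℤ := fun v => ((pos v).1 : ℤ) with hpx
  set py : F059.Pt → ℝ := fun v => ((N : ℝ) + 1) ^ (N - (pos v).2) with hpy
  have hK1 : (1 : ℝ) ≤ (N : ℝ) + 1 := by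
    have : (0 : ℝ) ≤ N := Nat.cast_nonneg N
    linarith
  have e1 : (F.cons a ch .nil).pre.Pairwise (fun u v => px u < px v) :=
    hposE.pre.imp (fun h => by simp only [hpx]; exact_mod_cast h)
  have e2 : ∀ u ∈ ord, ∀ v ∈ ord, ((|px u - px v| : ℤ) : ℝ) < (N : ℝ) + 1 := by
    intro u hu v hv
    have h1 := hle u hu
    have h2 := hle v hv
    have h3 := hlt u hu
    have h4 := hlt v hv
    have h5 : |px u - px v| < (N : ℤ) + 1 := by
      rw [abs_lt]
      simp only [hpx]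
      constructor <;> omega
    exact_mod_cast h5
  have e3 : ∀ v ∈ ord, 0 < py v := fun v _ => by
    simp only [hpy]; positivity
  have e4 : ord.Pairwise (fun u v => ((N : ℝ) + 1) * py u ≤ py v) := by
    have h1 := hposE.rpre
    rw [hr] at h1
    refine h1.imp_of_mem ?_
    intro u v hu _ huv
    have h2 := hle u hu
    simp only [hpy]
    rw [← pow_succ']
    exact pow_le_pow_right₀ hK1 (by omega)
  obtain ⟨pl1, pl2⟩ := hplan px py ((N : ℝ) + 1) e1 e2 e3 e4
  have hφo : ∀ i, φ i ∈ ord := by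
    intro i
    have hex : ∃ p ∈ P, p ≠ φ i := by
      by_cases h : o1 = φ i
      · exact ⟨o2, hC.m2, fun h' => o12 (h.trans h'.symm)⟩
      · exact ⟨o1, hC.m1, h⟩
    obtain ⟨p, hpP, hpi⟩ := hex
    obtain ⟨w, hw⟩ := exists_edge hC.gp hC.tri (hmem i) hpP hpi
    have hne : φ i ≠ w := (mem_Seg.1 (hC.tri.1 hw)).2.2
    have h1 := hE (φ i) w hne (by rw [hC.dg_of_edge hw]; norm_num)
    exact (hEE _ _ h1).2.1
  have hpinj : ∀ u ∈ ord, ∀ v ∈ ord, px u = px v → u = v := by
    intro u hu v hv huv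
    by_contra hne
    have h1 : (F.cons a ch .nil).pre.Pairwise (fun u v => px u ≠ px v) :=
      e1.imp (fun h => ne_of_lt h)
    have : Std.Symm (fun u v : F059.Pt => px u ≠ px v) := ⟨fun _ _ h => h.symm⟩
    exact h1.forall ((hmp u).1 hu) ((hmp v).1 hv) hne huv
  have hEadj : ∀ i j, G.Adj i j → s(φ i, φ j) ∈ E := by
    intro i j hij
    have h1 := hadj i j hij
    exact hE _ _ (fun h => hij.ne (hinj h)) (by rw [hC.dg_of_edge h1]; norm_num)
  refine ⟨fun i => pt px py (φ i), ⟨?_, ?_, ?_⟩, ?_⟩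
  · intro i j hij
    have h1 : px (φ i) = px (φ j) := by
      have := congrArg Prod.fst hij
      simp only [pt] at this
      exact_mod_cast this
    exact hinj (hpinj _ (hφo i) _ (hφo j) h1)
  · intro i j i' j' hij hij' hne x hx hx'
    have hne' : s(φ i, φ j) ≠ s(φ i', φ j') := by
      intro h
      apply hne
      rw [Sym2.eq_iff] at h ⊢
      rcases h with ⟨h1, h2⟩ | ⟨h1, h2⟩
      · exact Or.inl ⟨hinj h1, hinj h2⟩
      · exact Or.inr ⟨hinj h1, hinj h2⟩
    obtain ⟨v, hv1, hv2, hv3⟩ := pl1 _ _ _ _ (hEadj i j hij) (hEadj i' j' hij') hne' x hx hx'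
    rcases hv1 with rfl | rfl
    · refine ⟨i, Or.inl rfl, ?_, hv3⟩
      rcases hv2 with h | h
      · exact Or.inl (hinj h)
      · exact Or.inr (hinj h)
    · refine ⟨j, Or.inr rfl, ?_, hv3⟩
      rcases hv2 with h | h
      · exact Or.inl (hinj h)
      · exact Or.inr (hinj h)
  · intro v i j hij hv
    rcases pl2 _ (hφo v) _ _ (hEadj i j hij) hv with h | h
    · exact Or.inl (hinj h)
    · exact Or.inr (hinj h)
  · intro v
    exact mem_Sset (hposE.host _ ((hmp _).1 (hφo v))) (hle _ (hφo v))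

theorem card_le_of_universal {S : Finset (ℝ × ℝ)} {n : ℕ} (h : UPS.IsUniversal S n) :
    n ≤ S.card := by
  classical
  have hpl : UPS.IsPlanar (⊥ : SimpleGraph (Fin n)) := by
    refine ⟨fun i => ((i : ℕ), 0), ?_, ?_, ?_⟩
    · intro i j hij
      have h1 := congrArg Prod.fst hij
      simp only at h1
      exact Fin.ext (by exact_mod_cast h1)
    · intro a b c d hab
      exact absurd hab (by simp)
    · intro v a b hab
      exact absurd hab (by simp)
  obtain ⟨φ, hφ, hmem⟩ := h n le_rfl ⊥ hpl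
  have h1 : (Finset.univ.image φ).card = n := by
    rw [Finset.card_image_of_injective _ hφ.1, Finset.card_univ, Fintype.card_fin]
  rw [← h1]
  refine Finset.card_le_card ?_
  intro p hp
  obtain ⟨i, -, rfl⟩ := Finset.mem_image.1 hp
  exact hmem i

theorem main : ∃ C : ℝ, 0 < C ∧ ∀ n : ℕ, 1 ≤ n →
    (∃ S : Finset (ℝ × ℝ), UPS.IsUniversal S n ∧ S.card = UPS.minUniversal n) ∧
      (n : ℝ) ≤ UPS.minUniversal n ∧
      (UPS.minUniversal n : ℝ) ≤ n * Real.exp (C * √(Real.log (n + 1))) := by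
  obtain ⟨C, hC, h⟩ := asym
  refine ⟨C, hC, fun n hn => ?_⟩
  obtain ⟨q, hq, h1⟩ := h n hn
  have hu := universal q hq n
  have hne : {m | ∃ S : Finset (ℝ × ℝ), S.card = m ∧ UPS.IsUniversal S n}.Nonempty :=
    ⟨_, _, rfl, hu⟩
  obtain ⟨S, h2, h3⟩ := Nat.sInf_mem hne
  have h2' : S.card = UPS.minUniversal n := h2
  refine ⟨⟨S, h3, h2'⟩, ?_, ?_⟩
  · rw [← h2']
    exact_mod_cast card_le_of_universal h3
  · have h2 : UPS.minUniversal n ≤ (Sset (3 * q + 3) (g q (n + 3))).card :=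
      Nat.sInf_le ⟨_, rfl, hu⟩
    have h3 : ((UPS.minUniversal n : ℕ) : ℝ) ≤ ((Host (3 * q + 3) (g q (n + 3))).card : ℝ) := by
      exact_mod_cast h2.trans (Sset_card _ _)
    exact h3.trans h1

end UPN
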