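import Pool.Agent.Lib.UPS.Stmt

/-!
# Universal point sets of almost linear size: definitions (MP_d8a706_co)
-/

set_option autoImplicit false

namespace UPN

/-! ### Ordered forests -/

/-- ordered forests with labelled vertices; `cons v ch rest`: the first tree has the root `v`,
whose children are the roots of `ch`, and `rest` are the other trees -/
inductive F (V : Type) : Type
  | nil : F V
  | cons (v : V) (ch rest : F V) : F V

namespace F

variable {V : Type}

/-- number of vertices -/
def size : F V → ℕ
  | nil => 0
  | cons _ ch rest => size ch + size rest + 1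

/-- the vertices in preorder -/
def pre : F V → List V
  | nil => []
  | cons v ch rest => v :: (pre ch ++ pre rest)

/-- the vertices in preorder, siblings taken from the right to the left -/
def rpre : F V → List V
  | nil => []
  | cons v ch rest => rpre rest ++ v :: rpre ch

/-- the leftmost path -/
def lp : F V → List V
  | nil => []
  | cons v ch _ => v :: lp ch

/-- concatenation of forests -/
def app : F V → F V → F V
  | nil, g => g
  | cons v ch rest, g => cons v ch (app rest g)

/-- the largest size of a tree of the forest -/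
def mt : F V → ℕ
  | nil => 0
  | cons _ ch rest => max (size ch + 1) (mt rest)

/-- total length of windows for the trees of the forest -/
def ws (g : ℕ → ℕ) : F V → ℕ
  | nil => 0
  | cons _ ch rest => g (size ch + 1) + 1 + ws g rest

end F

/-! ### The host -/

/-- the interval `p` belongs to the host -/
def InHost (c : ℕ) (p : ℕ × ℕ) : Prop :=
  p.1 < p.2 ∧ ∃ k : ℕ, p.2 ≤ p.1 + 2 ^ k ∧ 2 ^ (k - c) ∣ p.1 + p.2

open Classical in
/-- the host: all intervals in `[0, N]` with a divisibility property -/
noncomputable def Host (c N : ℕ) : Finset (ℕ × ℕ) :=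
  (Finset.range (N + 1) ×ˢ Finset.range (N + 1)).filter (InHost c)

/-- `pos` embeds the forest `f` into the part of the host in the window `[x, y]` -/
structure Emb {V : Type} (c : ℕ) (f : F V) (pos : V → ℕ × ℕ) (x y : ℕ) : Prop where
  host : ∀ v ∈ f.pre, InHost c (pos v)
  lo : ∀ v ∈ f.pre, x ≤ (pos v).1
  hi : ∀ v ∈ f.pre, (pos v).2 ≤ y
  pre : f.pre.Pairwise (fun u v => (pos u).1 < (pos v).1)
  rpre : f.rpre.Pairwise (fun u v => (pos v).2 < (pos u).2)

/-- the growth factor -/
noncomputable def rr (q : ℕ) : ℝ := 1 + 1 / q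

/-- the length of the window for a tree with `m` vertices -/
noncomputable def G (q m : ℕ) : ℝ := 2 ^ (4 * q + 4) * m * rr q ^ (Nat.log 2 m)

/-- the same, rounded up -/
noncomputable def g (q m : ℕ) : ℕ := ⌈G q m⌉₊

/-! ### Canonical constructions -/

/-- `Bld stk R ord E`: a plane triangulated graph is built by adding vertices outside.
`stk ++ R` is the upper contour from left to right, `stk` the part up to the last added vertex,
`ord` the list of the vertices in the order in which they were added, `E` the set of edges.
The new vertex `v` is joined to a contiguous part `x, M, y` of the contour, and `x` belongs to `stk`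
(the vertices are added in the preorder of the tree in which `x` is the parent of `v`). -/
inductive Bld {V : Type} : List V → List V → List V → Set (Sym2 V) → Prop
  | base (a b : V) : a ≠ b → Bld [a, b] [] [a, b] {s(a, b)}
  | step (A B R M R' : List V) (x y v : V) (ord : List V) (E : Set (Sym2 V)) :
      Bld (A ++ x :: B) R ord E → B ++ R = M ++ y :: R' → v ∉ ord →
      Bld (A ++ [x, v]) (y :: R') (ord ++ [v])
        (E ∪ {e | e = s(v, x) ∨ e = s(v, y) ∨ ∃ z ∈ M, e = s(v, z)})

/-! ### Triangulated spheres -/

/-- number of members of `X` containing `a` and `b` -/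
def dg {V : Type} [DecidableEq V] (X : Finset (Finset V)) (a b : V) : ℕ :=
  (X.filter (fun t => a ∈ t ∧ b ∈ t)).card

/-- number of members of `Q` (a set of pairs) containing `a` -/
def vd {V : Type} [DecidableEq V] (Q : Finset (Finset V)) (a : V) : ℕ :=
  (Q.filter (fun e => a ∈ e)).card

/-- `T` is the set of the triangles of a triangulated sphere -/
structure Sph {V : Type} [DecidableEq V] (T : Finset (Finset V)) : Prop where
  card3 : ∀ t ∈ T, t.card = 3
  two : ∀ a b, a ≠ b → dg T a b = 0 ∨ dg T a b = 2
  vert : ∀ v, ∀ Z ⊆ T, (∀ t ∈ Z, v ∈ t) →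
    (∀ t ∈ Z, ∀ t' ∈ T, v ∈ t' → 2 ≤ (t ∩ t').card → t' ∈ Z) →
    Z = ∅ ∨ ∀ t ∈ T, v ∈ t → t ∈ Z
  conn : ∀ Z ⊆ T, (∀ t ∈ Z, ∀ t' ∈ T, 2 ≤ (t ∩ t').card → t' ∈ Z) → Z = ∅ ∨ Z = T
  hom : ∀ Q : Finset (Finset V), (∀ e ∈ Q, ∃ a b, a ≠ b ∧ e = {a, b} ∧ dg T a b ≠ 0) →
    (∀ v, Even (vd Q v)) → ∃ X ⊆ T, ∀ a b, a ≠ b → (Odd (dg X a b) ↔ {a, b} ∈ Q)

/-- the consecutive pairs of a list -/
def es {V : Type} : List V → List (Sym2 V)
  | [] => []
  | [_] => []
  | a :: b :: l => s(a, b) :: es (b :: l)

/-- the edges of the closed polygon with the given vertices -/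
def cy {V : Type} : List V → List (Sym2 V)
  | [] => []
  | a :: l => es (a :: (l ++ [a]))

/-- `X` is a triangulated disc (a part of the sphere `T`, not containing the triangle `o`) with the
boundary polygon `L` -/
structure Bd {V : Type} [DecidableEq V] (T : Finset (Finset V)) (o : Finset V)
    (X : Finset (Finset V)) (L : List V) : Prop where
  nodup : L.Nodup
  len : 3 ≤ L.length
  sub : X ⊆ T
  out : o ∉ X
  bd : ∀ a b, a ≠ b → (dg X a b = 1 ↔ s(a, b) ∈ cy L)

/-- the vertices of the triangles in `X` -/
def vs {V : Type} [DecidableEq V] (X : Finset (Finset V)) : Finset V := X.biUnion id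

/-! ### The stretched points -/

/-- the point with integral first coordinate -/
def pt {V : Type} (px : V → ℤ) (py : V → ℝ) (v : V) : ℝ × ℝ := ((px v : ℝ), py v)

end UPN
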