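import Pool.Agent.Lib.UPN.Defs

/-!
# UPN.DiscB (2 h): first lemmas about discs

`es (A ++ a :: B) = es (A ++ [a]) ++ es (a :: B)`; `cy` of a rotated list has the same members;
members of `es L` are pairs of members of `L`; for a list without repetitions and `3 ≤ length`
the pairs of `cy L` are pairs of distinct vertices.  For a member `v` of a nodup list
`a :: v :: b :: S`, the pairs of `cy` containing `v` are exactly `s(a,v)` and `s(v,b)`.

`Bd.nonempty`: `cy L` is nonempty, so some `dg X a b = 1`.
`closed`: if `X ⊆ T` and all `dg X a b` are 0 or 2 (`a ≠ b`), then `X = ∅` or `X = T` (`Sph.conn`: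
if `t ∈ X`, `t' ∈ T` share two vertices `a ≠ b` then `dg T a b = 2`, `dg X a b = 2`, so the two
triangles of `T` at `a, b` are both in `X`).
`closed_at`: the same at one vertex (`Sph.vert`): if all `dg X v w ∈ {0, 2}`, `w ≠ v`, then no
triangle of `X` or all triangles of `T` at `v` are in `X`.
`third`: if `dg X a b = 1` (`X ⊆ T`) there is exactly one `c` with `{a, b, c} ∈ X`.
-/

set_option autoImplicit false

namespace UPN

section lists

variable {V : Type}

theorem es_append (A B : List V) (a : V) : es (A ++ a :: B) = es (A ++ [a]) ++ es (a :: B) := by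
  induction A with
  | nil => simp [es]
  | cons x A ih =>
    cases A with
    | nil => simp [es]
    | cons y A' =>
      simp only [List.cons_append, es] at ih ⊢
      rw [ih]

theorem mem_of_es {L : List V} {a b : V} (h : s(a, b) ∈ es L) : a ∈ L ∧ b ∈ L := by
  induction L with
  | nil => simp [es] at h
  | cons x L ih =>
    cases L with
    | nil => simp [es] at h
    | cons y L' =>
      simp only [es, List.mem_cons] at h
      rcases h with h | h
      · rw [Sym2.eq_iff] at h
        rcases h with ⟨rfl, rfl⟩ | ⟨rfl, rfl⟩ <;> simp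
      · obtain ⟨h1, h2⟩ := ih h
        exact ⟨List.mem_cons_of_mem _ h1, List.mem_cons_of_mem _ h2⟩

theorem mem_of_cy {L : List V} {a b : V} (h : s(a, b) ∈ cy L) : a ∈ L ∧ b ∈ L := by
  cases L with
  | nil => simp [cy] at h
  | cons x L =>
    simp only [cy] at h
    obtain ⟨h1, h2⟩ := mem_of_es h
    simp only [List.mem_cons, List.mem_append, List.not_mem_nil, or_false] at h1 h2
    simp only [List.mem_cons]
    tauto

theorem ne_of_es {L : List V} (hL : L.Nodup) {a b : V} (h : s(a, b) ∈ es L) : a ≠ b := by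
  induction L with
  | nil => simp [es] at h
  | cons x L ih =>
    cases L with
    | nil => simp [es] at h
    | cons y L' =>
      simp only [es, List.mem_cons] at h
      rcases h with h | h
      · have hxy : x ≠ y := by
          rintro rfl
          simp at hL
        rw [Sym2.eq_iff] at h
        rcases h with ⟨rfl, rfl⟩ | ⟨rfl, rfl⟩
        · exact hxy
        · exact hxy.symm
      · exact ih (List.nodup_cons.mp hL).2 h

theorem ne_of_cy {L : List V} (hL : L.Nodup) (h3 : 2 ≤ L.length) {a b : V} (h : s(a, b) ∈ cy L) :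
    a ≠ b := by
  match L, hL, h3, h with
  | x :: y :: L', hL, _, h =>
    simp only [cy, List.cons_append, es, List.mem_cons] at h
    rcases h with h | h
    · have hxy : x ≠ y := by
        rintro rfl
        simp at hL
      rw [Sym2.eq_iff] at h
      rcases h with ⟨rfl, rfl⟩ | ⟨rfl, rfl⟩
      · exact hxy
      · exact hxy.symm
    · refine ne_of_es ?_ h
      have : (y :: (L' ++ [x])) = (y :: L') ++ [x] := by simp
      rw [this, List.nodup_append_comm]
      simpa using hL

theorem cy_rot (a : V) (l : List V) (e : Sym2 V) : e ∈ cy (a :: l) ↔ e ∈ cy (l ++ [a]) := by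
  cases l with
  | nil => simp
  | cons b l' =>
    have h1 : cy (a :: b :: l') = s(a, b) :: es (b :: (l' ++ [a])) := by
      simp [cy, es]
    have h2 : cy ((b :: l') ++ [a]) = es (b :: (l' ++ [a])) ++ [s(a, b)] := by
      have : cy ((b :: l') ++ [a]) = es ((b :: l') ++ a :: [b]) := by
        simp [cy]
      rw [this, es_append]
      simp [es]
    rw [h1, h2]
    simp only [List.mem_cons, List.mem_append, List.not_mem_nil, or_false]
    tauto

/-- the edges of the polygon at the vertex `v` -/
theorem cy_at {a v b : V} {S : List V} (h : (a :: v :: b :: S).Nodup) (w : V) :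
    s(v, w) ∈ cy (a :: v :: b :: S) ↔ w = a ∨ w = b := by
  have h1 : cy (a :: v :: b :: S) = s(a, v) :: s(v, b) :: es (b :: (S ++ [a])) := by
    simp [cy, es]
  rw [h1]
  simp only [List.mem_cons]
  constructor
  · rintro (h2 | h2 | h2)
    · rw [Sym2.eq_iff] at h2
      rcases h2 with ⟨h3, h4⟩ | ⟨_, h4⟩
      · left
        rw [h4, h3]
      · exact Or.inl h4
    · rw [Sym2.eq_iff] at h2
      rcases h2 with ⟨_, h4⟩ | ⟨h3, h4⟩
      · exact Or.inr h4
      · right
        rw [h4, h3]
    · exfalso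
      obtain ⟨h3, -⟩ := mem_of_es h2
      simp only [List.mem_cons, List.mem_append, List.not_mem_nil, or_false] at h3
      simp only [List.nodup_cons, List.mem_cons, not_or] at h
      obtain ⟨⟨hav, -, -⟩, ⟨hvb, hvS⟩, -, -⟩ := h
      rcases h3 with h3 | h3 | h3
      · exact hvb h3
      · exact hvS h3
      · exact hav h3.symm
  · rintro (rfl | rfl)
    · left
      exact Sym2.eq_swap
    · right; left; rfl

private theorem exists_es {A : List V} (c : V) {v : V} (hv : v ∈ A) :
    ∃ w, s(v, w) ∈ es (A ++ [c]) := by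
  induction A with
  | nil => simp at hv
  | cons x A ih =>
    rcases List.mem_cons.mp hv with rfl | hv
    · cases A with
      | nil => exact ⟨c, by simp [es]⟩
      | cons y A' => exact ⟨y, by simp [es]⟩
    · obtain ⟨w, hw⟩ := ih hv
      refine ⟨w, ?_⟩
      cases A with
      | nil => simp at hv
      | cons y A' =>
        simp only [List.cons_append, es, List.mem_cons] at hw ⊢
        exact Or.inr hw

/-- every vertex of the polygon has two neighbours -/
theorem exists_cy {L : List V} (h : 2 ≤ L.length) {v : V} (hv : v ∈ L) : ∃ w, s(v, w) ∈ cy L := by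
  cases L with
  | nil => simp at hv
  | cons a l =>
    have : cy (a :: l) = es ((a :: l) ++ [a]) := by simp [cy]
    rw [this]
    exact exists_es a hv

end lists

variable {V : Type} [DecidableEq V] {T X : Finset (Finset V)} {o : Finset V}

theorem dg_comm (X : Finset (Finset V)) (a b : V) : dg X a b = dg X b a := by
  unfold dg
  congr 1
  apply Finset.filter_congr
  intro t _
  exact and_comm

theorem dg_mono {X Y : Finset (Finset V)} (h : X ⊆ Y) (a b : V) : dg X a b ≤ dg Y a b :=
  Finset.card_le_card (Finset.filter_subset_filter _ h)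

theorem dg_le_two (hT : Sph T) (hX : X ⊆ T) {a b : V} (hab : a ≠ b) : dg X a b ≤ 2 := by
  have h1 := dg_mono hX a b
  rcases hT.two a b hab with h | h <;> omega

theorem dg_erase (X : Finset (Finset V)) {t : Finset V} (ht : t ∈ X) (a b : V) :
    dg (X.erase t) a b = dg X a b - (if a ∈ t ∧ b ∈ t then 1 else 0) := by
  unfold dg
  have h1 : (X.erase t).filter (fun t => a ∈ t ∧ b ∈ t) =
      (X.filter (fun t => a ∈ t ∧ b ∈ t)).erase t := by
    ext u
    simp only [Finset.mem_filter, Finset.mem_erase]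
    tauto
  rw [h1]
  split_ifs with h
  · rw [Finset.card_erase_of_mem (Finset.mem_filter.mpr ⟨ht, h⟩)]
  · have h3 : t ∉ X.filter (fun t => a ∈ t ∧ b ∈ t) := fun h2 => h (Finset.mem_filter.mp h2).2
    rw [Finset.erase_eq_of_notMem h3]
    rfl

theorem dg_ne_zero {a b : V} : dg X a b ≠ 0 ↔ ∃ t ∈ X, a ∈ t ∧ b ∈ t := by
  unfold dg
  rw [Ne, Finset.card_eq_zero, ← Ne, ← Finset.nonempty_iff_ne_empty]
  constructor
  · rintro ⟨t, ht⟩
    exact ⟨t, Finset.mem_filter.mp ht⟩
  · rintro ⟨t, ht⟩
    exact ⟨t, Finset.mem_filter.mpr ht⟩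

private theorem full_of_two (hT : Sph T) (hX : X ⊆ T) {a b : V} (hab : a ≠ b) (h1 : dg X a b ≠ 1)
    {t t' : Finset V} (ht : t ∈ X) (hta : a ∈ t) (htb : b ∈ t) (ht' : t' ∈ T) (hta' : a ∈ t')
    (htb' : b ∈ t') : t' ∈ X := by
  have h0 : dg X a b ≠ 0 := dg_ne_zero.mpr ⟨t, ht, hta, htb⟩
  have h2 := dg_le_two hT hX hab
  have h3 : dg X a b = 2 := by omega
  have h4 := dg_mono hX a b
  have h5 : dg T a b = 2 := by
    rcases hT.two a b hab with h | h <;> omega
  have h6 : X.filter (fun t => a ∈ t ∧ b ∈ t) = T.filter (fun t => a ∈ t ∧ b ∈ t) := by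
    apply Finset.eq_of_subset_of_card_le (Finset.filter_subset_filter _ hX)
    unfold dg at h3 h5
    rw [h3, h5]
  have h7 : t' ∈ T.filter (fun t => a ∈ t ∧ b ∈ t) := Finset.mem_filter.mpr ⟨ht', hta', htb'⟩
  rw [← h6] at h7
  exact (Finset.mem_filter.mp h7).1

/-- a set of triangles without boundary is empty or everything -/
theorem closed (hT : Sph T) (hX : X ⊆ T) (h : ∀ a b, a ≠ b → dg X a b ≠ 1) : X = ∅ ∨ X = T := by
  apply hT.conn X hX
  intro t ht t' ht' h2
  obtain ⟨a, ha, b, hb, hab⟩ := Finset.one_lt_card.mp h2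
  rw [Finset.mem_inter] at ha hb
  exact full_of_two hT hX hab (h a b hab) ht ha.1 hb.1 ht' ha.2 hb.2

theorem closed_at (hT : Sph T) (hX : X ⊆ T) (v : V) (h : ∀ w, w ≠ v → dg X v w ≠ 1) :
    (∀ t ∈ X, v ∉ t) ∨ ∀ t ∈ T, v ∈ t → t ∈ X := by
  have h1 := hT.vert v (X.filter (fun t => v ∈ t)) ((Finset.filter_subset _ _).trans hX)
    (fun t ht => (Finset.mem_filter.mp ht).2) (by
      intro t ht t' ht' hvt' h2
      obtain ⟨htX, hvt⟩ := Finset.mem_filter.mp ht
      have hv : v ∈ t ∩ t' := Finset.mem_inter.mpr ⟨hvt, hvt'⟩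
      obtain ⟨w, hw, hwv⟩ := Finset.exists_mem_ne (show 1 < (t ∩ t').card from h2) v
      rw [Finset.mem_inter] at hw
      exact Finset.mem_filter.mpr
        ⟨full_of_two hT hX hwv.symm (h w hwv) htX hvt hw.1 ht' hvt' hw.2, hvt'⟩)
  rcases h1 with h1 | h1
  · left
    intro t ht hv
    have : t ∈ X.filter (fun t => v ∈ t) := Finset.mem_filter.mpr ⟨ht, hv⟩
    rw [h1] at this
    simp at this
  · right
    intro t ht hv
    exact (Finset.mem_filter.mp (h1 t ht hv)).1

theorem third (hT : Sph T) (hX : X ⊆ T) {a b : V} (hab : a ≠ b) (h : dg X a b = 1) :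
    ∃ c, c ≠ a ∧ c ≠ b ∧ {a, b, c} ∈ X ∧ ∀ t ∈ X, a ∈ t → b ∈ t → t = {a, b, c} := by
  unfold dg at h
  obtain ⟨t, ht⟩ := Finset.card_eq_one.mp h
  have h1 : t ∈ X.filter (fun t => a ∈ t ∧ b ∈ t) := by rw [ht]; simp
  obtain ⟨htX, hat, hbt⟩ := Finset.mem_filter.mp h1
  have h3 := hT.card3 t (hX htX)
  have hb' : b ∈ t.erase a := Finset.mem_erase.mpr ⟨hab.symm, hbt⟩
  have h4 : ((t.erase a).erase b).card = 1 := by
    rw [Finset.card_erase_of_mem hb', Finset.card_erase_of_mem hat, h3]
  obtain ⟨c, hc⟩ := Finset.card_eq_one.mp h4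
  have hc' : c ∈ (t.erase a).erase b := by rw [hc]; simp
  simp only [Finset.mem_erase] at hc'
  have h5 : t = {a, b, c} := by
    rw [← Finset.insert_erase hat, ← Finset.insert_erase hb', hc]
  refine ⟨c, hc'.2.1, hc'.1, h5 ▸ htX, ?_⟩
  intro u hu hau hbu
  have h6 : u ∈ X.filter (fun t => a ∈ t ∧ b ∈ t) := Finset.mem_filter.mpr ⟨hu, hau, hbu⟩
  rw [ht, Finset.mem_singleton] at h6
  rw [h6, h5]

theorem Bd.nonempty {L : List V} (h : Bd T o X L) : X.Nonempty := by
  match L, h with
  | [], h => exact absurd h.len (by simp)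
  | a :: l, h =>
    obtain ⟨w, hw⟩ := exists_cy (by have := h.len; omega) (List.mem_cons_self (a := a) (l := l))
    have hne : a ≠ w := ne_of_cy h.nodup (by have := h.len; omega) hw
    have h1 := (h.bd a w hne).mpr hw
    obtain ⟨t, ht, -⟩ := dg_ne_zero.mp (by rw [h1]; exact one_ne_zero)
    exact ⟨t, ht⟩

theorem Bd.rot {a : V} {l : List V} (h : Bd T o X (a :: l)) : Bd T o X (l ++ [a]) := by
  refine ⟨?_, ?_, h.sub, h.out, ?_⟩
  · rw [List.nodup_append_comm]
    simpa using h.nodup
  · have := h.len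
    simpa using this
  · intro x y hxy
    rw [h.bd x y hxy, cy_rot]

theorem Bd.rot' {a : V} {l : List V} (h : Bd T o X (l ++ [a])) : Bd T o X (a :: l) := by
  refine ⟨?_, ?_, h.sub, h.out, ?_⟩
  · have := h.nodup
    rw [List.nodup_append_comm] at this
    simpa using this
  · have := h.len
    simpa using this
  · intro x y hxy
    rw [h.bd x y hxy, cy_rot]

end UPN
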