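import Pool.Agent.Lib.UPN.Defs

/-!
# UPN.EmbB (2 h): embeddings of forests in windows

* `size_app`, `pre_app`, `rpre_app`, `mt_app_le`, `ws_app`: induction on the first forest.
* `split`: induction on the forest: if the first tree is at least as large as `mt rest` take it
  (`L = nil`), otherwise use the induction hypothesis for `rest` (`rest ≠ nil` as `mt rest > 0`) and
  put the first tree in front of `L` (its size is `< mt rest ≤ max (mt L) (max (size gch + 1) (mt R))`
  `= size gch + 1`).
* `Emb.congr`, `Emb.mono`: easy (`List.Pairwise.imp_of_mem`; members of `rpre` are members of `pre`: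
  prove `mem_rpre : v ∈ f.rpre ↔ v ∈ f.pre`).
* `Emb.node`: for `v ∈ ch.pre`: `a < a + 1 ≤ (pos v).1`, `(pos v).2 ≤ b - 1 < b`.
* `Emb.app`: for `u ∈ f.pre`, `v ∈ f'.pre`: `(pos u).1 < (pos u).2 ≤ y < x' ≤ (pos v).1 < (pos v).2`.
* `glue`: `pos v = if v ∈ f.pre then p1 v else p2 v` (classical), `Emb.congr`.
* `forestW`: induction on the forest: the first tree in `[x, x + γ _]`, the others in
  `[x + γ _ + 1, x + γ _ + 1 + ws γ rest]`, `glue`, `Emb.app` (`cons v ch rest = (cons v ch nil).app rest`).
-/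

set_option autoImplicit false

namespace UPN

variable {V : Type}

namespace F

theorem size_app (f f' : F V) : (f.app f').size = f.size + f'.size := by
  induction f with
  | nil => simp [app, size]
  | cons v ch rest _ ih => simp only [app, size, ih]; omega

theorem pre_app (f f' : F V) : (f.app f').pre = f.pre ++ f'.pre := by
  induction f with
  | nil => simp [app, pre]
  | cons v ch rest _ ih => simp [app, pre, ih]

theorem rpre_app (f f' : F V) : (f.app f').rpre = f'.rpre ++ f.rpre := by
  induction f with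
  | nil => simp [app, rpre]
  | cons v ch rest _ ih => simp [app, rpre, ih]

theorem cons_eq_app (v : V) (ch rest : F V) : cons v ch rest = (cons v ch nil).app rest := rfl

theorem length_pre (f : F V) : f.pre.length = f.size := by
  induction f with
  | nil => rfl
  | cons v ch rest ih1 ih2 => simp only [pre, size, List.length_cons, List.length_append, ih1, ih2]

theorem rpre_perm (f : F V) : f.rpre.Perm f.pre := by
  induction f with
  | nil => exact List.Perm.refl _
  | cons v ch rest ih1 ih2 =>
    simp only [pre, rpre]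
    refine List.perm_middle.trans (List.Perm.cons v ?_)
    exact List.perm_append_comm.trans (List.Perm.append ih1 ih2)

theorem mt_le_size (f : F V) : f.mt ≤ f.size := by
  induction f with
  | nil => exact le_rfl
  | cons v ch rest _ ih => simp only [mt, size]; omega

theorem mt_app (f f' : F V) : (f.app f').mt = max f.mt f'.mt := by
  induction f with
  | nil => simp [app, mt]
  | cons v ch rest _ ih => simp only [app, mt, ih]; omega

/-- the largest tree of a forest -/
theorem split (f : F V) (hf : f ≠ nil) : ∃ (L : F V) (w : V) (gch R : F V),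
    f = L.app (cons w gch R) ∧ L.mt ≤ gch.size + 1 ∧ R.mt ≤ gch.size + 1 := by
  induction f with
  | nil => exact absurd rfl hf
  | cons v ch rest _ ih =>
    by_cases h : rest.mt ≤ ch.size + 1
    · exact ⟨nil, v, ch, rest, rfl, Nat.zero_le _, h⟩
    · have hr : rest ≠ nil := by
        rintro rfl
        exact h (Nat.zero_le _)
      obtain ⟨L, w, g, R, e, h1, h2⟩ := ih hr
      refine ⟨cons v ch L, w, g, R, ?_, ?_, h2⟩
      · rw [e]
        rfl
      · rw [e, mt_app] at h
        simp only [mt] at h ⊢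
        omega

end F

theorem Emb.congr {c : ℕ} {f : F V} {pos pos' : V → ℕ × ℕ} {x y : ℕ} (h : Emb c f pos x y)
    (he : ∀ v ∈ f.pre, pos v = pos' v) : Emb c f pos' x y := by
  refine ⟨fun v hv => ?_, fun v hv => ?_, fun v hv => ?_, ?_, ?_⟩
  · rw [← he v hv]; exact h.host v hv
  · rw [← he v hv]; exact h.lo v hv
  · rw [← he v hv]; exact h.hi v hv
  · refine List.Pairwise.imp_of_mem (fun {a b} ha hb hab => ?_) h.pre
    rw [← he a ha, ← he b hb]; exact hab
  · refine List.Pairwise.imp_of_mem (fun {a b} ha hb hab => ?_) h.rpre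
    rw [← he a ((F.rpre_perm f).mem_iff.1 ha), ← he b ((F.rpre_perm f).mem_iff.1 hb)]; exact hab

theorem Emb.mono {c : ℕ} {f : F V} {pos : V → ℕ × ℕ} {x y x' y' : ℕ} (h : Emb c f pos x y)
    (hx : x' ≤ x) (hy : y ≤ y') : Emb c f pos x' y' :=   ⟨h.host, fun v hv => hx.trans (h.lo v hv), fun v hv => (h.hi v hv).trans hy, h.pre, h.rpre⟩

theorem Emb.node {c : ℕ} {u : V} {ch : F V} {pos : V → ℕ × ℕ} {a b : ℕ}
    (h : Emb c ch pos (a + 1) (b - 1)) (hu : pos u = (a, b)) (hh : InHost c (a, b)) :
    Emb c (F.cons u ch .nil) pos a b := by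
  have hab : a < b := hh.1
  have e1 : (F.cons u ch .nil).pre = u :: ch.pre := by simp [F.pre]
  have e2 : (F.cons u ch .nil).rpre = u :: ch.rpre := by simp [F.rpre]
  refine ⟨fun v hv => ?_, fun v hv => ?_, fun v hv => ?_, ?_, ?_⟩
  · rw [e1, List.mem_cons] at hv
    rcases hv with rfl | hv
    · rw [hu]; exact hh
    · exact h.host v hv
  · rw [e1, List.mem_cons] at hv
    rcases hv with rfl | hv
    · rw [hu]
    · have := h.lo v hv; omega
  · rw [e1, List.mem_cons] at hv
    rcases hv with rfl | hv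
    · rw [hu]
    · have := h.hi v hv; omega
  · rw [e1, List.pairwise_cons]
    refine ⟨fun v hv => ?_, h.pre⟩
    have := h.lo v hv
    rw [hu]
    show a < (pos v).1
    omega
  · rw [e2, List.pairwise_cons]
    refine ⟨fun v hv => ?_, h.rpre⟩
    have := h.hi v ((F.rpre_perm ch).mem_iff.1 hv)
    rw [hu]
    show (pos v).2 < b
    omega

theorem Emb.app {c : ℕ} {f f' : F V} {pos : V → ℕ × ℕ} {x y x' y' : ℕ} (h : Emb c f pos x y)
    (h' : Emb c f' pos x' y') (h1 : y < x') (h2 : x ≤ x') (h3 : y ≤ y') :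
    Emb c (f.app f') pos x y' := by
  refine ⟨fun v hv => ?_, fun v hv => ?_, fun v hv => ?_, ?_, ?_⟩
  · rw [F.pre_app, List.mem_append] at hv
    rcases hv with hv | hv
    · exact h.host v hv
    · exact h'.host v hv
  · rw [F.pre_app, List.mem_append] at hv
    rcases hv with hv | hv
    · exact h.lo v hv
    · exact h2.trans (h'.lo v hv)
  · rw [F.pre_app, List.mem_append] at hv
    rcases hv with hv | hv
    · exact (h.hi v hv).trans h3
    · exact h'.hi v hv
  · rw [F.pre_app, List.pairwise_append]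
    refine ⟨h.pre, h'.pre, fun u hu v hv => ?_⟩
    have a1 := (h.host u hu).1
    have a2 := h.hi u hu
    have a3 := h'.lo v hv
    omega
  · rw [F.rpre_app, List.pairwise_append]
    refine ⟨h'.rpre, h.rpre, fun u hu v hv => ?_⟩
    rw [(F.rpre_perm f').mem_iff] at hu
    rw [(F.rpre_perm f).mem_iff] at hv
    have a1 := (h'.host u hu).1
    have a2 := h.hi v hv
    have a3 := h'.lo u hu
    omega

theorem glue {c : ℕ} {f f' : F V} {p1 p2 : V → ℕ × ℕ} {x y x' y' : ℕ} (h : Emb c f p1 x y)
    (h' : Emb c f' p2 x' y') (hd : ∀ v ∈ f.pre, v ∉ f'.pre) :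
    ∃ pos : V → ℕ × ℕ, Emb c f pos x y ∧ Emb c f' pos x' y' ∧
      (∀ v, v ∉ f.pre → pos v = p2 v) := by
  classical
  refine ⟨fun v => if v ∈ f.pre then p1 v else p2 v, ?_, ?_, ?_⟩
  · exact h.congr fun v hv => by rw [if_pos hv]
  · exact h'.congr fun v hv => by rw [if_neg fun h => hd v h hv]
  · intro v hv
    exact if_neg hv

theorem forestW {c : ℕ} (B : ℕ) (γ : ℕ → ℕ)
    (hE : ∀ (v : V) (ch : F V), (F.cons v ch .nil).pre.Nodup → ch.size + 1 ≤ B →
      ∀ x : ℕ, ∃ pos, Emb c (F.cons v ch .nil) pos x (x + γ (ch.size + 1))) :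
    ∀ f : F V, f.pre.Nodup → f.mt ≤ B → ∀ x : ℕ, ∃ pos, Emb c f pos x (x + f.ws γ) := by
  intro f
  induction f with
  | nil =>
    intro _ _ x
    refine ⟨fun _ => (0, 0), ?_, ?_, ?_, ?_, ?_⟩ <;> simp [F.pre, F.rpre]
  | cons v ch rest _ ih =>
    intro hnd hmt x
    have e1 : (F.cons v ch .nil).pre = v :: ch.pre := by simp [F.pre]
    have e2 : (F.cons v ch rest).pre = (F.cons v ch .nil).pre ++ rest.pre := by simp [F.pre]
    rw [e2, List.nodup_append] at hnd
    obtain ⟨n1, n2, n3⟩ := hnd
    simp only [F.mt] at hmt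
    obtain ⟨p1, q1⟩ := hE v ch n1 (by omega) x
    obtain ⟨p2, q2⟩ := ih n2 (by omega) (x + γ (ch.size + 1) + 1)
    obtain ⟨pos, h1, h2, _⟩ := glue q1 q2 (fun u hu hu' => n3 u hu u hu' rfl)
    refine ⟨pos, ?_⟩
    rw [F.cons_eq_app]
    have h3 := Emb.app h1 h2 (by omega) (by omega) (by omega)
    refine h3.mono le_rfl ?_
    have : ((F.cons v ch F.nil).app rest).ws γ = γ (ch.size + 1) + 1 + rest.ws γ := rfl
    rw [this]
    omega

end UPN
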