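import Pool.Agent.Lib.UPN.Defs

/-!
# UPN.NumA (1.5 h): the numerical inequalities for the embedding

`rr q = 1 + 1/q`, `G q m = 2^(4q+4) m (rr q)^(log2 m)`, `g q m = ⌈G q m⌉₊ ≤ G q m + 1`.

* `g_half`: `2 s ≤ m`, `1 ≤ s`: `Nat.log 2 s + 1 ≤ Nat.log 2 m`, so `G q s ≤ (s/m) G q m / rr q`.
* `g_small`: `s 2^(2q) ≤ m`: `Nat.log 2 s + 2q ≤ Nat.log 2 m`; `(rr q)^q ≥ 2` (Bernoulli,
  `one_add_mul_le_pow`), so `(rr q)^(2q) ≥ 4` and `2 G q s ≤ (s/m) G q m / 2 ≤ (s/m) G q m / rr q`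
  as `rr q ≤ 2`.
* `ws_half`, `ws_small`: induction on the forest (all trees have size `≤ mt f`, at least 1).
* `budget`: `k = Nat.clog 2 (g q m)`, `2^k < 2 g q m` (as `g q m ≥ 2`), so
  `2^(k - c) ≤ 1 + 2 g q m / 2^c`, `c = 3q+3` (if `k ≤ c` it is 1; otherwise `2^(k-c) = 2^k / 2^c`).
  `(2^(2q) + 1) * 2 / 2^(3q+3) ≤ 1 / (2 (q+1))` (as `2^q ≥ q + 1`), so
  `2^(k-c) (2^(2q)+1) ≤ 2^(2q) + 1 + (G q m + 1) / (2 (q+1))`, `G q m - G q m / rr q = G q m / (q+1)`,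
  and `G q m / (2 (q+1)) ≥ 2^(3q+3) m ≥ 8 m + 2^(2q) + 2`.
-/

set_option autoImplicit false

namespace UPN

namespace NumAAux

theorem rr_one_le (q : ℕ) : 1 ≤ rr q := by
  unfold rr
  have : (0 : ℝ) ≤ 1 / q := by positivity
  linarith

theorem rr_le_two {q : ℕ} (hq : 1 ≤ q) : rr q ≤ 2 := by
  unfold rr
  have h1 : (1 : ℝ) ≤ q := by exact_mod_cast hq
  have : (1 : ℝ) / q ≤ 1 := by
    rw [div_le_one (by linarith)]
    exact h1
  linarith

theorem rr_pow {q : ℕ} (hq : 1 ≤ q) : 2 ≤ rr q ^ q := by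
  have h1 : (1 : ℝ) ≤ q := by exact_mod_cast hq
  have h2 := one_add_mul_le_pow (a := (1 : ℝ) / q) (by
    have : (0 : ℝ) ≤ 1 / q := by positivity
    linarith) q
  have h3 : (q : ℝ) * (1 / q) = 1 := by
    field_simp
  rw [h3] at h2
  unfold rr
  linarith

theorem G_nonneg (q m : ℕ) : 0 ≤ G q m := by
  unfold G
  have := rr_one_le q
  positivity

theorem g_le (q m : ℕ) : (g q m : ℝ) ≤ G q m + 1 := (Nat.ceil_lt_add_one (G_nonneg q m)).le

theorem G_pow {q m s k : ℕ} (hm : 1 ≤ m) (h : Nat.log 2 s + k ≤ Nat.log 2 m) :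
    G q s * rr q ^ k ≤ G q m / m * s := by
  have h1 := rr_one_le q
  have hm' : (0 : ℝ) < m := by exact_mod_cast hm
  have h2 : rr q ^ (Nat.log 2 s + k) ≤ rr q ^ (Nat.log 2 m) := pow_le_pow_right₀ h1 h
  have e1 : G q s * rr q ^ k = 2 ^ (4 * q + 4) * s * rr q ^ (Nat.log 2 s + k) := by
    unfold G
    rw [pow_add]
    ring
  have e2 : G q m / m * s = 2 ^ (4 * q + 4) * s * rr q ^ (Nat.log 2 m) := by
    unfold G
    field_simp
  rw [e1, e2]
  exact mul_le_mul_of_nonneg_left h2 (by positivity)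

end NumAAux

open NumAAux

theorem g_half {q m s : ℕ} (hq : 1 ≤ q) (hs : 1 ≤ s) (h : 2 * s ≤ m) :
    (g q s : ℝ) + 1 ≤ G q m / rr q / m * s + 2 := by
  have hm : 1 ≤ m := by omega
  have hl : Nat.log 2 s + 1 ≤ Nat.log 2 m := by
    refine Nat.le_log_of_pow_le (by norm_num) ?_
    have := Nat.pow_log_le_self 2 (x := s) (by omega)
    rw [pow_succ]
    omega
  have h1 := G_pow (q := q) hm hl
  have h2 := g_le q s
  have hr := rr_one_le q
  rw [pow_one] at h1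
  have h3 : G q s ≤ G q m / rr q / m * s := by
    have e : G q m / rr q / m * s = (G q m / m * s) / rr q := by ring
    rw [e, le_div_iff₀ (by linarith)]
    exact h1
  linarith

theorem g_small {q m s : ℕ} (hq : 1 ≤ q) (hs : 1 ≤ s) (h : s * 2 ^ (2 * q) ≤ m) :
    2 * ((g q s : ℝ) + 1) ≤ G q m / rr q / m * s + 4 := by
  have h4 : 1 ≤ 2 ^ (2 * q) := Nat.one_le_two_pow
  have hm : 1 ≤ m := by
    have : s * 1 ≤ s * 2 ^ (2 * q) := Nat.mul_le_mul_left _ h4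
    omega
  have hl : Nat.log 2 s + 2 * q ≤ Nat.log 2 m := by
    refine Nat.le_log_of_pow_le (by norm_num) ?_
    have := Nat.pow_log_le_self 2 (x := s) (by omega)
    rw [pow_add]
    exact (Nat.mul_le_mul_right _ this).trans h
  have h1 := G_pow (q := q) hm hl
  have h2 := g_le q s
  have hr := rr_one_le q
  have hr2 := rr_le_two hq
  have hG := G_nonneg q s
  have h5 : (4 : ℝ) ≤ rr q ^ (2 * q) := by
    rw [mul_comm, pow_mul]
    have := rr_pow hq
    nlinarith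
  have h6 : 4 * G q s ≤ G q m / m * s := by
    refine le_trans ?_ h1
    nlinarith
  have h7 : 2 * G q s ≤ G q m / rr q / m * s := by
    have e : G q m / rr q / m * s = (G q m / m * s) / rr q := by ring
    rw [e, le_div_iff₀ (by linarith)]
    nlinarith
  linarith

theorem ws_half {V : Type} {q m : ℕ} (hq : 1 ≤ q) (hm : 1 ≤ m) (f : F V) (h : 2 * f.mt ≤ m) :
    (f.ws (g q) : ℝ) ≤ (G q m / rr q / m + 2) * f.size := by
  induction f with
  | nil => simp [F.ws, F.size]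
  | cons v ch rest _ ih =>
    simp only [F.mt] at h
    have h1 := g_half (q := q) (m := m) (s := ch.size + 1) hq (by omega) (by omega)
    have h2 := ih (by omega)
    simp only [F.ws, F.size]
    push_cast at h1 h2 ⊢
    have h3 : (0 : ℝ) ≤ (ch.size : ℝ) := by positivity
    nlinarith

theorem ws_small {V : Type} {q m : ℕ} (hq : 1 ≤ q) (hm : 1 ≤ m) (f : F V)
    (h : f.mt * 2 ^ (2 * q) ≤ m) :
    2 * (f.ws (g q) : ℝ) ≤ (G q m / rr q / m + 4) * f.size := by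
  induction f with
  | nil => simp [F.ws, F.size]
  | cons v ch rest _ ih =>
    simp only [F.mt] at h
    have a1 : (ch.size + 1) * 2 ^ (2 * q) ≤ m :=
      (Nat.mul_le_mul_right _ (le_max_left _ _)).trans h
    have a2 : rest.mt * 2 ^ (2 * q) ≤ m :=
      (Nat.mul_le_mul_right _ (le_max_right _ _)).trans h
    have h1 := g_small (q := q) (m := m) (s := ch.size + 1) hq (by omega) a1
    have h2 := ih a2
    simp only [F.ws, F.size]
    push_cast at h1 h2 ⊢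
    have h3 : (0 : ℝ) ≤ (ch.size : ℝ) := by positivity
    nlinarith

theorem g_mono {q m m' : ℕ} (h : m ≤ m') : g q m ≤ g q m' := by
  unfold g
  refine Nat.ceil_mono ?_
  unfold G
  have h1 := rr_one_le q
  have h2 : rr q ^ (Nat.log 2 m) ≤ rr q ^ (Nat.log 2 m') := pow_le_pow_right₀ h1 (Nat.log_mono_right h)
  have h3 : (m : ℝ) ≤ m' := by exact_mod_cast h
  have h4 : (0 : ℝ) ≤ rr q ^ (Nat.log 2 m) := by positivity
  gcongr

theorem G_pos {q m : ℕ} (hm : 1 ≤ m) : 0 < G q m := by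
  unfold G
  have := rr_one_le q
  have hm' : (0 : ℝ) < m := by exact_mod_cast hm
  positivity

theorem budget {q m : ℕ} (hq : 1 ≤ q) (hm : 1 ≤ m) :
    G q m / rr q + 8 * m + 2 ^ (Nat.clog 2 (g q m) - (3 * q + 3)) * 2 ^ (2 * q)
      + 2 ^ (Nat.clog 2 (g q m) - (3 * q + 3)) ≤ (g q m : ℝ) := by
  obtain ⟨Y, hY⟩ : ∃ Y : ℝ, Y = 2 ^ q := ⟨_, rfl⟩
  have hq1 : (1 : ℝ) ≤ q := by exact_mod_cast hq
  have hm1 : (1 : ℝ) ≤ m := by exact_mod_cast hm
  have hYq : (q : ℝ) + 1 ≤ Y := by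
    rw [hY]
    exact_mod_cast Nat.lt_two_pow_self (n := q)
  have hY2 : 2 ≤ Y := by linarith
  have hX : (2 : ℝ) ^ (2 * q) = Y ^ 2 := by
    rw [hY, ← pow_mul, mul_comm]
  have hG0 := G_nonneg q m
  have hg1 := g_le q m
  have hg2 : G q m ≤ g q m := Nat.le_ceil _
  have hGm : 16 * Y ^ 4 * m ≤ G q m := by
    have e : (2 : ℝ) ^ (4 * q + 4) = 16 * Y ^ 4 := by
      rw [hY, pow_add, ← pow_mul, mul_comm q 4]
      ring
    unfold G
    rw [e]
    have h1 : 1 ≤ rr q ^ (Nat.log 2 m) := one_le_pow₀ (rr_one_le q)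
    have h2 : 0 ≤ 16 * Y ^ 4 * (m : ℝ) := by positivity
    nlinarith
  have hY4 : (16 : ℝ) ≤ Y ^ 4 := by
    have : (2 : ℝ) ^ 4 ≤ Y ^ 4 := pow_le_pow_left₀ (by norm_num) hY2 4
    linarith
  have hg : 1 < g q m := by
    have : (1 : ℝ) < g q m := by nlinarith
    exact_mod_cast this
  have hk := Nat.pow_pred_clog_lt_self (b := 2) (by norm_num) hg
  have hk0 : 1 ≤ Nat.clog 2 (g q m) := Nat.clog_pos (by norm_num) hg
  obtain ⟨k, hkd⟩ : ∃ k, k = Nat.clog 2 (g q m) := ⟨_, rfl⟩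
  rw [← hkd] at hk hk0 ⊢
  have hk2 : (2 : ℝ) ^ k ≤ 2 * g q m := by
    have e : 2 ^ k = 2 ^ (k.pred) * 2 := by
      rw [← pow_succ]
      congr 1
      rw [Nat.pred_eq_sub_one]
      omega
    have : 2 ^ k ≤ 2 * g q m := by omega
    exact_mod_cast this
  have hP : (2 : ℝ) ^ (k - (3 * q + 3)) ≤ 1 + g q m / (4 * Y ^ 3) := by
    have hnn : (0 : ℝ) ≤ g q m / (4 * Y ^ 3) := by positivity
    by_cases hc : k ≤ 3 * q + 3
    · rw [Nat.sub_eq_zero_of_le hc, pow_zero]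
      linarith
    · have e1 : (2 : ℝ) ^ (k - (3 * q + 3)) * 2 ^ (3 * q + 3) = 2 ^ k := by
        rw [← pow_add]
        congr 1
        omega
      have e2 : (2 : ℝ) ^ (3 * q + 3) = 8 * Y ^ 3 := by
        rw [hY, pow_add, ← pow_mul, mul_comm q 3]
        ring
      have e3 : (2 : ℝ) ^ (k - (3 * q + 3)) ≤ g q m / (4 * Y ^ 3) := by
        rw [le_div_iff₀ (by positivity)]
        rw [e2] at e1
        linarith
      linarith
  obtain ⟨p, hp⟩ : ∃ p : ℝ, p = 2 ^ (k - (3 * q + 3)) := ⟨_, rfl⟩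
  rw [← hp] at hP ⊢
  rw [hX]
  have hrr : G q m / rr q = G q m * q / (q + 1) := by
    unfold rr
    have : (q : ℝ) ≠ 0 := by positivity
    field_simp
  rw [hrr]
  have hPX : p * (Y ^ 2 + 1) ≤ Y ^ 2 + 1 + (G q m + 1) / (2 * (q + 1)) := by
    have s1 : p * (Y ^ 2 + 1) ≤ (1 + g q m / (4 * Y ^ 3)) * (Y ^ 2 + 1) :=
      mul_le_mul_of_nonneg_right hP (by positivity)
    have s2 : (g q m : ℝ) / (4 * Y ^ 3) * (Y ^ 2 + 1) ≤ (G q m + 1) / (2 * (q + 1)) := by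
      have t1 : (g q m : ℝ) / (4 * Y ^ 3) * (Y ^ 2 + 1) ≤ g q m / (2 * Y) := by
        rw [div_mul_eq_mul_div, div_le_div_iff₀ (by positivity) (by positivity)]
        have u1 : (Y ^ 2 + 1) * (2 * Y) ≤ 4 * Y ^ 3 := by nlinarith
        have u2 : (0 : ℝ) ≤ g q m := by positivity
        calc (g q m : ℝ) * (Y ^ 2 + 1) * (2 * Y) = g q m * ((Y ^ 2 + 1) * (2 * Y)) := by ring
          _ ≤ g q m * (4 * Y ^ 3) := mul_le_mul_of_nonneg_left u1 u2
      refine t1.trans ?_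
      refine div_le_div₀ (by positivity) hg1 (by positivity) (by linarith)
    nlinarith
  have hfin : G q m * q / (q + 1) + 8 * m + (Y ^ 2 + 1 + (G q m + 1) / (2 * (q + 1))) ≤ G q m := by
    have hq0 : (0 : ℝ) < q + 1 := by positivity
    have key : (8 * m + Y ^ 2 + 1) * (2 * ((q : ℝ) + 1)) + 1 ≤ G q m := by
      refine le_trans ?_ hGm
      have k1 : (8 * m + Y ^ 2 + 1) * (2 * ((q : ℝ) + 1)) ≤ (8 * m + Y ^ 2 + 1) * (2 * Y) :=
        mul_le_mul_of_nonneg_left (by linarith) (by positivity)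
      have k2 : 16 * m * Y ≤ 2 * (Y ^ 4 * m) := by
        have : (8 : ℝ) ≤ Y ^ 3 := by
          have : (2 : ℝ) ^ 3 ≤ Y ^ 3 := pow_le_pow_left₀ (by norm_num) hY2 3
          linarith
        have : 0 ≤ (m : ℝ) * Y := by positivity
        nlinarith
      have k3 : 2 * Y ^ 3 ≤ Y ^ 4 * m := by
        have a1 : 2 * Y ^ 3 ≤ Y ^ 4 := by
          have : (0 : ℝ) ≤ Y ^ 3 := by positivity
          nlinarith
        have a2 : Y ^ 4 * 1 ≤ Y ^ 4 * m := mul_le_mul_of_nonneg_left hm1 (by positivity)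
        linarith
      have k4 : 2 * Y + 1 ≤ Y ^ 4 * m := by
        have a1 : 2 * Y + 1 ≤ Y ^ 4 := by
          have b1 : (8 : ℝ) ≤ Y ^ 3 := by
            have : (2 : ℝ) ^ 3 ≤ Y ^ 3 := pow_le_pow_left₀ (by norm_num) hY2 3
            linarith
          nlinarith
        have a2 : Y ^ 4 * 1 ≤ Y ^ 4 * m := mul_le_mul_of_nonneg_left hm1 (by positivity)
        linarith
      have k5 : 0 ≤ Y ^ 4 * (m : ℝ) := by positivity
      nlinarith
    have e : G q m * q / (q + 1) + 8 * m + (Y ^ 2 + 1 + (G q m + 1) / (2 * (q + 1))) =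
        (2 * (G q m * q) + (8 * m + Y ^ 2 + 1) * (2 * ((q : ℝ) + 1)) + G q m + 1) /
          (2 * (q + 1)) := by
      field_simp
      ring
    rw [e, div_le_iff₀ (by positivity)]
    nlinarith
  nlinarith

end UPN
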