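import Pool.Agent.Lib.UPN.EmbB
import Pool.Agent.Lib.UPN.NumA

/-!
# UPN.EmbT (3 h): every tree with `m` vertices embeds in every window of length `g q m`

`c = 3q+3`, `Γ = G q m / rr q / m`, `D = 2^(k-c)`, `κ = Γ + 8 + D 2^(2q) / m`.

**spine** (induction on the size `s = ch.size + 1` of the tree `t = cons u ch nil`; the root gets the
interval `(a, b)`):
* `ch = nil`: `pos u = (a, b)` (`a < b` because `κ > 0`; `InHost` by `k`).
* otherwise `ch = L.app (cons w gch R)` by `F.split`.  `s' = gch.size + 1`,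
  `s = 1 + L.size + s' + R.size`; `2 L.mt ≤ L.size + s' < s ≤ m`, similarly for `R`.
  `p = 2 + ws L`, `p' = 2 + ws R` (`ws = F.ws (g q)`).
  - small case `L.mt 2^(2q) ≤ m` and `R.mt 2^(2q) ≤ m`: `δ = max p p'`, `a' = a + δ`, `b' = b - δ`
    (so `a' + b' = a + b`); `2 δ ≤ 2 (p + p') = 8 + 2 ws L + 2 ws R ≤ 8 + (Γ+4) (L.size + R.size)
    ≤ κ (s - s')` by `ws_small`.
  - big case: `L.size + R.size ≥ max L.mt R.mt > m / 2^(2q)`, so
    `D ≤ (D 2^(2q) / m) (L.size + R.size)`.  `b' = b - p'`, `a' = a + p + r` with `r < D`,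
    `D ∣ a' + b'`.  `p + p' + r ≤ 4 + (Γ+2)(L.size + R.size) + D ≤ κ (s - s')` by `ws_half`.
  In both cases `κ s' ≤ b' - a'` (in particular the natural subtractions are harmless).
  `L` is embedded in `[a+1, a+1+ws L]` and `R` in `[b'+1, b'+1+ws R]` by `forestW` (`hE`; all their trees
  have size `≤ m/2`), `cons w gch nil` in `[a', b']` by induction; `glue` twice, `Emb.app` twice
  (`a+1+ws L < a'`, `b' < b'+1`, `b'+1+ws R ≤ b-1`), `Emb.node`.

**embed_tree**: strong induction on `m`; `hE` of `spine` is the induction hypothesis; `W = g q m`,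
`k = Nat.clog 2 W`, `W ≤ 2^k`, `D = 2^(k-c)`; `a = x + r`, `b = x + W` with `r < D` and `D ∣ a + b`
(`r ≤ D - 1`); `κ m = G q m / rr q + 8 m + D 2^(2q) ≤ W - D ≤ b - a` by `budget`.
-/

set_option autoImplicit false

namespace UPN

variable {V : Type}

namespace EmbTAux

lemma exists_r {D : ℕ} (hD : 0 < D) (n : ℕ) : ∃ r, r < D ∧ D ∣ n + r := by
  rcases Nat.eq_zero_or_pos (n % D) with h | h
  · exact ⟨0, hD, by simpa using Nat.dvd_of_mod_eq_zero h⟩
  · have h1 := Nat.div_add_mod n D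
    have h2 := Nat.mod_lt n hD
    refine ⟨D - n % D, by omega, ⟨n / D + 1, ?_⟩⟩
    rw [Nat.mul_add, mul_one]
    omega

lemma emb_nil {c : ℕ} {pos : V → ℕ × ℕ} {x y : ℕ} : Emb c (F.nil : F V) pos x y :=
  ⟨fun v hv => by simp [F.pre] at hv, fun v hv => by simp [F.pre] at hv,
    fun v hv => by simp [F.pre] at hv, List.Pairwise.nil, List.Pairwise.nil⟩

lemma assemble {c : ℕ} {u w : V} {L gch R : F V} {a b a' b' : ℕ} {p1 p2 p3 : V → ℕ × ℕ} {l r : ℕ}
    (hnd : (F.cons u (L.app (F.cons w gch R)) .nil).pre.Nodup)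
    (hh : InHost c (a, b))
    (h1 : Emb c L p1 (a + 1) (a + 1 + l)) (h2 : Emb c (F.cons w gch .nil) p2 a' b')
    (h3 : Emb c R p3 (b' + 1) (b' + 1 + r)) (ha : a + 1 + l < a') (hab : a' ≤ b')
    (hb : b' + 1 + r ≤ b - 1) :
    ∃ pos, Emb c (F.cons u (L.app (F.cons w gch R)) .nil) pos a b := by
  classical
  have hn := hnd
  rw [F.cons_eq_app w gch R] at hn ⊢
  simp only [F.pre, F.pre_app, List.append_nil] at hn
  rw [List.nodup_cons] at hn
  obtain ⟨hu, hn⟩ := hn
  rw [List.nodup_append] at hn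
  obtain ⟨-, hn2, hn3⟩ := hn
  rw [List.nodup_append] at hn2
  obtain ⟨-, -, hn4⟩ := hn2
  -- glue the middle tree and `R`
  obtain ⟨q1, hq1, hq2, -⟩ := glue h2 h3 (by
    intro v hv hv'
    simp only [F.pre, List.append_nil] at hv
    exact hn4 v hv v hv' rfl)
  have hm := Emb.app hq1 hq2 (by omega) (by omega) (by omega)
  obtain ⟨q3, hq3, hq4, -⟩ := glue h1 hm (by
    intro v hv hv'
    simp only [F.pre, F.pre_app, List.append_nil] at hv'
    exact hn3 v hv v hv' rfl)
  have hm2 := Emb.app hq3 hq4 (by omega) (by omega) (by omega)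
  have hm3 : Emb c (L.app ((F.cons w gch .nil).app R)) q3 (a + 1) (b - 1) :=
    hm2.mono (by omega) (by omega)
  refine ⟨Function.update q3 u (a, b), Emb.node (a := a) (b := b) (hm3.congr fun v hv => ?_)
    (Function.update_self _ _ _) hh⟩
  have hvu : v ≠ u := by
    rintro rfl
    simp only [F.pre, F.pre_app, List.append_nil] at hv
    exact hu hv
  rw [Function.update_of_ne hvu]

/-- the numerical step of the spine, with real parameters -/
lemma num_step {κ Γ e : ℝ} {s s' nL nR a b : ℝ} (hκ : κ = Γ + 8 + e) (he : 0 ≤ e) (hΓ : 0 ≤ Γ)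
    (hs : s = 1 + nL + s' + nR) (hb : κ * s ≤ b - a) :
    κ * s' + 8 + (Γ + 8) * (nL + nR) + e * (nL + nR) ≤ b - a := by
  subst hs hκ
  nlinarith

end EmbTAux

open EmbTAux in
theorem spine {q m k : ℕ} (hq : 1 ≤ q) (hm : 1 ≤ m)
    (hE : ∀ (v : V) (ch : F V), (F.cons v ch .nil).pre.Nodup → 2 * (ch.size + 1) ≤ m →
      ∀ x : ℕ, ∃ pos, Emb (3 * q + 3) (F.cons v ch .nil) pos x (x + g q (ch.size + 1))) :
    ∀ (s : ℕ) (u : V) (ch : F V), ch.size + 1 = s → s ≤ m → (F.cons u ch .nil).pre.Nodup →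
      ∀ a b : ℕ, 2 ^ (k - (3 * q + 3)) ∣ a + b → b ≤ a + 2 ^ k →
        (G q m / rr q / m + 8 + 2 ^ (k - (3 * q + 3)) * 2 ^ (2 * q) / m) * s ≤ (b : ℝ) - a →
        ∃ pos, Emb (3 * q + 3) (F.cons u ch .nil) pos a b := by
  have hm0 : (0 : ℝ) < m := by exact_mod_cast hm
  have hrr : 0 < rr q := by unfold rr; positivity
  have hΓ : 0 ≤ G q m / rr q / m := (div_pos (div_pos (G_pos hm) hrr) hm0).le
  set Γ : ℝ := G q m / rr q / m with hΓd
  have he : (0 : ℝ) ≤ 2 ^ (k - (3 * q + 3)) * 2 ^ (2 * q) / m := by positivity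
  set e : ℝ := 2 ^ (k - (3 * q + 3)) * 2 ^ (2 * q) / m with hed
  set κ : ℝ := Γ + 8 + e with hκd
  have hκ : 0 < κ := by positivity
  intro s
  induction s using Nat.strong_induction_on with
  | _ s ih =>
  intro u ch hs hsm hnd a b hD hk hb
  have hs1 : (1 : ℝ) ≤ s := by
    have : 1 ≤ s := by omega
    exact_mod_cast this
  have hab : a < b := by
    have h1 : (0 : ℝ) < (b : ℝ) - a := lt_of_lt_of_le (by positivity) hb
    have h2 : (a : ℝ) < b := by linarith
    exact_mod_cast h2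
  have hh : InHost (3 * q + 3) (a, b) := ⟨hab, k, hk, hD⟩
  by_cases hch : ch = F.nil
  · subst hch
    exact ⟨fun _ => (a, b), Emb.node emb_nil rfl hh⟩
  obtain ⟨L, w, gch, R, rfl, hL, hR⟩ := F.split ch hch
  have hsize : s = 1 + L.size + (gch.size + 1) + R.size := by
    rw [F.size_app, F.size] at hs
    omega
  have hLs := F.mt_le_size L
  have hRs := F.mt_le_size R
  have hnd' := hnd
  rw [F.cons_eq_app w gch R] at hnd'
  simp only [F.pre, F.pre_app, List.append_nil] at hnd'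
  rw [List.nodup_cons, List.nodup_append, List.nodup_append] at hnd'
  obtain ⟨-, hndL, ⟨hndw, hndR, -⟩, -⟩ := hnd'
  have hndw' : (F.cons w gch .nil).pre.Nodup := by
    simpa only [F.pre, List.append_nil] using hndw
  have hE' : ∀ (v : V) (ch : F V), (F.cons v ch .nil).pre.Nodup → ch.size + 1 ≤ m / 2 →
      ∀ x : ℕ, ∃ pos, Emb (3 * q + 3) (F.cons v ch .nil) pos x (x + g q (ch.size + 1)) :=
    fun v ch h1 h2 x => hE v ch h1 (by omega) x
  have hbud := num_step (s := (s : ℝ)) (s' := ((gch.size + 1 : ℕ) : ℝ)) (nL := (L.size : ℝ))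
    (nR := (R.size : ℝ)) hκd he hΓ (by rw [hsize]; push_cast; ring) hb
  have hLe := ws_half (V := V) hq hm L (by omega)
  have hRe := ws_half (V := V) hq hm R (by omega)
  -- it is enough to find `a'`, `b'`
  suffices H : ∃ a' b' : ℕ, a + 2 + L.ws (g q) ≤ a' ∧ b' + 2 + R.ws (g q) ≤ b ∧
      2 ^ (k - (3 * q + 3)) ∣ a' + b' ∧ κ * ((gch.size + 1 : ℕ) : ℝ) ≤ (b' : ℝ) - a' by
    obtain ⟨a', b', ha', hb', hD', hκ'⟩ := H
    have hab' : a' ≤ b' := by
      have h1 : (0 : ℝ) ≤ (b' : ℝ) - a' := le_trans (by positivity) hκ'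
      have h2 : (a' : ℝ) ≤ b' := by linarith
      exact_mod_cast h2
    obtain ⟨p2, h2⟩ := ih (gch.size + 1) (by omega) w gch rfl (by omega) hndw' a' b' hD'
      (by omega) hκ'
    obtain ⟨p1, h1⟩ := forestW (m / 2) (g q) hE' L hndL (by omega) (a + 1)
    obtain ⟨p3, h3⟩ := forestW (m / 2) (g q) hE' R hndR (by omega) (b' + 1)
    exact assemble hnd hh h1 h2 h3 (by omega) hab' (by omega)
  have hge : (0 : ℝ) ≤ κ * ((gch.size + 1 : ℕ) : ℝ) := by positivity
  by_cases hsmall : L.mt * 2 ^ (2 * q) ≤ m ∧ R.mt * 2 ^ (2 * q) ≤ m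
  · -- small case
    have hLe' := ws_small (V := V) hq hm L hsmall.1
    have hRe' := ws_small (V := V) hq hm R hsmall.2
    set δ : ℕ := max (2 + L.ws (g q)) (2 + R.ws (g q)) with hδ
    have hδ1 : 2 + L.ws (g q) ≤ δ := le_max_left _ _
    have hδ2 : 2 + R.ws (g q) ≤ δ := le_max_right _ _
    have hδ3 : δ ≤ (2 + L.ws (g q)) + (2 + R.ws (g q)) := by omega
    have hδr : (δ : ℝ) ≤ 4 + L.ws (g q) + R.ws (g q) := by
      have : (δ : ℝ) ≤ (((2 + L.ws (g q)) + (2 + R.ws (g q)) : ℕ) : ℝ) := by exact_mod_cast hδ3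
      push_cast at this
      linarith
    have hfin : κ * ((gch.size + 1 : ℕ) : ℝ) + 2 * δ ≤ (b : ℝ) - a := by
      have hn : (0 : ℝ) ≤ (L.size : ℝ) + R.size := by positivity
      have h1 : 0 ≤ e * ((L.size : ℝ) + R.size) := mul_nonneg he hn
      nlinarith
    have hδb : a + 2 * δ ≤ b := by
      have h1 : (a : ℝ) + 2 * δ ≤ b := by linarith
      exact_mod_cast h1
    refine ⟨a + δ, b - δ, by omega, by omega, ?_, ?_⟩
    · have : a + δ + (b - δ) = a + b := by omega
      rw [this]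
      exact hD
    · rw [Nat.cast_sub (by omega)]
      push_cast at hfin ⊢
      linarith
  · -- big case
    have hbig : m < (L.size + R.size) * 2 ^ (2 * q) := by
      rw [not_and_or, not_le, not_le] at hsmall
      rcases hsmall with h | h
      · exact h.trans_le (Nat.mul_le_mul_right _ (by omega))
      · exact h.trans_le (Nat.mul_le_mul_right _ (by omega))
    have hDe : (2 : ℝ) ^ (k - (3 * q + 3)) ≤ e * ((L.size : ℝ) + R.size) := by
      have h1 : (m : ℝ) ≤ ((L.size : ℝ) + R.size) * 2 ^ (2 * q) := by exact_mod_cast hbig.le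
      rw [hed, div_mul_eq_mul_div, le_div_iff₀ hm0]
      have h2 : (0 : ℝ) < 2 ^ (k - (3 * q + 3)) := by positivity
      nlinarith
    have hDpos : 0 < 2 ^ (k - (3 * q + 3)) := by positivity
    have hfin : κ * ((gch.size + 1 : ℕ) : ℝ) + (2 + L.ws (g q)) + (2 + R.ws (g q))
        + 2 ^ (k - (3 * q + 3)) ≤ (b : ℝ) - a := by
      have hn : (0 : ℝ) ≤ (L.size : ℝ) + R.size := by positivity
      nlinarith
    have hpb : a + (2 + L.ws (g q)) + (2 + R.ws (g q)) ≤ b := by
      have h1 : (a : ℝ) + (2 + L.ws (g q)) + (2 + R.ws (g q)) ≤ b := by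
        have : (0 : ℝ) < 2 ^ (k - (3 * q + 3)) := by positivity
        linarith
      exact_mod_cast h1
    obtain ⟨r, hr, hrD⟩ := exists_r hDpos (a + (2 + L.ws (g q)) + (b - (2 + R.ws (g q))))
    refine ⟨a + (2 + L.ws (g q)) + r, b - (2 + R.ws (g q)), by omega, by omega, ?_, ?_⟩
    · have : a + (2 + L.ws (g q)) + r + (b - (2 + R.ws (g q))) =
        a + (2 + L.ws (g q)) + (b - (2 + R.ws (g q))) + r := by ring
      rw [this]
      exact hrD
    · rw [Nat.cast_sub (by omega)]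
      have hr' : (r : ℝ) ≤ 2 ^ (k - (3 * q + 3)) := by exact_mod_cast hr.le
      push_cast at hfin ⊢
      linarith

open EmbTAux in
theorem embed_tree {q : ℕ} (hq : 1 ≤ q) (u : V) (ch : F V) (h : (F.cons u ch .nil).pre.Nodup)
    (x : ℕ) : ∃ pos, Emb (3 * q + 3) (F.cons u ch .nil) pos x (x + g q (ch.size + 1)) := by
  suffices H : ∀ (m : ℕ) (u : V) (ch : F V), ch.size + 1 = m → (F.cons u ch .nil).pre.Nodup →
      ∀ x : ℕ, ∃ pos, Emb (3 * q + 3) (F.cons u ch .nil) pos x (x + g q m) from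
    H _ u ch rfl h x
  intro m
  induction m using Nat.strong_induction_on with
  | _ m ih =>
  intro u ch hch hnd x
  have hm : 1 ≤ m := by omega
  have hm0 : (0 : ℝ) < m := by exact_mod_cast hm
  set W := g q m with hW
  set k := Nat.clog 2 W with hk
  have hWk : W ≤ 2 ^ k := Nat.le_pow_clog (by norm_num) W
  have hbud := budget hq hm
  rw [← hW, ← hk] at hbud
  have hDpos : 0 < 2 ^ (k - (3 * q + 3)) := by positivity
  obtain ⟨r, hr, hrD⟩ := exists_r hDpos (x + (x + W))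
  have hr' : (r : ℝ) ≤ 2 ^ (k - (3 * q + 3)) := by exact_mod_cast hr.le
  have hG := G_pos (q := q) hm
  have hrr : 0 < rr q := by unfold rr; positivity
  have hrW : r ≤ W := by
    have h1 : (r : ℝ) ≤ W := by
      have h2 : (0 : ℝ) ≤ G q m / rr q := (div_pos hG hrr).le
      have h3 : (0 : ℝ) ≤ (2 : ℝ) ^ (k - (3 * q + 3)) * 2 ^ (2 * q) := by positivity
      linarith
    exact_mod_cast h1
  have hE : ∀ (v : V) (ch : F V), (F.cons v ch .nil).pre.Nodup → 2 * (ch.size + 1) ≤ m →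
      ∀ x : ℕ, ∃ pos, Emb (3 * q + 3) (F.cons v ch .nil) pos x (x + g q (ch.size + 1)) :=
    fun v ch h1 h2 x => ih (ch.size + 1) (by omega) v ch rfl h1 x
  obtain ⟨pos, hpos⟩ := spine (k := k) hq hm hE m u ch hch le_rfl hnd (x + r) (x + W)
    (by
      have : x + r + (x + W) = x + (x + W) + r := by ring
      rw [this]
      exact hrD) (by omega) (by
      have h1 : (G q m / rr q / m + 8 + 2 ^ (k - (3 * q + 3)) * 2 ^ (2 * q) / m) * m =
          G q m / rr q + 8 * m + 2 ^ (k - (3 * q + 3)) * 2 ^ (2 * q) := by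
        field_simp
      rw [h1]
      push_cast
      linarith)
  exact ⟨pos, hpos.mono (by omega) le_rfl⟩

end UPN
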