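import Pool.Agent.Lib.UPN.DiscB

/-!
# UPN.Fan (2.5 h): removing a boundary vertex without chords

**fanAux**, by induction on `X.card`, for `Bd T o X (a :: v :: b :: S)` with `dg X v w = 0` for `w ∈ S`:
there are `M` and `X' ⊆ X` such that no triangle of `X'` contains `v`; every triangle of `X` at `v` is
`{v, p, p'}` with `p, p'` consecutive in `a :: M ++ [b]`; every triangle of `X` not containing `v` is in
`X'`; and `X' = ∅ ∧ M = [] ∧ S = []`, or `Bd T o X' (a :: (M ++ b :: S))`.
Proof: `dg X a v = 1` (`cy_at`), let `t = {a, v, a1}` be the unique triangle (`third`), `X1 = X.erase t`.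
* `a1 = b`: `dg X1 v a = dg X1 v b = 0` and `dg X1 v w = dg X v w ∈ {0, 2}` for the other `w`
  (`cy_at`), so `closed_at`: no triangle of `X1` contains `v` (`t ∈ T` contains `v` and is not in `X1`).
  `M = []`, `X' = X1`.  If `S = []`: the boundary of `X` is `{a v, v b, b a}`, all three are edges of `t`,
  so `X1` has no boundary (`dg X1 a b = dg X a b - 1 = 0`), `closed`: `X1 = ∅` (`o ∉ X1`, `o ∈ T`).
  If `S ≠ []`: `s(a, b)` is not in `cy (a :: v :: b :: S)` (nodup), `dg X a b ≥ 1`, so `dg X a b = 2` and
  `dg X1 a b = 1`; the boundary of `X1` is that of `X` without `a v, v b` and with `a b`.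
* `a1 ≠ b`: `a1 ∉ S` (`hno`), so `a1` is not on the polygon.  `dg X a a1 ≥ 1`, not a boundary edge, so 2,
  `dg X1 a a1 = 1`; similarly `dg X1 a1 v = 1`, `dg X1 a v = 0`:
  `Bd T o X1 (a :: a1 :: v :: b :: S)`, rotated: `Bd T o X1 (a1 :: v :: b :: (S ++ [a]))`; the induction
  hypothesis (`dg X1 v a = 0`) gives `M'` and `X'` with `Bd T o X' (a1 :: (M' ++ b :: (S ++ [a])))`
  (`S ++ [a] ≠ []`), rotate back with `Bd.rot'`: `Bd T o X' (a :: (a1 :: M' ++ b :: S))`, `M = a1 :: M'`.

**fan** follows: an edge `p p'` of `X` (`dg X p p' ≠ 0`) lies in a triangle `t`; if `v ∉ t` then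
`t ∈ X'`; otherwise it is an edge `v z`, `z ∈ a :: M ++ [b]`, or consecutive in `a :: M ++ [b]`, then it is a
boundary edge of `X'` or (`X' = ∅`, `M = []`) it is `s(a, b)`.
-/

set_option autoImplicit false

namespace UPN

variable {V : Type} [DecidableEq V] {T X : Finset (Finset V)} {o : Finset V}

/-- two different members of a triangle form one of its three edges -/
private theorem pair_cases {x y z p q : V} (hpq : p ≠ q) (hp : p ∈ ({x, y, z} : Finset V))
    (hq : q ∈ ({x, y, z} : Finset V)) : s(p, q) = s(x, y) ∨ s(p, q) = s(y, z) ∨ s(p, q) = s(x, z) := by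
  simp only [Finset.mem_insert, Finset.mem_singleton] at hp hq
  rcases hp with rfl | rfl | rfl <;> rcases hq with rfl | rfl | rfl
  · exact absurd rfl hpq
  · left; rfl
  · right; right; rfl
  · left; exact Sym2.eq_swap
  · exact absurd rfl hpq
  · right; left; rfl
  · right; right; exact Sym2.eq_swap
  · right; left; exact Sym2.eq_swap
  · exact absurd rfl hpq

/-- if `dg X x y` depends only on `s(x, y)` -/
private theorem dg_sym (X : Finset (Finset V)) {p q x y : V} (h : s(p, q) = s(x, y)) :
    dg X p q = dg X x y := by
  rw [Sym2.eq_iff] at h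
  rcases h with ⟨rfl, rfl⟩ | ⟨rfl, rfl⟩
  · rfl
  · exact dg_comm X _ _

private theorem mem_of_sym {t : Finset V} {p q x y : V} (h : s(p, q) = s(x, y)) (hx : x ∈ t)
    (hy : y ∈ t) : p ∈ t ∧ q ∈ t := by
  rw [Sym2.eq_iff] at h
  rcases h with ⟨rfl, rfl⟩ | ⟨rfl, rfl⟩
  · exact ⟨hx, hy⟩
  · exact ⟨hy, hx⟩

private theorem fanAux (hT : Sph T) : ∀ (n : ℕ) (X : Finset (Finset V)), X.card ≤ n →
    ∀ (a v b : V) (S : List V), Bd T o X (a :: v :: b :: S) → (∀ w ∈ S, dg X v w = 0) →
    ∃ (M : List V) (X' : Finset (Finset V)), X' ⊆ X ∧ (∀ t ∈ X', v ∉ t) ∧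
      (∀ t ∈ X, v ∉ t → t ∈ X') ∧
      (∀ t ∈ X, v ∈ t → ∃ p p', s(p, p') ∈ es (a :: (M ++ [b])) ∧ t = {v, p, p'}) ∧
      ((M = [] ∧ S = [] ∧ X' = ∅) ∨ Bd T o X' (a :: (M ++ b :: S))) := by
  intro n
  induction n with
  | zero =>
    intro X hX a v b S h _
    have h1 := h.nonempty
    have h2 : X = ∅ := Finset.card_eq_zero.mp (by omega)
    rw [h2] at h1
    simp at h1
  | succ n ih =>
    intro X hX a v b S h hno
    have hnd := h.nodup
    have hnd' := hnd
    simp only [List.nodup_cons, List.mem_cons, not_or] at hnd'
    obtain ⟨⟨hav, hab, haS⟩, ⟨hvb, hvS⟩, hbS, hS⟩ := hnd'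
    -- the polygon
    have hcy : cy (a :: v :: b :: S) = s(a, v) :: s(v, b) :: es (b :: (S ++ [a])) := by
      simp [cy, es]
    have hvE : ∀ w, s(v, w) ∉ es (b :: (S ++ [a])) := by
      intro w hw
      obtain ⟨h3, -⟩ := mem_of_es hw
      simp only [List.mem_cons, List.mem_append, List.not_mem_nil, or_false] at h3
      rcases h3 with h3 | h3 | h3
      · exact hvb h3
      · exact hvS h3
      · exact hav h3.symm
    have hdav : dg X a v = 1 := (h.bd a v hav).mpr (by rw [hcy]; simp)
    have hdvb : dg X v b = 1 := (h.bd v b hvb).mpr (by rw [hcy]; simp)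
    obtain ⟨a1, ha1a, ha1v, htX, huniq⟩ := third hT h.sub hav hdav
    set t : Finset V := {a, v, a1} with ht
    have hat : a ∈ t := by simp [ht]
    have hvt : v ∈ t := by simp [ht]
    have ha1t : a1 ∈ t := by simp [ht]
    have hX1X : X.erase t ⊆ X := Finset.erase_subset _ _
    have hX1T : X.erase t ⊆ T := hX1X.trans h.sub
    have hX1c : (X.erase t).card ≤ n := by
      rw [Finset.card_erase_of_mem htX]
      omega
    have htT : t ∈ T := h.sub htX
    have hX1o : o ∉ X.erase t := fun h1 => h.out (hX1X h1)
    by_cases hcase : a1 = b
    · -- first case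
      subst hcase
      have hnov : ∀ t' ∈ X.erase t, v ∉ t' := by
        have h1 := closed_at hT hX1T v (by
          intro w hwv
          rw [dg_erase X htX]
          by_cases hw : w ∈ t
          · rw [if_pos ⟨hvt, hw⟩]
            simp only [ht, Finset.mem_insert, Finset.mem_singleton] at hw
            rcases hw with rfl | rfl | rfl
            · rw [dg_comm, hdav]; omega
            · exact absurd rfl hwv
            · rw [hdvb]; omega
          · rw [if_neg (fun h2 => hw h2.2), Nat.sub_zero]
            intro h2
            rw [h.bd v w hwv.symm, cy_at hnd] at h2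
            rcases h2 with rfl | rfl
            · exact hw hat
            · exact hw ha1t)
        rcases h1 with h1 | h1
        · exact h1
        · exact absurd (h1 t htT hvt) (Finset.notMem_erase _ _)
      refine ⟨[], X.erase t, hX1X, hnov, ?_, ?_, ?_⟩
      · intro t' ht' hv'
        refine Finset.mem_erase.mpr ⟨?_, ht'⟩
        rintro rfl
        exact hv' hvt
      · intro t' ht' hv'
        have h1 : t' = t := by
          by_contra h2
          exact hnov t' (Finset.mem_erase.mpr ⟨h2, ht'⟩) hv'
        refine ⟨a, a1, by simp [es], ?_⟩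
        rw [h1, ht]
        ext z
        simp only [Finset.mem_insert, Finset.mem_singleton]
        tauto
      · by_cases hS0 : S = []
        · left
          refine ⟨rfl, hS0, ?_⟩
          subst hS0
          have h1 := closed hT hX1T (by
            intro x y hxy
            rw [dg_erase X htX]
            by_cases hxt : x ∈ t ∧ y ∈ t
            · rw [if_pos hxt]
              have h2 : dg X x y = 1 := by
                rw [h.bd x y hxy, hcy]
                rcases pair_cases hxy hxt.1 hxt.2 with h3 | h3 | h3 <;> rw [h3]
                · simp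
                · simp
                · simp only [List.nil_append, es, List.mem_cons]
                  right; right; left
                  exact Sym2.eq_swap
              rw [h2]; omega
            · rw [if_neg hxt, Nat.sub_zero]
              intro h2
              rw [h.bd x y hxy] at h2
              obtain ⟨h3, h4⟩ := mem_of_cy h2
              apply hxt
              simp only [List.mem_cons, List.not_mem_nil, or_false] at h3 h4
              simp only [ht, Finset.mem_insert, Finset.mem_singleton]
              exact ⟨h3, h4⟩)
          rcases h1 with h1 | h1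
          · exact h1
          · exact absurd (h1 ▸ htT) (Finset.notMem_erase _ _)
        · right
          obtain ⟨c, S', rfl⟩ := List.exists_cons_of_ne_nil hS0
          have hcy' : cy (a :: a1 :: (c :: S')) = s(a, a1) :: es (a1 :: ((c :: S') ++ [a])) := by
            simp [cy, es]
          have habE : s(a, a1) ∉ cy (a :: v :: a1 :: c :: S') := by
            intro h1
            rw [cy_rot] at h1
            have h2 : (v :: a1 :: c :: (S' ++ [a])).Nodup := by
              have : v :: a1 :: c :: (S' ++ [a]) = (v :: a1 :: c :: S') ++ [a] := by simp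
              rw [this, List.nodup_append_comm]
              simpa using hnd
            have h3 := (cy_at h2 a).mp (by
              have : v :: a1 :: c :: (S' ++ [a]) = (v :: a1 :: c :: S') ++ [a] := by simp
              rw [this, Sym2.eq_swap]
              exact h1)
            rcases h3 with h3 | h3
            · exact hav h3
            · exact haS (by rw [h3]; simp)
          have hdab : dg X a a1 = 2 := by
            have h1 : dg X a a1 ≠ 0 := dg_ne_zero.mpr ⟨t, htX, hat, ha1t⟩
            have h2 := dg_le_two hT h.sub hab
            have h3 : dg X a a1 ≠ 1 := fun h4 => habE ((h.bd a a1 hab).mp h4)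
            omega
          show Bd T o (X.erase t) (a :: a1 :: c :: S')
          refine ⟨?_, by simp, hX1T, hX1o, ?_⟩
          · rw [List.nodup_cons] at hnd ⊢
            refine ⟨fun h1 => hnd.1 (List.mem_cons_of_mem _ h1), (List.nodup_cons.mp hnd.2).2⟩
          · intro x y hxy
            rw [dg_erase X htX]
            by_cases hxt : x ∈ t ∧ y ∈ t
            · rw [if_pos hxt]
              rcases pair_cases hxy hxt.1 hxt.2 with h3 | h3 | h3
              · rw [dg_sym X h3, h3, hdav]
                constructor
                · intro h4; omega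
                · intro h4
                  exfalso
                  have h5 := (mem_of_cy h4).2
                  simp only [List.mem_cons] at h5 hvS
                  rcases h5 with h5 | h5 | h5
                  · exact hav h5.symm
                  · exact hvb h5
                  · exact hvS h5
              · rw [dg_sym X h3, h3, hdvb]
                constructor
                · intro h4; omega
                · intro h4
                  exfalso
                  have h5 := (mem_of_cy h4).1
                  simp only [List.mem_cons] at h5 hvS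
                  rcases h5 with h5 | h5 | h5
                  · exact hav h5.symm
                  · exact hvb h5
                  · exact hvS h5
              · rw [dg_sym X h3, h3, hdab]
                constructor
                · intro _
                  rw [hcy']
                  simp
                · intro _; rfl
            · rw [if_neg hxt, Nat.sub_zero, h.bd x y hxy, hcy, hcy']
              simp only [List.mem_cons]
              constructor
              · rintro (h4 | h4 | h4)
                · exact absurd (mem_of_sym h4 hat hvt) hxt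
                · exact absurd (mem_of_sym h4 hvt ha1t) hxt
                · exact Or.inr h4
              · rintro (h4 | h4)
                · exact absurd (mem_of_sym h4 hat ha1t) hxt
                · exact Or.inr (Or.inr h4)
    · -- second case
      have ha1S : a1 ∉ S := by
        intro h1
        exact dg_ne_zero.mpr ⟨t, htX, hvt, ha1t⟩ (hno a1 h1)
      have ha1L : ∀ w, s(a1, w) ∉ cy (a :: v :: b :: S) := by
        intro w hw
        obtain ⟨h3, -⟩ := mem_of_cy hw
        simp only [List.mem_cons] at h3
        rcases h3 with h3 | h3 | h3 | h3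
        · exact ha1a h3
        · exact ha1v h3
        · exact hcase h3
        · exact ha1S h3
      have hd2 : ∀ w, w ≠ a1 → w ∈ t → dg X a1 w = 2 := by
        intro w hw hwt
        have h1 : dg X a1 w ≠ 0 := dg_ne_zero.mpr ⟨t, htX, ha1t, hwt⟩
        have h2 := dg_le_two hT h.sub hw.symm
        have h3 : dg X a1 w ≠ 1 := fun h4 => ha1L w ((h.bd a1 w hw.symm).mp h4)
        omega
      have hcyn : cy (a :: a1 :: v :: b :: S) =
          s(a, a1) :: s(a1, v) :: s(v, b) :: es (b :: (S ++ [a])) := by
        simp [cy, es]
      have hB1 : Bd T o (X.erase t) (a :: a1 :: v :: b :: S) := by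
        refine ⟨?_, by simp, hX1T, hX1o, ?_⟩
        · simp only [List.nodup_cons, List.mem_cons, not_or]
          exact ⟨⟨ha1a.symm, hav, hab, haS⟩, ⟨ha1v, hcase, ha1S⟩, ⟨hvb, hvS⟩, hbS, hS⟩
        · intro x y hxy
          rw [dg_erase X htX]
          by_cases hxt : x ∈ t ∧ y ∈ t
          · rw [if_pos hxt]
            rcases pair_cases hxy hxt.1 hxt.2 with h3 | h3 | h3
            · rw [dg_sym X h3, h3, hdav]
              constructor
              · intro h4; omega
              · intro h4
                exfalso
                rw [hcyn] at h4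
                simp only [List.mem_cons] at h4
                rcases h4 with h4 | h4 | h4 | h4
                · rw [Sym2.eq_iff] at h4
                  rcases h4 with ⟨-, h5⟩ | ⟨h5, -⟩
                  · exact ha1v h5.symm
                  · exact ha1a h5.symm
                · rw [Sym2.eq_iff] at h4
                  rcases h4 with ⟨h5, -⟩ | ⟨h5, -⟩
                  · exact ha1a h5.symm
                  · exact hav h5
                · rw [Sym2.eq_iff] at h4
                  rcases h4 with ⟨h5, -⟩ | ⟨h5, -⟩
                  · exact hav h5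
                  · exact hab h5
                · rw [Sym2.eq_swap] at h4
                  exact hvE a h4
            · rw [dg_sym X h3, h3, dg_comm, hd2 v ha1v.symm hvt]
              constructor
              · intro _
                rw [hcyn, Sym2.eq_swap]
                simp
              · intro _; rfl
            · rw [dg_sym X h3, h3, dg_comm, hd2 a ha1a.symm hat]
              constructor
              · intro _
                rw [hcyn]
                simp
              · intro _; rfl
          · rw [if_neg hxt, Nat.sub_zero, h.bd x y hxy, hcy, hcyn]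
            simp only [List.mem_cons]
            constructor
            · rintro (h4 | h4 | h4)
              · exact absurd (mem_of_sym h4 hat hvt) hxt
              · exact Or.inr (Or.inr (Or.inl h4))
              · exact Or.inr (Or.inr (Or.inr h4))
            · rintro (h4 | h4 | h4 | h4)
              · exact absurd (mem_of_sym h4 hat ha1t) hxt
              · exact absurd (mem_of_sym h4 ha1t hvt) hxt
              · exact Or.inr (Or.inl h4)
              · exact Or.inr (Or.inr h4)
      have hB2 : Bd T o (X.erase t) (a1 :: v :: b :: (S ++ [a])) := by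
        have := hB1.rot
        simpa using this
      obtain ⟨M', X', h1, h2, h3, h4, h5⟩ := ih (X.erase t) hX1c a1 v b (S ++ [a]) hB2 (by
        intro w hw
        rw [List.mem_append, List.mem_singleton] at hw
        rcases hw with hw | rfl
        · have := dg_mono hX1X v w
          rw [hno w hw] at this
          omega
        · rw [dg_erase X htX, if_pos ⟨hvt, hat⟩, dg_comm, hdav])
      refine ⟨a1 :: M', X', h1.trans hX1X, h2, ?_, ?_, ?_⟩
      · intro t' ht' hv'
        refine h3 t' (Finset.mem_erase.mpr ⟨?_, ht'⟩) hv'
        rintro rfl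
        exact hv' hvt
      · intro t' ht' hv'
        by_cases h6 : t' = t
        · refine ⟨a, a1, by simp [es], ?_⟩
          rw [h6, ht]
          ext z
          simp only [Finset.mem_insert, Finset.mem_singleton]
          tauto
        · obtain ⟨p, p', hp, hp'⟩ := h4 t' (Finset.mem_erase.mpr ⟨h6, ht'⟩) hv'
          refine ⟨p, p', ?_, hp'⟩
          simp only [List.cons_append, es, List.mem_cons]
          exact Or.inr hp
      · right
        rcases h5 with ⟨-, h5, -⟩ | h5
        · simp at h5
        · have h6 : a1 :: (M' ++ b :: (S ++ [a])) = (a1 :: (M' ++ b :: S)) ++ [a] := by simp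
          rw [h6] at h5
          have := h5.rot'
          simpa using this

theorem fan (hT : Sph T) (ho : o ∈ T) {a v b : V} {S : List V}
    (h : Bd T o X (a :: v :: b :: S)) (hno : ∀ w ∈ S, dg X v w = 0) :
    ∃ (M : List V) (X' : Finset (Finset V)), X' ⊆ X ∧ v ∉ vs X' ∧ v ∈ vs X ∧
      (∀ z ∈ vs X, z = v ∨ z = a ∨ z = b ∨ z ∈ vs X') ∧
      (∀ p p', p ≠ p' → dg X p p' ≠ 0 → dg X' p p' ≠ 0 ∨ s(p, p') = s(v, a) ∨ s(p, p') = s(v, b) ∨
        (∃ z ∈ M, s(p, p') = s(v, z)) ∨ (M = [] ∧ s(p, p') = s(a, b))) ∧
      ((M = [] ∧ S = [] ∧ X' = ∅) ∨ Bd T o X' (a :: (M ++ b :: S))) := by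
  obtain ⟨M, X', h1, h2, h3, h4, h5⟩ := fanAux hT X.card X le_rfl a v b S h hno
  refine ⟨M, X', h1, ?_, ?_, ?_, ?_, h5⟩
  · intro hv
    obtain ⟨t, ht, hvt⟩ := Finset.mem_biUnion.mp hv
    exact h2 t ht hvt
  · have hav : a ≠ v := by
      rintro rfl
      have := h.nodup
      simp at this
    have h6 : dg X a v = 1 := (h.bd a v hav).mpr (by simp [cy, es])
    obtain ⟨t, ht, -, hvt⟩ := dg_ne_zero.mp (by rw [h6]; exact one_ne_zero)
    exact Finset.mem_biUnion.mpr ⟨t, ht, hvt⟩
  · intro z hz
    obtain ⟨t, ht, hzt⟩ := Finset.mem_biUnion.mp hz
    simp only [id] at hzt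
    by_cases hvt : v ∈ t
    · obtain ⟨p, p', hp, htp⟩ := h4 t ht hvt
      rw [htp] at hzt
      simp only [Finset.mem_insert, Finset.mem_singleton] at hzt
      obtain ⟨h6, h7⟩ := mem_of_es hp
      have h8 : z = v ∨ z ∈ a :: (M ++ [b]) := by
        rcases hzt with rfl | rfl | rfl
        · exact Or.inl rfl
        · exact Or.inr h6
        · exact Or.inr h7
      simp only [List.mem_cons, List.mem_append, List.not_mem_nil, or_false] at h8
      rcases h8 with h8 | h8 | h8 | h8
      · exact Or.inl h8
      · exact Or.inr (Or.inl h8)
      · right; right; right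
        rcases h5 with ⟨h5, -, -⟩ | h5
        · rw [h5] at h8
          simp at h8
        · obtain ⟨w, hw⟩ := exists_cy (v := z) (by have := h5.len; omega)
            (show z ∈ a :: (M ++ b :: S) by simp [h8])
          have hne := ne_of_cy h5.nodup (by have := h5.len; omega) hw
          have h9 := (h5.bd z w hne).mpr hw
          obtain ⟨t', ht', hzt', -⟩ := dg_ne_zero.mp (by rw [h9]; exact one_ne_zero)
          exact Finset.mem_biUnion.mpr ⟨t', ht', hzt'⟩
      · exact Or.inr (Or.inr (Or.inl h8))
    · right; right; right
      exact Finset.mem_biUnion.mpr ⟨t, h3 t ht hvt, hzt⟩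
  · intro p p' hpp hd
    obtain ⟨t, ht, hpt, hpt'⟩ := dg_ne_zero.mp hd
    by_cases hvt : v ∈ t
    · obtain ⟨q, q', hq, htq⟩ := h4 t ht hvt
      rw [htq] at hpt hpt'
      have hmem : ∀ z, z ∈ a :: (M ++ [b]) → s(v, z) = s(v, a) ∨ s(v, z) = s(v, b) ∨
          ∃ z' ∈ M, s(v, z) = s(v, z') := by
        intro z hz
        simp only [List.mem_cons, List.mem_append, List.not_mem_nil, or_false] at hz
        rcases hz with rfl | hz | rfl
        · exact Or.inl rfl
        · exact Or.inr (Or.inr ⟨z, hz, rfl⟩)
        · exact Or.inr (Or.inl rfl)
      obtain ⟨h6, h7⟩ := mem_of_es hq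
      rcases pair_cases hpp hpt hpt' with h8 | h8 | h8
      · rw [h8]
        rcases hmem q h6 with h9 | h9 | h9
        · exact Or.inr (Or.inl h9)
        · exact Or.inr (Or.inr (Or.inl h9))
        · exact Or.inr (Or.inr (Or.inr (Or.inl h9)))
      · rcases h5 with ⟨h5, -, -⟩ | h5
        · right; right; right; right
          refine ⟨h5, ?_⟩
          rw [h8]
          rw [h5] at hq
          simpa [es] using hq
        · left
          have h9 : s(q, q') ∈ cy (a :: (M ++ b :: S)) := by
            have h10 : cy (a :: (M ++ b :: S)) = es ((a :: M) ++ b :: (S ++ [a])) := by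
              simp [cy]
            rw [h10, es_append]
            exact List.mem_append_left _ hq
          have h10 : q ≠ q' := ne_of_cy h5.nodup (by have := h5.len; omega) h9
          rw [dg_sym X' h8, (h5.bd q q' h10).mpr h9]
          exact one_ne_zero
      · rw [h8]
        rcases hmem q' h7 with h9 | h9 | h9
        · exact Or.inr (Or.inl h9)
        · exact Or.inr (Or.inr (Or.inl h9))
        · exact Or.inr (Or.inr (Or.inr (Or.inl h9)))
    · left
      exact dg_ne_zero.mpr ⟨t, h3 t ht hvt, hpt, hpt'⟩

end UPN
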