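import Pool.Agent.Lib.UPN.Defs
import Pool.Agent.Lib.F059.ALocal
import Pool.Agent.Lib.F059.AExt

/-!
# UPN.GDefs: the sphere of a geometric triangulation, definitions
-/

set_option autoImplicit false

namespace UPN

open F059

/-- `A` is a triangulation of the point set `P` in general position, whose points lie in the
triangle `o1 o2 o3` -/
structure Cfg (P : Finset F059.Pt) (A : Finset (Sym2 F059.Pt)) (o1 o2 o3 : F059.Pt) : Prop where
  gp : GenPos P
  tri : Tri P A
  m1 : o1 ∈ P
  m2 : o2 ∈ P
  m3 : o3 ∈ P
  pos : 0 < ori o1 o2 o3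
  inT : ∀ p ∈ P, InT o1 o2 o3 p
  card : 4 ≤ P.card

open Classical in
/-- the triangles: the empty triangles with sides in `A`, and the outer triangle -/
noncomputable def TT (P : Finset F059.Pt) (A : Finset (Sym2 F059.Pt)) (o1 o2 o3 : F059.Pt) :
    Finset (Finset F059.Pt) :=
  (P.powersetCard 3).filter
    (fun t => (∃ a b c, t = {a, b, c} ∧ ET P A a b c) ∨ t = {o1, o2, o3})

/-- a set of points on one side of the line `v a` (`s = 1`: to the left, `s = -1`: to the right) has a
first and a last direction -/
def OneSide (v a : F059.Pt) (s : ℝ) (H : Finset F059.Pt) : Prop := ∀ z ∈ H, 0 < s * ori v a z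

end UPN
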