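import Pool.Agent.Lib.UPN.GLoc

/-!
# UPN.GTwo (2.5 h): every edge lies in exactly two triangles

`T = TT P A o1 o2 o3`.
* `card3`: from the definition.  `edge_of_dg`: if `a ≠ b` are in a triangle of `T` then `s(a,b) ∈ A`: clear for an
  `ET`; for the outer triangle by maximality: no segment with ends in `P` crosses `o1 o2`, as all points of `P` are
  weakly on one side of it (`inT` with `pos`: `0 ≤ ori o1 o2 p` etc.).
* **hull**: if `s(a,b) ∈ A` and no `p ∈ P` has `ori a b p > 0` then `a, b ∈ {o1, o2, o3}`: `bary` with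
  `x y z = o1 o2 o3`, `u v = a b`, `p = a`: `0 = ori o2 o3 a * ori a b o1 + ori o3 o1 a * ori a b o2 +
  ori o1 o2 a * ori a b o3` with nonnegative first factors and nonpositive second factors.  If
  `a ∉ {o1,o2,o3}` the first factors are positive by general position, so `ori a b o_i = 0` for all `i`, so (general
  position) `b = o_i` for all `i`, contradiction.  The same for `b`.
* Let `s(a,b) ∈ A`.  If it is not a pair of the outer triangle there are points of `P` on both sides of `a b` (`hull`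
  for `(a,b)` and `(b,a)`), so by `local_left` there are `ET P A a b c` on the left and `ET P A a b d` on the right,
  and by `ET_unique` every `ET` triangle containing `a, b` is one of them; it is not the outer triangle.  If
  `{a,b} = {o1,o2}` (or cyclically) all other points are strictly to the left of `o1 o2`, there is one
  (`o3`), so exactly one `ET`, and the outer triangle; the latter is not an `ET` since `P` has a fourth point, which
  lies in it.  So `dg T a b = 2`.
* `other`: in both cases, for `t ∈ T` containing `a ≠ b` there is a second triangle.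
-/

set_option autoImplicit false

namespace UPN

open F059

variable {P : Finset F059.Pt} {A : Finset (Sym2 F059.Pt)} {o1 o2 o3 : F059.Pt}

namespace GTwoAux

lemma ori_ne {a b c : F059.Pt} (h : ori a b c ≠ 0) : a ≠ b ∧ a ≠ c ∧ b ≠ c := by
  refine ⟨?_, ?_, ?_⟩
  · rintro rfl; exact h (ori_self_same _ _)
  · rintro rfl; exact h (ori_self_left _ _)
  · rintro rfl; exact h (ori_self_right _ _)

lemma card_three {a b c : F059.Pt} (h : ori a b c ≠ 0) :
    ({a, b, c} : Finset F059.Pt).card = 3 := by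
  obtain ⟨h1, h2, h3⟩ := ori_ne h
  rw [Finset.card_insert_of_notMem (by simp [h1, h2]), Finset.card_pair h3]

lemma set_rot (a b c : F059.Pt) : ({b, c, a} : Finset F059.Pt) = {a, b, c} := by
  ext x; simp only [Finset.mem_insert, Finset.mem_singleton]; tauto

lemma set_swap (a b c : F059.Pt) : ({b, a, c} : Finset F059.Pt) = {a, b, c} := by
  ext x; simp only [Finset.mem_insert, Finset.mem_singleton]; tauto

lemma mem_TT {t : Finset F059.Pt} : t ∈ TT P A o1 o2 o3 ↔ t ∈ P.powersetCard 3 ∧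
    ((∃ a b c, t = {a, b, c} ∧ ET P A a b c) ∨ t = {o1, o2, o3}) := by
  simp only [TT, Finset.mem_filter]

lemma TT_rot : TT P A o2 o3 o1 = TT P A o1 o2 o3 := by
  unfold TT
  rw [set_rot]

lemma nonneg (h : Cfg P A o1 o2 o3) {p : F059.Pt} (hp : p ∈ P) :
    0 ≤ ori o1 o2 p ∧ 0 ≤ ori o2 o3 p ∧ 0 ≤ ori o3 o1 p := by
  have h1 := bary_sum o1 o2 o3 p
  have h2 := h.pos
  rcases h.inT p hp with h3 | ⟨h3, h4, h5⟩
  · exact h3
  · linarith

lemma rot (h : Cfg P A o1 o2 o3) : Cfg P A o2 o3 o1 :=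
  ⟨h.gp, h.tri, h.m2, h.m3, h.m1, by rw [ori_cyc]; exact h.pos, fun p hp => (h.inT p hp).rot,
    h.card⟩

lemma dg_comm (X : Finset (Finset F059.Pt)) (a b : F059.Pt) : dg X a b = dg X b a := by
  unfold dg
  congr 1
  ext t
  simp only [Finset.mem_filter]
  tauto

lemma outer_edge (h : Cfg P A o1 o2 o3) : s(o1, o2) ∈ A := by
  have hne := ori_ne h.pos.ne'
  refine h.tri.2.2 _ (mem_Seg.2 ⟨h.m1, h.m2, hne.1⟩) fun f hf hcr => ?_
  induction f using Sym2.ind with
  | _ u v =>
    obtain ⟨hu, hv, -⟩ := mem_Seg.1 (h.tri.1 hf)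
    have h1 := (SCr_mk.1 hcr).1
    have h2 := (nonneg h hu).1
    have h3 := (nonneg h hv).1
    nlinarith [mul_nonneg h2 h3]

lemma hull_left (h : Cfg P A o1 o2 o3) {a b : F059.Pt} (ha : a ∈ P) (hb : b ∈ P) (hab : a ≠ b)
    (hn : ∀ p ∈ P, ori a b p ≤ 0) {x : F059.Pt} (hx : x ∈ P) (hx0 : ori a b x = 0) :
    x = o1 ∨ x = o2 ∨ x = o3 := by
  by_contra hcon
  push Not at hcon
  obtain ⟨e1, e2, e3⟩ := hcon
  obtain ⟨n1, n2, n3⟩ := ori_ne h.pos.ne'
  have hb1 := bary o1 o2 o3 a b x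
  rw [hx0, mul_zero] at hb1
  obtain ⟨q1, q2, q3⟩ := nonneg h hx
  have p1 : 0 < ori o1 o2 x :=
    lt_of_le_of_ne q1 (Ne.symm (h.gp o1 h.m1 o2 h.m2 x hx n1 e1.symm e2.symm))
  have p2 : 0 < ori o2 o3 x :=
    lt_of_le_of_ne q2 (Ne.symm (h.gp o2 h.m2 o3 h.m3 x hx n3 e2.symm e3.symm))
  have p3 : 0 < ori o3 o1 x :=
    lt_of_le_of_ne q3 (Ne.symm (h.gp o3 h.m3 o1 h.m1 x hx n2.symm e3.symm e1.symm))
  have r1 := hn o1 h.m1
  have r2 := hn o2 h.m2
  have r3 := hn o3 h.m3
  have s1 : ori a b o1 = 0 := by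
    by_contra hc
    have : ori a b o1 < 0 := lt_of_le_of_ne r1 hc
    nlinarith [mul_pos p2 (neg_pos.2 this), mul_nonneg p3.le (neg_nonneg.2 r2),
      mul_nonneg p1.le (neg_nonneg.2 r3)]
  have s2 : ori a b o2 = 0 := by
    by_contra hc
    have : ori a b o2 < 0 := lt_of_le_of_ne r2 hc
    nlinarith [mul_pos p3 (neg_pos.2 this), mul_nonneg p2.le (neg_nonneg.2 r1),
      mul_nonneg p1.le (neg_nonneg.2 r3)]
  have s3 : ori a b o3 = 0 := by
    by_contra hc
    have : ori a b o3 < 0 := lt_of_le_of_ne r3 hc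
    nlinarith [mul_pos p1 (neg_pos.2 this), mul_nonneg p2.le (neg_nonneg.2 r1),
      mul_nonneg p3.le (neg_nonneg.2 r2)]
  -- each of the `o_i` equals `a` or `b`
  have key : ∀ o ∈ P, ori a b o = 0 → o = a ∨ o = b := by
    intro o ho ho0
    by_contra hc
    push Not at hc
    exact h.gp a ha b hb o ho hab hc.1.symm hc.2.symm ho0
  rcases key o1 h.m1 s1 with t1 | t1 <;> rcases key o2 h.m2 s2 with t2 | t2 <;>
    rcases key o3 h.m3 s3 with t3 | t3 <;>
    first
    | exact n1 (t1.trans t2.symm)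
    | exact n2 (t1.trans t3.symm)
    | exact n3 (t2.trans t3.symm)

lemma hull (h : Cfg P A o1 o2 o3) {a b : F059.Pt} (ha : a ∈ P) (hb : b ∈ P) (hab : a ≠ b)
    (hn : ∀ p ∈ P, ori a b p ≤ 0) :
    (a = o1 ∨ a = o2 ∨ a = o3) ∧ (b = o1 ∨ b = o2 ∨ b = o3) :=
  ⟨hull_left h ha hb hab hn ha (ori_self_left _ _),
    hull_left h ha hb hab hn hb (ori_self_right _ _)⟩

lemma not_ET_outer (h : Cfg P A o1 o2 o3) : ¬ ET P A o1 o2 o3 := by
  intro hE
  have h1 : P ⊆ {o1, o2, o3} := by
    intro p hp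
    have := hE.em.2 p hp (h.inT p hp)
    simpa using this
  have h2 := Finset.card_le_card h1
  rw [card_three h.pos.ne'] at h2
  have := h.card
  omega

end GTwoAux

open GTwoAux

theorem Cfg.mem_of_ET (h : Cfg P A o1 o2 o3) {a b c : F059.Pt} (hE : ET P A a b c) :
    {a, b, c} ∈ TT P A o1 o2 o3 := by
  refine mem_TT.2 ⟨Finset.mem_powersetCard.2 ⟨?_, card_three hE.em.1⟩,
    Or.inl ⟨a, b, c, rfl, hE⟩⟩
  intro x hx
  simp only [Finset.mem_insert, Finset.mem_singleton] at hx
  rcases hx with rfl | rfl | rfl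
  · exact hE.ha
  · exact hE.hb
  · exact hE.hc

theorem Cfg.outer_mem (h : Cfg P A o1 o2 o3) : {o1, o2, o3} ∈ TT P A o1 o2 o3 := by
  refine mem_TT.2 ⟨Finset.mem_powersetCard.2 ⟨?_, card_three h.pos.ne'⟩, Or.inr rfl⟩
  intro x hx
  simp only [Finset.mem_insert, Finset.mem_singleton] at hx
  rcases hx with rfl | rfl | rfl
  · exact h.m1
  · exact h.m2
  · exact h.m3

theorem Cfg.card3 (h : Cfg P A o1 o2 o3) : ∀ t ∈ TT P A o1 o2 o3, t.card = 3 := by
  intro t ht
  exact (Finset.mem_powersetCard.1 (mem_TT.1 ht).1).2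

/-- a triangle other than the outer one, seen from two of its vertices -/
theorem Cfg.ET_of_mem (h : Cfg P A o1 o2 o3) {t : Finset F059.Pt} (ht : t ∈ TT P A o1 o2 o3)
    (hto : t ≠ {o1, o2, o3}) {a b : F059.Pt} (hab : a ≠ b) (ha : a ∈ t) (hb : b ∈ t) :
    ∃ c, t = {a, b, c} ∧ ET P A a b c := by
  rcases (mem_TT.1 ht).2 with ⟨x, y, z, rfl, hE⟩ | h2
  · simp only [Finset.mem_insert, Finset.mem_singleton] at ha hb
    rcases ha with rfl | rfl | rfl <;> rcases hb with rfl | rfl | rfl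
    · exact absurd rfl hab
    · exact ⟨z, rfl, hE⟩
    · refine ⟨y, ?_, hE.rot.rot.swap⟩
      ext w; simp only [Finset.mem_insert, Finset.mem_singleton]; tauto
    · refine ⟨z, ?_, hE.swap⟩
      ext w; simp only [Finset.mem_insert, Finset.mem_singleton]; tauto
    · exact absurd rfl hab
    · refine ⟨x, ?_, hE.rot⟩
      ext w; simp only [Finset.mem_insert, Finset.mem_singleton]; tauto
    · refine ⟨y, ?_, hE.rot.rot⟩
      ext w; simp only [Finset.mem_insert, Finset.mem_singleton]; tauto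
    · refine ⟨x, ?_, hE.rot.swap⟩
      ext w; simp only [Finset.mem_insert, Finset.mem_singleton]; tauto
    · exact absurd rfl hab
  · exact absurd h2 hto

theorem Cfg.sub (h : Cfg P A o1 o2 o3) {t : Finset F059.Pt} (ht : t ∈ TT P A o1 o2 o3) :
    t ⊆ P := by
  exact (Finset.mem_powersetCard.1 (mem_TT.1 ht).1).1

theorem Cfg.edge_of_mem (h : Cfg P A o1 o2 o3) {t : Finset F059.Pt} (ht : t ∈ TT P A o1 o2 o3)
    {a b : F059.Pt} (hab : a ≠ b) (ha : a ∈ t) (hb : b ∈ t) : s(a, b) ∈ A := by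
  by_cases hto : t = {o1, o2, o3}
  · subst hto
    have e1 := outer_edge h
    have e2 := outer_edge (rot h)
    have e3 := outer_edge (rot (rot h))
    simp only [Finset.mem_insert, Finset.mem_singleton] at ha hb
    rcases ha with rfl | rfl | rfl <;> rcases hb with rfl | rfl | rfl
    · exact absurd rfl hab
    · exact e1
    · rw [Sym2.eq_swap]; exact e3
    · rw [Sym2.eq_swap]; exact e1
    · exact absurd rfl hab
    · exact e2
    · exact e3
    · rw [Sym2.eq_swap]; exact e2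
    · exact absurd rfl hab
  · obtain ⟨c, _, hE⟩ := h.ET_of_mem ht hto hab ha hb
    exact hE.ab

namespace GTwoAux

lemma third_eq {a b c d : F059.Pt} (hca : a ≠ c) (hcb : b ≠ c)
    (h : ({a, b, c} : Finset F059.Pt) = {a, b, d}) : c = d := by
  have h1 : c ∈ ({a, b, d} : Finset F059.Pt) := by rw [← h]; simp
  simp only [Finset.mem_insert, Finset.mem_singleton] at h1
  rcases h1 with h1 | h1 | h1
  · exact absurd h1.symm hca
  · exact absurd h1.symm hcb
  · exact h1

lemma dg_outer (h : Cfg P A o1 o2 o3) : dg (TT P A o1 o2 o3) o1 o2 = 2 := by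
  obtain ⟨c, hc, hcl⟩ := local_left h.gp h.tri (outer_edge h) h.m3 h.pos
  have h1 : (TT P A o1 o2 o3).filter (fun t => o1 ∈ t ∧ o2 ∈ t) =
      {({o1, o2, c} : Finset F059.Pt), {o1, o2, o3}} := by
    ext t
    simp only [Finset.mem_filter]
    constructor
    · rintro ⟨ht, m1, m2⟩
      by_cases hto : t = {o1, o2, o3}
      · rw [hto]; simp
      · obtain ⟨c', rfl, hE⟩ := h.ET_of_mem ht hto (ori_ne h.pos.ne').1 m1 m2
        have h2 : 0 < ori o1 o2 c' :=
          lt_of_le_of_ne (nonneg h hE.hc).1 (Ne.symm hE.em.1)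
        have h3 := ET_unique h.gp h.tri hc hE (mul_pos hcl h2)
        rw [h3]; simp
    · intro ht
      rw [Finset.mem_insert, Finset.mem_singleton] at ht
      rcases ht with rfl | rfl
      · exact ⟨h.mem_of_ET hc, by simp, by simp⟩
      · exact ⟨h.outer_mem, by simp, by simp⟩
  unfold dg
  rw [h1]
  refine Finset.card_pair fun heq => ?_
  have hne := ori_ne hcl.ne'
  have h3 := third_eq hne.2.1 hne.2.2 heq
  subst h3
  exact not_ET_outer h hc

lemma dg_outer' (h : Cfg P A o1 o2 o3) {a b : F059.Pt} (hab : a ≠ b)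
    (ha : a = o1 ∨ a = o2 ∨ a = o3) (hb : b = o1 ∨ b = o2 ∨ b = o3) :
    dg (TT P A o1 o2 o3) a b = 2 := by
  have e1 := dg_outer h
  have e2 := dg_outer (rot h)
  have e3 := dg_outer (rot (rot h))
  rw [TT_rot] at e2
  rw [TT_rot, TT_rot] at e3
  rcases ha with rfl | rfl | rfl <;> rcases hb with rfl | rfl | rfl
  · exact absurd rfl hab
  · exact e1
  · rw [dg_comm]; exact e3
  · rw [dg_comm]; exact e1
  · exact absurd rfl hab
  · exact e2
  · exact e3
  · rw [dg_comm]; exact e2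
  · exact absurd rfl hab

lemma outer_side (h : Cfg P A o1 o2 o3) {a b : F059.Pt} (hab : a ≠ b)
    (ha : a ∈ ({o1, o2, o3} : Finset F059.Pt)) (hb : b ∈ ({o1, o2, o3} : Finset F059.Pt)) :
    (∀ p ∈ P, 0 ≤ ori a b p) ∨ ∀ p ∈ P, ori a b p ≤ 0 := by
  simp only [Finset.mem_insert, Finset.mem_singleton] at ha hb
  rcases ha with rfl | rfl | rfl <;> rcases hb with rfl | rfl | rfl
  · exact absurd rfl hab
  · exact Or.inl fun p hp => (nonneg h hp).1
  · exact Or.inr fun p hp => by rw [ori_swap]; linarith [(nonneg h hp).2.2]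
  · exact Or.inr fun p hp => by rw [ori_swap]; linarith [(nonneg h hp).1]
  · exact absurd rfl hab
  · exact Or.inl fun p hp => (nonneg h hp).2.1
  · exact Or.inl fun p hp => (nonneg h hp).2.2
  · exact Or.inr fun p hp => by rw [ori_swap]; linarith [(nonneg h hp).2.1]
  · exact absurd rfl hab

end GTwoAux

theorem Cfg.dg_of_edge (h : Cfg P A o1 o2 o3) {a b : F059.Pt} (hab : s(a, b) ∈ A) :
    dg (TT P A o1 o2 o3) a b = 2 := by
  obtain ⟨haP, hbP, hne⟩ := mem_Seg.1 (h.tri.1 hab)
  by_cases h1 : ∃ p ∈ P, 0 < ori a b p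
  · by_cases h2 : ∃ p ∈ P, ori a b p < 0
    · obtain ⟨p, hp, hpl⟩ := h1
      obtain ⟨p', hp', hpr⟩ := h2
      obtain ⟨c, hc, hcl⟩ := local_left h.gp h.tri hab hp hpl
      obtain ⟨d, hd', hdl⟩ := local_left h.gp h.tri (a := b) (b := a)
        (by rw [Sym2.eq_swap]; exact hab) hp' (by rw [ori_swap]; linarith)
      have hd := hd'.swap
      have hdr : ori a b d < 0 := by
        have := ori_swap a b d
        linarith
      have h3 : (TT P A o1 o2 o3).filter (fun t => a ∈ t ∧ b ∈ t) =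
          {({a, b, c} : Finset F059.Pt), {a, b, d}} := by
        ext t
        simp only [Finset.mem_filter]
        constructor
        · rintro ⟨ht, m1, m2⟩
          by_cases hto : t = {o1, o2, o3}
          · exfalso
            subst hto
            rcases outer_side h hne m1 m2 with h4 | h4
            · have := h4 p' hp'
              linarith
            · have := h4 p hp
              linarith
          · obtain ⟨c', rfl, hE⟩ := h.ET_of_mem ht hto hne m1 m2
            rcases lt_or_gt_of_ne hE.em.1 with h4 | h4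
            · have h5 := ET_unique h.gp h.tri hd hE (mul_pos_of_neg_of_neg hdr h4)
              rw [h5]; simp
            · have h5 := ET_unique h.gp h.tri hc hE (mul_pos hcl h4)
              rw [h5]; simp
        · intro ht
          rw [Finset.mem_insert, Finset.mem_singleton] at ht
          rcases ht with rfl | rfl
          · exact ⟨h.mem_of_ET hc, by simp, by simp⟩
          · exact ⟨h.mem_of_ET hd, by simp, by simp⟩
      unfold dg
      rw [h3]
      refine Finset.card_pair fun heq => ?_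
      have hne' := ori_ne hcl.ne'
      have h5 := third_eq hne'.2.1 hne'.2.2 heq
      subst h5
      linarith
    · push Not at h2
      have := hull h hbP haP hne.symm (fun p hp => by rw [ori_swap]; linarith [h2 p hp])
      exact dg_outer' h hne this.2 this.1
  · push Not at h1
    have := hull h haP hbP hne h1
    exact dg_outer' h hne this.1 this.2

theorem Cfg.two (h : Cfg P A o1 o2 o3) (a b : F059.Pt) (hab : a ≠ b) :
    dg (TT P A o1 o2 o3) a b = 0 ∨ dg (TT P A o1 o2 o3) a b = 2 := by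
  by_cases h0 : dg (TT P A o1 o2 o3) a b = 0
  · exact Or.inl h0
  · right
    unfold dg at h0
    obtain ⟨t, ht⟩ := Finset.card_pos.1 (Nat.pos_of_ne_zero h0)
    obtain ⟨ht1, ht2, ht3⟩ := Finset.mem_filter.1 ht
    exact h.dg_of_edge (h.edge_of_mem ht1 hab ht2 ht3)

/-- two triangles, not the outer one, on both sides -/
theorem Cfg.other (h : Cfg P A o1 o2 o3) {Z : Finset (Finset F059.Pt)}
    (hZ : Z ⊆ TT P A o1 o2 o3) (ho : {o1, o2, o3} ∉ Z) {v q : F059.Pt} (hvq : v ≠ q)
    (hd : dg Z v q = 2) :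
    (∃ c, {v, q, c} ∈ Z ∧ ET P A v q c ∧ 0 < ori v q c) ∧
      ∃ c, {v, q, c} ∈ Z ∧ ET P A v q c ∧ ori v q c < 0 := by
  unfold dg at hd
  obtain ⟨t1, t2, hne, heq⟩ := Finset.card_eq_two.1 hd
  have m1 : t1 ∈ Z.filter (fun t => v ∈ t ∧ q ∈ t) := by rw [heq]; simp
  have m2 : t2 ∈ Z.filter (fun t => v ∈ t ∧ q ∈ t) := by rw [heq]; simp
  obtain ⟨z1, v1, q1⟩ := Finset.mem_filter.1 m1
  obtain ⟨z2, v2, q2⟩ := Finset.mem_filter.1 m2
  obtain ⟨c1, rfl, E1⟩ := h.ET_of_mem (hZ z1) (fun e => ho (e ▸ z1)) hvq v1 q1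
  obtain ⟨c2, rfl, E2⟩ := h.ET_of_mem (hZ z2) (fun e => ho (e ▸ z2)) hvq v2 q2
  have hcc : c1 ≠ c2 := by
    rintro rfl
    exact hne rfl
  rcases lt_or_gt_of_ne E1.em.1 with h1 | h1 <;> rcases lt_or_gt_of_ne E2.em.1 with h2 | h2
  · exact absurd (ET_unique h.gp h.tri E1 E2 (mul_pos_of_neg_of_neg h1 h2)) hcc
  · exact ⟨⟨c2, z2, E2, h2⟩, ⟨c1, z1, E1, h1⟩⟩
  · exact ⟨⟨c1, z1, E1, h1⟩, ⟨c2, z2, E2, h2⟩⟩
  · exact absurd (ET_unique h.gp h.tri E1 E2 (mul_pos h1 h2)) hcc

end UPN
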