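import Pool.Agent.Lib.UPN.GTwo

/-!
# UPN.GVert (2 h): the triangles at a vertex are connected

`Z` is a set of triangles at `v`, closed under adjacency at `v`.  Suppose it is neither empty nor everything at `v`.
Its complement in the set of triangles at `v` is closed too (a member adjacent to a member of `Z` would be in
`Z`), so, exchanging them if necessary, `{o1,o2,o3} ∉ Z`.  For a vertex `q ≠ v` of a triangle of `Z`:
`dg T v q = 2` (`Cfg.two`), both triangles are in `Z` (closed), `dg Z v q = 2`, `Cfg.other` gives the triangles on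
both sides.  Let `H` be the set of the `q ≠ v` which are vertices of triangles of `Z`, and `a ≠ v` a vertex of a
triangle at `v` not in `Z`; then `a ∉ H` (`dg Z v a = 2 = dg T v a` otherwise), `s(v,a) ∈ A`.
(1) There is `z ∈ H` with `ori v z a > 0`: otherwise `ori v a z > 0` for all `z ∈ H` (general position);
`last_dir` (`s = 1`) gives `z ∈ H` with `ori v z' z > 0` for all other `z' ∈ H`; but there is `c ∈ H` with
`ori v z c > 0`, contradiction (`ori v c z > 0`).
(2) `H' = {z ∈ H | ori v z a > 0}` is nonempty and on one side (`s = -1`) of `v a`; `last_dir` gives `z ∈ H'` with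
`ori v z' z > 0` for all other `z' ∈ H'`.  Take the left triangle `ET P A v z c`, `c ∈ H`, `ori v z c > 0`;
`no_between` (`r = a`, `a ≠ c` as `a ∉ H`) gives `ori v c a > 0`, so `c ∈ H'`, `ori v c z > 0`, contradiction.
-/

set_option autoImplicit false

namespace UPN

open F059

variable {P : Finset F059.Pt} {A : Finset (Sym2 F059.Pt)} {o1 o2 o3 : F059.Pt}

namespace GVertAux

lemma two_le {v q : F059.Pt} {t t' : Finset F059.Pt} (hvq : v ≠ q) (h1 : v ∈ t) (h2 : q ∈ t)
    (h3 : v ∈ t') (h4 : q ∈ t') : 2 ≤ (t ∩ t').card := by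
  rw [← Finset.card_pair hvq]
  refine Finset.card_le_card ?_
  intro x hx
  simp only [Finset.mem_insert, Finset.mem_singleton] at hx
  rcases hx with rfl | rfl
  · exact Finset.mem_inter.2 ⟨h1, h3⟩
  · exact Finset.mem_inter.2 ⟨h2, h4⟩

lemma core (h : Cfg P A o1 o2 o3) (v : F059.Pt) {Z : Finset (Finset F059.Pt)}
    (hZ : Z ⊆ TT P A o1 o2 o3) (hv : ∀ t ∈ Z, v ∈ t)
    (hcl : ∀ t ∈ Z, ∀ t' ∈ TT P A o1 o2 o3, v ∈ t' → 2 ≤ (t ∩ t').card → t' ∈ Z)
    (ho : {o1, o2, o3} ∉ Z) (hne : Z.Nonempty) {t0 : Finset F059.Pt}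
    (ht0 : t0 ∈ TT P A o1 o2 o3) (hv0 : v ∈ t0) (hn0 : t0 ∉ Z) : False := by
  classical
  set H : Finset F059.Pt := (Z.biUnion id).erase v with hH
  have memH : ∀ q, q ∈ H ↔ q ≠ v ∧ ∃ t ∈ Z, q ∈ t := by
    intro q
    simp [hH]
  -- both triangles at an edge `v q`
  have hside : ∀ q ∈ H, (∃ c, {v, q, c} ∈ Z ∧ ET P A v q c ∧ 0 < ori v q c) ∧
      ∃ c, {v, q, c} ∈ Z ∧ ET P A v q c ∧ ori v q c < 0 := by
    intro q hq
    obtain ⟨hqv, t, ht, hqt⟩ := (memH q).1 hq
    have h1 : Z.filter (fun s => v ∈ s ∧ q ∈ s) =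
        (TT P A o1 o2 o3).filter (fun s => v ∈ s ∧ q ∈ s) := by
      ext s
      simp only [Finset.mem_filter]
      constructor
      · rintro ⟨a1, a2, a3⟩
        exact ⟨hZ a1, a2, a3⟩
      · rintro ⟨a1, a2, a3⟩
        exact ⟨hcl t ht s a1 a2 (two_le hqv.symm (hv t ht) hqt a2 a3), a2, a3⟩
    have h2 : dg Z v q = dg (TT P A o1 o2 o3) v q := by
      unfold dg
      rw [h1]
    have h3 : dg (TT P A o1 o2 o3) v q = 2 :=
      h.dg_of_edge (h.edge_of_mem (hZ ht) hqv.symm (hv t ht) hqt)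
    exact h.other hZ ho hqv.symm (h2.trans h3)
  have hcH : ∀ q c, {v, q, c} ∈ Z → ori v q c ≠ 0 → c ∈ H := by
    intro q c h1 h2
    exact (memH c).2 ⟨(GTwoAux.ori_ne h2).2.1.symm, _, h1, by simp⟩
  -- the vertex `a`
  obtain ⟨a, ha0, hav⟩ : ∃ a ∈ t0, a ≠ v := by
    by_contra hcon
    push Not at hcon
    have h1 : t0 ⊆ {v} := fun x hx => by simpa using hcon x hx
    have h2 := Finset.card_le_card h1
    rw [h.card3 t0 ht0] at h2
    simp at h2
  have haH : a ∉ H := by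
    intro ha
    obtain ⟨_, t, ht, hat⟩ := (memH a).1 ha
    exact hn0 (hcl t ht t0 ht0 hv0 (two_le hav.symm (hv t ht) hat hv0 ha0))
  have hva : s(v, a) ∈ A := h.edge_of_mem ht0 hav.symm hv0 ha0
  have haP : a ∈ P := h.sub ht0 ha0
  have hvP : v ∈ P := h.sub ht0 hv0
  have hHP : H ⊆ P := by
    intro q hq
    obtain ⟨_, t, ht, hqt⟩ := (memH q).1 hq
    exact h.sub (hZ ht) hqt
  have hHne : H.Nonempty := by
    obtain ⟨t, ht⟩ := hne
    by_contra hcon
    rw [Finset.not_nonempty_iff_eq_empty] at hcon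
    have h1 : t ⊆ {v} := by
      intro x hx
      by_contra hxv
      have : x ∈ H := (memH x).2 ⟨by simpa using hxv, t, ht, hx⟩
      rw [hcon] at this
      simp at this
    have h2 := Finset.card_le_card h1
    rw [h.card3 t (hZ ht)] at h2
    simp at h2
  -- (1)
  have hex : ∃ z ∈ H, 0 < ori v z a := by
    by_contra hcon
    push Not at hcon
    have hs : OneSide v a 1 H := by
      intro z hz
      have h1 := hcon z hz
      have hzv := ((memH z).1 hz).1
      have hza : z ≠ a := fun e => haH (e ▸ hz)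
      have h2 := h.gp v hvP z (hHP hz) a haP hzv.symm hav.symm hza
      have h3 : ori v a z = - ori v z a := ori_swap' v z a
      rw [one_mul, h3]
      have := lt_of_le_of_ne h1 h2
      linarith
    obtain ⟨z, hz, hlast⟩ := last_dir h.gp hvP hHP hHne hs
    obtain ⟨⟨c, c1, _, c3⟩, _⟩ := hside z hz
    have hc := hcH z c c1 c3.ne'
    have h4 := hlast c hc (GTwoAux.ori_ne c3.ne').2.2.symm
    have h5 : ori v c z = - ori v z c := ori_swap' v z c
    linarith
  -- (2)
  set H' : Finset F059.Pt := H.filter (fun z => 0 < ori v z a) with hH'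
  have hs : OneSide v a (-1) H' := by
    intro z hz
    have h1 := (Finset.mem_filter.1 hz).2
    have h3 : ori v a z = - ori v z a := ori_swap' v z a
    rw [h3]
    linarith
  obtain ⟨z0, hz0, hz0a⟩ := hex
  obtain ⟨z, hz, hlast⟩ := last_dir h.gp hvP ((Finset.filter_subset _ _).trans hHP)
    ⟨z0, Finset.mem_filter.2 ⟨hz0, hz0a⟩⟩ hs
  obtain ⟨hzH, hza⟩ := Finset.mem_filter.1 hz
  obtain ⟨⟨c, c1, c2, c3⟩, _⟩ := hside z hzH
  have hc := hcH z c c1 c3.ne'
  have h4 := no_between h.gp h.tri c2 c3 hva hza (fun e => haH (e ▸ hc))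
  have h5 := hlast c (Finset.mem_filter.2 ⟨hc, h4⟩) (GTwoAux.ori_ne c3.ne').2.2.symm
  have h6 : ori v c z = - ori v z c := ori_swap' v z c
  linarith

end GVertAux

open GVertAux

theorem Cfg.vert (h : Cfg P A o1 o2 o3) (v : F059.Pt) : ∀ Z ⊆ TT P A o1 o2 o3, (∀ t ∈ Z, v ∈ t) →
    (∀ t ∈ Z, ∀ t' ∈ TT P A o1 o2 o3, v ∈ t' → 2 ≤ (t ∩ t').card → t' ∈ Z) →
    Z = ∅ ∨ ∀ t ∈ TT P A o1 o2 o3, v ∈ t → t ∈ Z := by
  classical
  intro Z hZ hv hcl
  by_contra hcon
  push Not at hcon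
  obtain ⟨hne, t0, ht0, hv0, hn0⟩ := hcon
  have hne' : Z ≠ ∅ := by
    rintro rfl
    simp at hne
  by_cases ho : {o1, o2, o3} ∉ Z
  · exact core h v hZ hv hcl ho (Finset.nonempty_iff_ne_empty.2 hne') ht0 hv0 hn0
  · push Not at ho
    obtain ⟨t1, ht1⟩ := Finset.nonempty_iff_ne_empty.2 hne'
    refine core h v (Z := ((TT P A o1 o2 o3).filter (fun t => v ∈ t)) \ Z) ?_ ?_ ?_ ?_ ?_
      (hZ ht1) (hv t1 ht1) ?_
    · exact (Finset.sdiff_subset).trans (Finset.filter_subset _ _)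
    · intro t ht
      exact (Finset.mem_filter.1 (Finset.mem_sdiff.1 ht).1).2
    · intro t ht t' ht' hv' hcard
      obtain ⟨q1, q2⟩ := Finset.mem_sdiff.1 ht
      obtain ⟨q3, q4⟩ := Finset.mem_filter.1 q1
      refine Finset.mem_sdiff.2 ⟨Finset.mem_filter.2 ⟨ht', hv'⟩, fun hmem => q2 ?_⟩
      exact hcl t' hmem t q3 q4 (by rw [Finset.inter_comm]; exact hcard)
    · intro hmem
      exact (Finset.mem_sdiff.1 hmem).2 ho
    · exact ⟨t0, Finset.mem_sdiff.2 ⟨Finset.mem_filter.2 ⟨ht0, hv0⟩, hn0⟩⟩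
    · intro hmem
      exact (Finset.mem_sdiff.1 hmem).2 ht1

end UPN
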