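import Pool.Agent.Lib.UPN.Defs

/-!
# UPN.HostCard (1 h): the size of the host

Let `k' = Nat.clog 2 N`, so `N ≤ 2^k'`.  If `p ∈ Host c N` with the exponent `k`, we may assume
`k ≤ k'`: otherwise `p.2 ≤ N ≤ p.1 + 2^k'` and `2^(k'-c) ∣ 2^(k-c) ∣ p.1 + p.2`.
So `Host c N` is contained in the union over `k ≤ k'` and `a ≤ N` of the sets
`{(a, b) | a < b ≤ a + 2^k, 2^(k-c) ∣ a + b}`, each with at most `2^k / 2^(k-c) + 1 ≤ 2^c + 1` members
(numbers in an interval of length `2^k` in one residue class modulo `2^(k-c)`; e.g. the map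
`b ↦ (a + b) / 2^(k-c)` is injective on it with values in an interval of length `2^k/2^(k-c)`;
if `k ≤ c` the trivial bound is `2^k ≤ 2^c`).
-/

set_option autoImplicit false

namespace UPN

theorem host_card (c N : ℕ) :
    (Host c N).card ≤ (N + 1) * (Nat.clog 2 N + 1) * (2 ^ c + 1) := by
  classical
  have hN : N ≤ 2 ^ Nat.clog 2 N := Nat.le_pow_clog (by norm_num) N
  have hex : ∀ p ∈ Host c N, ∃ k, k ≤ Nat.clog 2 N ∧ p.2 ≤ p.1 + 2 ^ k ∧
      2 ^ (k - c) ∣ p.1 + p.2 := by
    intro p hp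
    simp only [Host, Finset.mem_filter, Finset.mem_product, Finset.mem_range] at hp
    obtain ⟨⟨h1, h2⟩, _, k, hk1, hk2⟩ := hp
    by_cases hk : k ≤ Nat.clog 2 N
    · exact ⟨k, hk, hk1, hk2⟩
    · refine ⟨Nat.clog 2 N, le_rfl, by omega, ?_⟩
      exact (pow_dvd_pow 2 (by omega)).trans hk2
  choose! kf hk1 hk2 hk3 using hex
  have hcard := Finset.card_le_card_of_injOn (s := Host c N)
    (t := Finset.range (N + 1) ×ˢ (Finset.range (Nat.clog 2 N + 1) ×ˢ Finset.range (2 ^ c + 1)))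
    (fun p => (p.1, (kf p, (p.1 + p.2) / 2 ^ (kf p - c) - (p.1 + p.1) / 2 ^ (kf p - c)))) ?_ ?_
  · rw [Finset.card_product, Finset.card_product, Finset.card_range, Finset.card_range,
      Finset.card_range, ← mul_assoc] at hcard
    exact hcard
  · intro p hp
    have hp' := hp
    simp only [Host, Finset.coe_filter, Set.mem_ofPred_eq, Finset.mem_product,
      Finset.mem_range] at hp
    have a1 := hk1 p hp'
    have a2 := hk2 p hp'
    simp only [Finset.coe_product, Set.mem_prod, Finset.coe_range, Set.mem_Iio]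
    refine ⟨hp.1.1, by omega, ?_⟩
    have hM : 0 < 2 ^ (kf p - c) := by positivity
    have b1 : 2 ^ kf p ≤ 2 ^ c * 2 ^ (kf p - c) := by
      rw [← pow_add]
      exact Nat.pow_le_pow_right (by norm_num) (by omega)
    have b2 : (p.1 + p.2) / 2 ^ (kf p - c) ≤ (p.1 + p.1) / 2 ^ (kf p - c) + 2 ^ c := by
      rw [← Nat.add_mul_div_right _ _ hM]
      exact Nat.div_le_div_right (by omega)
    have b3 : 0 < 2 ^ c := by positivity
    omega
  · intro p hp p' hp' he
    simp only [Prod.mk.injEq] at he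
    obtain ⟨e1, e2, e3⟩ := he
    have q := hp
    have q' := hp'
    simp only [Host, Finset.coe_filter, Set.mem_ofPred_eq, InHost] at q q'
    have c1 := hk3 p hp
    have c2 := hk3 p' hp'
    rw [← e2, ← e1] at c2 e3
    have hM : 0 < 2 ^ (kf p - c) := by positivity
    have d1 : (p.1 + p.1) / 2 ^ (kf p - c) ≤ (p.1 + p.2) / 2 ^ (kf p - c) :=
      Nat.div_le_div_right (by omega)
    have d2 : (p.1 + p.1) / 2 ^ (kf p - c) ≤ (p.1 + p'.2) / 2 ^ (kf p - c) :=
      Nat.div_le_div_right (by omega)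
    have d3 : (p.1 + p.2) / 2 ^ (kf p - c) = (p.1 + p'.2) / 2 ^ (kf p - c) := by omega
    have d4 : p.1 + p.2 = p.1 + p'.2 := by
      rw [← Nat.div_mul_cancel c1, ← Nat.div_mul_cancel c2, d3]
    exact Prod.ext e1 (by omega)

end UPN
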