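import Pool.Agent.Lib.UPN.Defs

/-!
# UPN.StrG (2 h): the geometry of one new edge `v w`, `v` very high

`pt px py v = (px v, py v)`, `px` integral.  A point of `segment (pt v) (pt w)` is
`X = (px w + t (px v - px w), py w + t (py v - py w))`, `0 ≤ t ≤ 1` (`segment_eq_image`, coordinates).
Let `d = |px v - px w|`, `1 ≤ d < K`.
* `high`: if `|X.1 - px w| ≥ 1` then `t ≥ 1/d`, `X.2 = (1-t) py w + t py v > (1/d) py v > py v / K ≥ py u`
  (if `t = 1` use `d > 1` or `K > 1` directly; `py w > 0`, `K > 1`).
* `vertex_off`: `|px u - px w| ≥ 1` as they are different integers; `high`.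
* `new_old`: `X` on the new edge `v w` and on the old edge `p q` (`py p ≤ py q`): `X.2 ≤ py q`.
  By `high`, `|X.1 - px w| < 1`.  Suppose `X ≠ pt w`; then `t > 0`, `X.1` is strictly between `px w` and the next
  integer towards `px v`, and it is between `px p` and `px q`, integers: so `px w` is weakly between `px p` and `px q`.
  If `w ≠ p, q` (then `px w ≠ px p, px q`) it is strictly between, `hnc` gives `py q < py w ≤ X.2`,
  contradiction.  If `w = q`: `X.2 = py w + t (py v - py w) > py w = py q`, contradiction.  If `w = p`: write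
  `X = (px p + s (px q - px p), py p + s (py q - py p))`, `s |px q - px p| = t d`, so `s ≤ t d`,
  `X.2 ≤ py p + t d (py q - py p)` and `X.2 = py p + t (py v - py p)`, `t > 0`:
  `py v - py p ≤ d (py q - py p)`, but `py v ≥ K py q > d py q ≥ d (py q - py p) + py p`, contradiction.
  So `X = pt w`.
* `new_new`: if `X ≠ pt v` is on both new edges `v w`, `v w'`: the vectors `w - v`, `w' - v` are positive multiples
  of the same vector, so one of `w, w'` lies on the segment from `v` to the other: contradiction to `vertex_off`.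
-/

set_option autoImplicit false

namespace UPN

variable {V : Type} {px : V → ℤ} {py : V → ℝ} {K : ℝ}

namespace StrGAux

/-- coordinates of a point of a segment -/
theorem seg_coord {a b : V} {x : ℝ × ℝ} (hx : x ∈ segment ℝ (pt px py a) (pt px py b)) :
    ∃ t : ℝ, 0 ≤ t ∧ t ≤ 1 ∧ x.1 = px b + t * (px a - px b) ∧ x.2 = py b + t * (py a - py b) := by
  obtain ⟨s, t, hs, ht, hst, rfl⟩ := hx
  refine ⟨s, hs, by linarith, ?_, ?_⟩
  · have e : t = 1 - s := by linarith
    simp only [pt, Prod.fst_add, Prod.smul_fst, smul_eq_mul, e]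
    ring
  · have e : t = 1 - s := by linarith
    simp only [pt, Prod.snd_add, Prod.smul_snd, smul_eq_mul, e]
    ring

theorem one_le_abs {a b : ℤ} (h : a ≠ b) : (1 : ℝ) ≤ |(a : ℝ) - b| := by
  have h1 : (1 : ℤ) ≤ |a - b| := Int.one_le_abs (sub_ne_zero.mpr h)
  have h2 : ((1 : ℤ) : ℝ) ≤ ((|a - b| : ℤ) : ℝ) := by exact_mod_cast h1
  push_cast at h2
  exact h2

theorem K_gt {v w : V} (hd : px v ≠ px w) (hK : ((|px v - px w| : ℤ) : ℝ) < K) :
    1 ≤ |(px v : ℝ) - px w| ∧ |(px v : ℝ) - px w| < K := by
  refine ⟨one_le_abs hd, ?_⟩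
  push_cast at hK
  exact hK

end StrGAux

open StrGAux

theorem high {v w : V} (hd : px v ≠ px w) (hK : ((|px v - px w| : ℤ) : ℝ) < K)
    (hw : 0 < py w) (hvw : K * py w ≤ py v) {y : ℝ} (hy : K * y ≤ py v) {x : ℝ × ℝ}
    (hx : x ∈ segment ℝ (pt px py v) (pt px py w)) (h1 : 1 ≤ |x.1 - px w|) : y < x.2 := by
  obtain ⟨t, ht0, ht1, hx1, hx2⟩ := seg_coord hx
  obtain ⟨hd1, hdK⟩ := K_gt hd hK
  set d : ℝ := |(px v : ℝ) - px w| with hd'
  have h2 : |x.1 - px w| = t * d := by
    rw [hx1, add_sub_cancel_left, abs_mul, abs_of_nonneg ht0]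
  rw [h2] at h1
  have htpos : 0 < t := by
    rcases ht0.lt_or_eq with h | h
    · exact h
    · rw [← h, zero_mul] at h1
      linarith
  have hK0 : 0 < K := by linarith
  have hv0 : 0 < py v := lt_of_lt_of_le (mul_pos hK0 hw) hvw
  have hx2' : t * py v ≤ x.2 := by
    rw [hx2]
    nlinarith
  rcases le_or_gt y 0 with h | h
  · have := mul_pos htpos hv0
    linarith
  · have h3 : t * (K * y) ≤ t * py v := mul_le_mul_of_nonneg_left hy ht0
    have h4 : t * d * y < t * K * y := by
      apply mul_lt_mul_of_pos_right _ h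
      exact mul_lt_mul_of_pos_left hdK htpos
    have h5 : 1 * y ≤ t * d * y := mul_le_mul_of_nonneg_right h1 h.le
    nlinarith

theorem vertex_off {v w u : V} (hd : px v ≠ px w) (hK : ((|px v - px w| : ℤ) : ℝ) < K)
    (hw : 0 < py w) (hvw : K * py w ≤ py v) (hu : K * py u ≤ py v) (huw : px u ≠ px w) :
    pt px py u ∉ segment ℝ (pt px py v) (pt px py w) := by
  intro hx
  exact lt_irrefl _ (high hd hK hw hvw hu hx (one_le_abs huw))

namespace StrGAux

theorem new_old_aux {v w p q : V} (hd : px v ≠ px w) (hK : ((|px v - px w| : ℤ) : ℝ) < K)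
    (hw : 0 < py w) (hp : 0 < py p) (hq : 0 < py q) (hvw : K * py w ≤ py v)
    (hvq : K * py q ≤ py v) (hpq : px p ≠ px q)
    (hwp : w = p ∨ px w ≠ px p) (hwq : w = q ∨ px w ≠ px q)
    (hnc : (px p < px w ∧ px w < px q) ∨ (px q < px w ∧ px w < px p) →
      py p < py w ∧ py q < py w) {x : ℝ × ℝ} (hle : py p ≤ py q)
    (hx : x ∈ segment ℝ (pt px py v) (pt px py w))
    (hx' : x ∈ segment ℝ (pt px py q) (pt px py p)) : x = pt px py w := by
  by_contra hne
  obtain ⟨t, ht0, ht1, hx1, hx2⟩ := seg_coord hx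
  obtain ⟨s, hs0, hs1, hy1, hy2⟩ := seg_coord hx'
  obtain ⟨hd1, hdK⟩ := K_gt hd hK
  have hK1 : 1 < K := by linarith
  have hvw' : py w < py v := by nlinarith
  have hxq : x.2 ≤ py q := by
    rw [hy2]
    nlinarith
  have htpos : 0 < t := by
    rcases ht0.lt_or_eq with h | h
    · exact h
    · exfalso
      apply hne
      rw [← h, zero_mul, add_zero] at hx1 hx2
      exact Prod.ext hx1 hx2
  have hxw : py w < x.2 := by
    rw [hx2]
    have := mul_pos htpos (sub_pos.mpr hvw')
    linarith
  have hnear : |x.1 - px w| < 1 := by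
    by_contra hcon
    have := high hd hK hw hvw hvq hx (not_lt.mp hcon)
    linarith
  rcases hwq with rfl | hwq
  · linarith
  rcases hwp with rfl | hwp
  · -- common lower endpoint
    have h1 : s * |(px q : ℝ) - px w| = t * |(px v : ℝ) - px w| := by
      have e : s * ((px q : ℝ) - px w) = t * ((px v : ℝ) - px w) := by linarith
      calc s * |(px q : ℝ) - px w| = |s * ((px q : ℝ) - px w)| := by
            rw [abs_mul, abs_of_nonneg hs0]
        _ = |t * ((px v : ℝ) - px w)| := by rw [e]
        _ = t * |(px v : ℝ) - px w| := by rw [abs_mul, abs_of_nonneg ht0]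
    have h2 : 1 ≤ |(px q : ℝ) - px w| := one_le_abs (Ne.symm hpq)
    have h3 : s ≤ t * |(px v : ℝ) - px w| := by
      rw [← h1]
      exact le_mul_of_one_le_right hs0 h2
    set d : ℝ := |(px v : ℝ) - px w| with hd'
    have h4 : t * (py v - py w) ≤ t * d * (py q - py w) := by
      have h5 : s * (py q - py w) ≤ t * d * (py q - py w) :=
        mul_le_mul_of_nonneg_right h3 (by linarith)
      linarith
    have h6 : py v - py w ≤ d * (py q - py w) := by
      have : t * (py v - py w) ≤ t * (d * (py q - py w)) := by linarith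
      exact le_of_mul_le_mul_left this htpos
    have h7 : d * py q < K * py q := mul_lt_mul_of_pos_right hdK hq
    nlinarith
  · -- `px w` is strictly between
    obtain ⟨hn1, hn2⟩ := abs_lt.mp hnear
    have hlt : ∀ a b : ℤ, a < b → (a : ℝ) + 1 ≤ b := by
      intro a b hab
      exact_mod_cast hab
    rcases lt_or_gt_of_ne hpq with h | h
    · have hlo : (px p : ℝ) ≤ x.1 := by
        rw [hy1]
        have := mul_nonneg hs0 (sub_nonneg.mpr (show (px p : ℝ) ≤ px q by exact_mod_cast h.le))
        linarith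
      have hhi : x.1 ≤ px q := by
        rw [hy1]
        have h0 : (0 : ℝ) ≤ (px q : ℝ) - px p := sub_nonneg.mpr (by exact_mod_cast h.le)
        nlinarith
      have h1 : px p < px w := by
        by_contra hcon
        have h2 : px w < px p := lt_of_le_of_ne (not_lt.mp hcon) hwp
        have := hlt _ _ h2
        linarith
      have h2 : px w < px q := by
        by_contra hcon
        have h3 : px q < px w := lt_of_le_of_ne (not_lt.mp hcon) (Ne.symm hwq)
        have := hlt _ _ h3
        linarith
      have := (hnc (Or.inl ⟨h1, h2⟩)).2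
      linarith
    · have hlo : (px q : ℝ) ≤ x.1 := by
        rw [hy1]
        have h0 : (0 : ℝ) ≤ (px p : ℝ) - px q := sub_nonneg.mpr (by exact_mod_cast h.le)
        nlinarith
      have hhi : x.1 ≤ px p := by
        rw [hy1]
        have := mul_nonneg hs0 (sub_nonneg.mpr (show (px q : ℝ) ≤ px p by exact_mod_cast h.le))
        linarith
      have h1 : px q < px w := by
        by_contra hcon
        have h2 : px w < px q := lt_of_le_of_ne (not_lt.mp hcon) hwq
        have := hlt _ _ h2
        linarith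
      have h2 : px w < px p := by
        by_contra hcon
        have h3 : px p < px w := lt_of_le_of_ne (not_lt.mp hcon) (Ne.symm hwp)
        have := hlt _ _ h3
        linarith
      have := (hnc (Or.inr ⟨h1, h2⟩)).2
      linarith

end StrGAux

theorem new_old {v w p q : V} (hd : px v ≠ px w) (hK : ((|px v - px w| : ℤ) : ℝ) < K)
    (hw : 0 < py w) (hp : 0 < py p) (hq : 0 < py q) (hvw : K * py w ≤ py v)
    (hvp : K * py p ≤ py v) (hvq : K * py q ≤ py v) (hpq : px p ≠ px q)
    (hwp : w = p ∨ px w ≠ px p) (hwq : w = q ∨ px w ≠ px q)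
    (hnc : (px p < px w ∧ px w < px q) ∨ (px q < px w ∧ px w < px p) →
      py p < py w ∧ py q < py w) {x : ℝ × ℝ}
    (hx : x ∈ segment ℝ (pt px py v) (pt px py w))
    (hx' : x ∈ segment ℝ (pt px py p) (pt px py q)) : x = pt px py w := by
  rcases le_total (py p) (py q) with h | h
  · rw [segment_symm] at hx'
    exact new_old_aux hd hK hw hp hq hvw hvq hpq hwp hwq hnc h hx hx'
  · refine new_old_aux hd hK hw hq hp hvw hvp hpq.symm hwq hwp ?_ h hx hx'
    intro h1
    exact (hnc h1.symm).symm

namespace StrGAux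

theorem new_new_aux {v w w' : V} (hd : px v ≠ px w)
    (hK : ((|px v - px w| : ℤ) : ℝ) < K)
    (hw : 0 < py w) (hvw : K * py w ≤ py v) (hvw' : K * py w' ≤ py v)
    (hne : px w ≠ px w') {a b : ℝ} (ha : 0 ≤ a) (hb : 0 < b) (hab : a ≤ b)
    (h1 : b * ((px w' : ℝ) - px v) = a * (px w - px v))
    (h2 : b * (py w' - py v) = a * (py w - py v)) : False := by
  refine vertex_off hd hK hw hvw hvw' hne.symm ?_
  refine ⟨1 - a / b, a / b, ?_, by positivity, by ring, ?_⟩
  · rw [sub_nonneg, div_le_one hb]
    exact hab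
  · have e1 : ((px w' : ℝ) - px v) = a / b * (px w - px v) := by
      field_simp
      linarith
    have e2 : (py w' - py v) = a / b * (py w - py v) := by
      field_simp
      linarith
    ext
    · simp only [pt, Prod.fst_add, Prod.smul_fst, smul_eq_mul]
      linarith
    · simp only [pt, Prod.snd_add, Prod.smul_snd, smul_eq_mul]
      linarith

end StrGAux

theorem new_new {v w w' : V} (hd : px v ≠ px w) (hd' : px v ≠ px w')
    (hK : ((|px v - px w| : ℤ) : ℝ) < K) (hK' : ((|px v - px w'| : ℤ) : ℝ) < K)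
    (hw : 0 < py w) (hw' : 0 < py w') (hvw : K * py w ≤ py v) (hvw' : K * py w' ≤ py v)
    (hne : px w ≠ px w') {x : ℝ × ℝ}
    (hx : x ∈ segment ℝ (pt px py v) (pt px py w))
    (hx' : x ∈ segment ℝ (pt px py v) (pt px py w')) : x = pt px py v := by
  by_contra hcon
  rw [segment_symm] at hx hx'
  obtain ⟨a, ha0, ha1, hx1, hx2⟩ := seg_coord hx
  obtain ⟨b, hb0, hb1, hy1, hy2⟩ := seg_coord hx'
  have hapos : 0 < a := by
    rcases ha0.lt_or_eq with h | h
    · exact h
    · exfalso
      apply hcon
      rw [← h, zero_mul, add_zero] at hx1 hx2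
      exact Prod.ext hx1 hx2
  have hbpos : 0 < b := by
    rcases hb0.lt_or_eq with h | h
    · exact h
    · exfalso
      apply hcon
      rw [← h, zero_mul, add_zero] at hy1 hy2
      exact Prod.ext hy1 hy2
  rcases le_total a b with h | h
  · exact new_new_aux hd hK hw hvw hvw' hne ha0 hbpos h (by linarith) (by linarith)
  · exact new_new_aux hd' hK' hw' hvw' hvw hne.symm hb0 hapos h (by linarith) (by linarith)

end UPN
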